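import Mathlib
import Pool.Agent.Lib.SSR.HD

/-! # SSW, Q1: multiplicative functions modulo an ideal c; ideals U, P with U P ≤ c, U^3 ≤ c, P ≤ U -/

open NumberField IsDedekindDomain

namespace SSW

/-- θ is a character of the units of O_K/c with values in the p-th roots of unity, zero on the elements which are not prime to the primes
in R; U, P are ideals with U P ≤ c, U^3 ≤ c, P ≤ U, p ∈ P. -/
structure LCh {K : Type} [Field K] [NumberField K] {C : Type} [Field C] (p : ℕ) (R : Finset (HeightOneSpectrum (𝓞 K))) (c U P : Ideal (𝓞 K))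
    (θ : 𝓞 K → C) : Prop where
  mul : ∀ a b, θ (a * b) = θ a * θ b
  per : ∀ a b, a - b ∈ c → θ a = θ b
  one : θ 1 = 1
  val : ∀ a, θ a = 0 ∨ θ a ^ p = 1
  ne : ∀ a, θ a ≠ 0 ↔ ∀ v ∈ R, a ∉ v.asIdeal
  inv : ∀ a, θ a ≠ 0 → ∃ b, a * b - 1 ∈ c
  UP : U * P ≤ c
  U3 : U ^ 3 ≤ c
  PU : P ≤ U
  pP : (p : 𝓞 K) ∈ P
  rad : ∀ v ∈ R, U ≤ v.asIdeal

variable {K : Type} [Field K] [NumberField K] {C : Type} [Field C] {p : ℕ} {R : Finset (HeightOneSpectrum (𝓞 K))} {c U P : Ideal (𝓞 K)}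
  {θ : 𝓞 K → C}

theorem q1_unit (h : LCh p R c U P θ) {a u : 𝓞 K} (ha : θ a ≠ 0) (hu : u ∈ U) : θ (a + u) ≠ 0 := by
  rw [h.ne] at ha ⊢
  intro v hv hc
  apply ha v hv
  have h1 := Ideal.sub_mem _ hc (h.rad v hv hu)
  rwa [add_sub_cancel_right] at h1

theorem q1_zero (h : LCh p R c U P θ) {a u : 𝓞 K} (ha : θ a = 0) (hu : u ∈ U) : θ (a + u) = 0 := by
  by_contra hc
  have h1 := q1_unit h hc (U.neg_mem hu)
  rw [add_neg_cancel_right] at h1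
  exact h1 ha

theorem q1_mem (h : LCh p R c U P θ) {x : 𝓞 K} (hx : x ∈ c) : θ (1 + x) = 1 := by
  rw [h.per (1 + x) 1 (by rw [add_sub_cancel_left]; exact hx), h.one]

theorem q1_pU (h : LCh p R c U P θ) {y : 𝓞 K} (hy : y ∈ U) : (p : 𝓞 K) * y ∈ c := by
  rw [mul_comm]
  exact h.UP (Ideal.mul_mem_mul hy h.pP)

theorem q1_c2 (h : LCh p R c U P θ) {x y z : 𝓞 K} (hx : x ∈ U) (hy : y ∈ U) (hz : z ∈ U) : x * y * z ∈ c := by
  apply h.U3
  have h1 : x * y * z ∈ U * U * U := Ideal.mul_mem_mul (Ideal.mul_mem_mul hx hy) hz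
  have e : U ^ 3 = U * U * U := by rw [pow_succ, sq]
  rwa [e]

/-- The quadratic identity. -/
theorem q1_B (h : LCh p R c U P θ) {a a' y z : 𝓞 K} (ha : a * a' - 1 ∈ c) (hy : y ∈ U) (hz : z ∈ U) :
    θ (a + y) * θ (a + z) = θ a * θ (a + y + z) * θ (1 + a' ^ 2 * (y * z)) := by
  rw [← h.mul, ← h.mul, ← h.mul]
  refine h.per _ _ ?_
  have e : (a + y) * (a + z) - a * (a + y + z) * (1 + a' ^ 2 * (y * z)) =
      -((a * a' - 1) * ((a * a' + 1) * (y * z))) - a * a' ^ 2 * (y * z * y) - a * a' ^ 2 * (y * z * z) := by ring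
  rw [e]
  refine Ideal.sub_mem _ (Ideal.sub_mem _ ((Ideal.neg_mem_iff _).2 (Ideal.mul_mem_right _ _ ha)) ?_) ?_
  · exact Ideal.mul_mem_left _ _ (q1_c2 h hy hz hy)
  · exact Ideal.mul_mem_left _ _ (q1_c2 h hy hz hz)

/-- The inverses of a and a + w. -/
theorem q1_inv (h : LCh p R c U P θ) {a a' b' w y z : 𝓞 K} (ha : a * a' - 1 ∈ c) (hb : (a + w) * b' - 1 ∈ c) (hw : w ∈ U) (hy : y ∈ U)
    (hz : z ∈ U) : b' ^ 2 * (y * z) - a' ^ 2 * (y * z) ∈ c := by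
  have h1 : (b' - a' + a' * b' * w) ∈ c := by
    have e : b' - a' + a' * b' * w = a' * ((a + w) * b' - 1) - b' * (a * a' - 1) := by ring
    rw [e]
    exact Ideal.sub_mem _ (Ideal.mul_mem_left _ _ hb) (Ideal.mul_mem_left _ _ ha)
  have e : b' ^ 2 * (y * z) - a' ^ 2 * (y * z) = (b' - a' + a' * b' * w) * ((b' + a') * (y * z)) - a' * b' * (b' + a') * (y * z * w) := by ring
  rw [e]
  exact Ideal.sub_mem _ (Ideal.mul_mem_right _ _ h1) (Ideal.mul_mem_left _ _ (q1_c2 h hy hz hw))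

/-- The twisted product is additive. -/
theorem q1_add (h : LCh p R c U P θ) {a w μ y z ρ σ : 𝓞 K} (ha : θ a ≠ 0) (hw : w ∈ U) (hμ : (p : 𝓞 K) ∣ μ ^ 2 + 1) (hy : y ∈ U) (hz : z ∈ U)
    (hρ : ρ ∈ P) (hσ : σ ∈ P) :
    (θ (a + y) * θ (a + w + (μ * y + ρ))) * (θ (a + z) * θ (a + w + (μ * z + σ))) =
      (θ a * θ (a + w)) * (θ (a + (y + z)) * θ (a + w + (μ * (y + z) + (ρ + σ)))) := by
  obtain ⟨a', ha'⟩ := h.inv a ha
  obtain ⟨b', hb'⟩ := h.inv (a + w) (q1_unit h ha hw)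
  have hy' : μ * y + ρ ∈ U := Ideal.add_mem _ (Ideal.mul_mem_left _ _ hy) (h.PU hρ)
  have hz' : μ * z + σ ∈ U := Ideal.add_mem _ (Ideal.mul_mem_left _ _ hz) (h.PU hσ)
  have e1 := q1_B h ha' hy hz
  have e2 := q1_B h hb' hy' hz'
  have e3 := q1_inv h ha' hb' hw hy' hz'
  have e4 : a' ^ 2 * ((μ * y + ρ) * (μ * z + σ)) + a' ^ 2 * (y * z) ∈ c := by
    obtain ⟨t, ht⟩ := hμ
    have e : a' ^ 2 * ((μ * y + ρ) * (μ * z + σ)) + a' ^ 2 * (y * z) =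
        a' ^ 2 * (t * z * (p * y) + μ * (y * σ) + μ * (z * ρ) + ρ * σ) := by
      have e5 : a' ^ 2 * ((μ * y + ρ) * (μ * z + σ)) + a' ^ 2 * (y * z) =
        a' ^ 2 * ((μ ^ 2 + 1) * (y * z) + μ * (y * σ) + μ * (z * ρ) + ρ * σ) := by ring
      rw [e5, ht]
      ring
    rw [e]
    refine Ideal.mul_mem_left _ _ (Ideal.add_mem _ (Ideal.add_mem _ (Ideal.add_mem _ ?_ ?_) ?_) ?_)
    · exact Ideal.mul_mem_left _ _ (q1_pU h hy)
    · exact Ideal.mul_mem_left _ _ (h.UP (Ideal.mul_mem_mul hy hσ))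
    · exact Ideal.mul_mem_left _ _ (h.UP (Ideal.mul_mem_mul hz hρ))
    · exact h.UP (Ideal.mul_mem_mul (h.PU hρ) hσ)
  have e5 : θ (1 + a' ^ 2 * (y * z)) * θ (1 + b' ^ 2 * ((μ * y + ρ) * (μ * z + σ))) = 1 := by
    rw [← h.mul]
    have e6 : (1 + a' ^ 2 * (y * z)) * (1 + b' ^ 2 * ((μ * y + ρ) * (μ * z + σ))) =
        1 + ((b' ^ 2 * ((μ * y + ρ) * (μ * z + σ)) - a' ^ 2 * ((μ * y + ρ) * (μ * z + σ))) +
          (a' ^ 2 * ((μ * y + ρ) * (μ * z + σ)) + a' ^ 2 * (y * z)) +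
          a' ^ 2 * b' ^ 2 * (μ * z + σ) * (y * z * (μ * y + ρ))) := by ring
    rw [e6]
    exact q1_mem h (Ideal.add_mem _ (Ideal.add_mem _ e3 e4) (Ideal.mul_mem_left _ _ (q1_c2 h hy hz hy')))
  have e7 : a + w + (μ * y + ρ) + (μ * z + σ) = a + w + (μ * (y + z) + (ρ + σ)) := by ring
  have e8 : a + y + z = a + (y + z) := by ring
  rw [e7] at e2
  rw [e8] at e1
  calc (θ (a + y) * θ (a + w + (μ * y + ρ))) * (θ (a + z) * θ (a + w + (μ * z + σ)))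
      = (θ (a + y) * θ (a + z)) * (θ (a + w + (μ * y + ρ)) * θ (a + w + (μ * z + σ))) := by ring
    _ = (θ a * θ (a + w)) * (θ (a + (y + z)) * θ (a + w + (μ * (y + z) + (ρ + σ)))) *
        (θ (1 + a' ^ 2 * (y * z)) * θ (1 + b' ^ 2 * ((μ * y + ρ) * (μ * z + σ)))) := by
      rw [e1, e2]
      ring
    _ = _ := by rw [e5, mul_one]

/-- Additivity on P. -/
theorem q1_addP (h : LCh p R c U P θ) {a y z : 𝓞 K} (ha : θ a ≠ 0) (hy : y ∈ P) (hz : z ∈ P) :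
    θ (a + y) * θ (a + z) = θ a * θ (a + (y + z)) := by
  obtain ⟨a', ha'⟩ := h.inv a ha
  rw [q1_B h ha' (h.PU hy) (h.PU hz), q1_mem h (Ideal.mul_mem_left _ _ (h.UP (Ideal.mul_mem_mul (h.PU hy) hz))), mul_one]
  rw [← add_assoc]

theorem q1_per (h : LCh p R c U P θ) (a : 𝓞 K) {y : 𝓞 K} (hy : y ∈ U) : θ (a + p * y) = θ a :=
  h.per _ _ (by rw [add_sub_cancel_left]; exact q1_pU h hy)

theorem q1_norm {C : Type} [NormedField C] {θ : 𝓞 K → C} (hp : p ≠ 0) (h : LCh p R c U P θ) (a : 𝓞 K) : ‖θ a‖ ≤ 1 := by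
  rcases h.val a with h1 | h1
  · rw [h1, norm_zero]
    exact zero_le_one
  · have h2 : ‖θ a‖ ^ p = 1 := by rw [← norm_pow, h1, norm_one]
    exact ((pow_eq_one_iff_of_nonneg (norm_nonneg _) hp).1 h2).le

end SSW
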