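import Mathlib
import Pool.Agent.Lib.SSW.Q1
import Pool.Agent.Lib.SSR.H3
import Pool.Agent.Lib.SSR.CD

/-! # SSW, Q7: characters of ideals with exponents n at the primes above p; the local character -/

open NumberField IsDedekindDomain

namespace SSW

open SSR
open H55N (XS)

/-- Characters of order dividing p on ideals, with modulus f (prime to p) and modulus v^(n v) at the primes v in R (above p). -/
structure PCN {K : Type} [Field K] [NumberField K] {C : Type} [Field C] (p : ℕ) (f : Ideal (𝓞 K)) (R : Finset (HeightOneSpectrum (𝓞 K)))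
    (n : HeightOneSpectrum (𝓞 K) → ℕ) (χ : Ideal (𝓞 K) →*₀ C) : Prop where
  ne : f ≠ ⊥
  cop : IsCoprime f (Ideal.span {(p : 𝓞 K)})
  abv : ∀ v ∈ R, (p : 𝓞 K) ∈ v.asIdeal
  val : ∀ a : Ideal (𝓞 K), a ≠ ⊥ → IsCoprime a (f * ∏ v ∈ R, v.asIdeal) → χ a ^ p = 1
  zero : ∀ a : Ideal (𝓞 K), ¬ IsCoprime a (f * ∏ v ∈ R, v.asIdeal) → χ a = 0
  per : ∀ x y : 𝓞 K, x ≠ 0 → y ≠ 0 → IsCoprime (Ideal.span {x}) (f * ∏ v ∈ R, v.asIdeal) → x - y ∈ f * ∏ v ∈ R, v.asIdeal ^ n v →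
    χ (Ideal.span {x}) = χ (Ideal.span {y})
  two : ∀ v ∈ R, 2 ≤ n v
  mem : (p : 𝓞 K) ∈ ∏ v ∈ R, v.asIdeal ^ ((n v + 1) / 2)

section ideals

variable {K : Type} [Field K] [NumberField K] (R : Finset (HeightOneSpectrum (𝓞 K))) (n : HeightOneSpectrum (𝓞 K) → ℕ)

/-- The product of the powers. -/
def pI : Ideal (𝓞 K) := ∏ v ∈ R, v.asIdeal ^ n v

theorem q7_mul : pI R (fun v => n v / 2) * pI R (fun v => (n v + 1) / 2) = pI R n := by
  unfold pI
  rw [← Finset.prod_mul_distrib]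
  refine Finset.prod_congr rfl fun v _ => ?_
  rw [← pow_add]
  congr 1
  show n v / 2 + (n v + 1) / 2 = n v
  omega

theorem q7_le {k l : HeightOneSpectrum (𝓞 K) → ℕ} (h : ∀ v ∈ R, k v ≤ l v) : pI R l ≤ pI R k := by
  unfold pI
  exact Ideal.le_of_dvd (Finset.prod_dvd_prod_of_dvd _ _ fun v hv => pow_dvd_pow _ (h v hv))

theorem q7_cube (h : ∀ v ∈ R, 2 ≤ n v) : pI R (fun v => n v / 2) ^ 3 ≤ pI R n := by
  have e : pI R (fun v => n v / 2) ^ 3 = pI R (fun v => n v / 2 * 3) := by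
    unfold pI
    rw [← Finset.prod_pow]
    refine Finset.prod_congr rfl fun v _ => ?_
    rw [← pow_mul]
  rw [e]
  refine q7_le R fun v hv => ?_
  have := h v hv
  omega

theorem q7_rad {k : HeightOneSpectrum (𝓞 K) → ℕ} (h : ∀ v ∈ R, 1 ≤ k v) (v : HeightOneSpectrum (𝓞 K)) (hv : v ∈ R) : pI R k ≤ v.asIdeal := by
  unfold pI
  refine Ideal.le_of_dvd ((dvd_pow_self _ ?_).trans (Finset.dvd_prod_of_mem (fun v : HeightOneSpectrum (𝓞 K) => v.asIdeal ^ k v) hv))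
  have := h v hv
  omega

theorem q7_ne (k : HeightOneSpectrum (𝓞 K) → ℕ) : pI R k ≠ ⊥ :=
  Finset.prod_ne_zero_iff.2 fun v _ => pow_ne_zero _ v.ne_bot

theorem q7_lt {k l : HeightOneSpectrum (𝓞 K) → ℕ} (h : ∀ v ∈ R, k v ≤ l v) (h' : ∃ v ∈ R, k v < l v) :
    Ideal.absNorm (pI R k) < Ideal.absNorm (pI R l) := by
  have h2 : ∀ v : HeightOneSpectrum (𝓞 K), 2 ≤ Ideal.absNorm v.asIdeal := by
    intro v
    have h3 : Ideal.absNorm v.asIdeal ≠ 0 := fun h => v.ne_bot (Ideal.absNorm_eq_zero_iff.1 h)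
    have h4 : Ideal.absNorm v.asIdeal ≠ 1 := fun h => v.isPrime.ne_top (Ideal.absNorm_eq_one_iff.1 h)
    omega
  unfold pI
  rw [map_prod, map_prod]
  refine Finset.prod_lt_prod (fun v _ => ?_) (fun v hv => ?_) ?_
  · rw [map_pow]
    have := h2 v
    positivity
  · rw [map_pow, map_pow]
    exact Nat.pow_le_pow_right (by have := h2 v; omega) (h v hv)
  · obtain ⟨v, hv, hlt⟩ := h'
    refine ⟨v, hv, ?_⟩
    rw [map_pow, map_pow]
    exact Nat.pow_lt_pow_right (h2 v) hlt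

end ideals

attribute [irreducible] pI

variable {K : Type} [Field K] [NumberField K] {p : ℕ} {C : Type} [Field C]
  {f : Ideal (𝓞 K)} {R : Finset (HeightOneSpectrum (𝓞 K))} {n : HeightOneSpectrum (𝓞 K) → ℕ} {χ : Ideal (𝓞 K) →*₀ C}
  {I₀ : Ideal (𝓞 K)} {c₀ : 𝓞 K}

theorem q7_cop {y : 𝓞 K} : IsCoprime (Ideal.span {y}) (f * ∏ v ∈ R, v.asIdeal) ↔
    IsCoprime (Ideal.span {y}) f ∧ ∀ v ∈ R, y ∉ v.asIdeal := by
  constructor
  · intro h
    refine ⟨h.of_mul_right_left, fun v hv => ?_⟩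
    have h1 := h.of_mul_right_right
    rw [IsCoprime.prod_right_iff] at h1
    exact (h3_a_v v y).1 (h1 v hv)
  · rintro ⟨h0, h⟩
    exact h0.mul_right (IsCoprime.prod_right fun v hv => (h3_a_v v y).2 (h v hv))

/-- Coprimality to f depends only on the class modulo f. -/
theorem q7_copf {x y : 𝓞 K} (h : x - y ∈ f) : IsCoprime (Ideal.span {x}) f ↔ IsCoprime (Ideal.span {y}) f := by
  have key : ∀ a b : 𝓞 K, a - b ∈ f → IsCoprime (Ideal.span {a}) f → IsCoprime (Ideal.span {b}) f := by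
    intro a b hab ha
    rw [Ideal.isCoprime_iff_sup_eq] at ha ⊢
    rw [← top_le_iff, ← ha]
    refine sup_le ?_ le_sup_right
    rw [Ideal.span_singleton_le_iff_mem]
    have h1 : a = b + (a - b) := by ring
    rw [h1]
    exact Ideal.add_mem _ (Ideal.mem_sup_left (Ideal.mem_span_singleton_self b)) (Ideal.mem_sup_right hab)
  refine ⟨key x y h, key y x ?_⟩
  have e : y - x = -(x - y) := by ring
  rw [e]
  exact (Ideal.neg_mem_iff _).2 h

theorem q7_memv {v : HeightOneSpectrum (𝓞 K)} {x y : 𝓞 K} (h : x - y ∈ v.asIdeal) : x ∈ v.asIdeal ↔ y ∈ v.asIdeal := by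
  constructor
  · intro h1
    have h2 := Ideal.sub_mem _ h1 h
    rwa [sub_sub_cancel] at h2
  · intro h1
    have h2 := Ideal.add_mem _ h h1
    rwa [sub_add_cancel] at h2

/-- The value at a principal ideal depends only on the class modulo f prod v^(n v). -/
theorem q7_per (hχ : PCN p f R n χ) (hR : R.Nonempty) {x y : 𝓞 K} (h : x - y ∈ f * pI R n) : χ (Ideal.span {x}) = χ (Ideal.span {y}) := by
  have hf : x - y ∈ f := Ideal.mul_le_left h
  have hn1 : ∀ v ∈ R, 1 ≤ n v := fun v hv => by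
    have := hχ.two v hv
    omega
  have hxn : x - y ∈ pI R n := Ideal.mul_le_right h
  have hv : ∀ v ∈ R, x - y ∈ v.asIdeal := fun v hv => q7_rad R hn1 v hv hxn
  have hc : IsCoprime (Ideal.span {x}) (f * ∏ v ∈ R, v.asIdeal) ↔ IsCoprime (Ideal.span {y}) (f * ∏ v ∈ R, v.asIdeal) := by
    rw [q7_cop, q7_cop, q7_copf hf]
    refine and_congr_right fun _ => forall_congr' fun v => forall_congr' fun hvR => not_congr (q7_memv (hv v hvR))
  have h0 : ∀ z : 𝓞 K, IsCoprime (Ideal.span {z}) (f * ∏ v ∈ R, v.asIdeal) → z ≠ 0 := by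
    rintro z hz rfl
    obtain ⟨v, hvR⟩ := hR
    exact (q7_cop.1 hz).2 v hvR v.asIdeal.zero_mem
  by_cases hx : IsCoprime (Ideal.span {x}) (f * ∏ v ∈ R, v.asIdeal)
  · unfold pI at h
    exact hχ.per x y (h0 x hx) (h0 y (hc.1 hx)) hx h
  · rw [hχ.zero _ hx, hχ.zero _ fun h1 => hx (hc.2 h1)]

theorem q7_pm (hχ : PCN p f R n χ) : (p : 𝓞 K) ∈ pI R (fun v => (n v + 1) / 2) := by
  unfold pI
  exact hχ.mem

theorem q7_p2 (hχ : PCN p f R n χ) : (p : 𝓞 K) ^ 2 ∈ pI R n := by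
  have hm := q7_pm hχ
  have h1 : (p : 𝓞 K) * p ∈ pI R (fun v => n v / 2) * pI R (fun v => (n v + 1) / 2) :=
    Ideal.mul_mem_mul (q7_le R (k := fun v => n v / 2) (l := fun v => (n v + 1) / 2) (fun v _ => by beta_reduce; omega) hm) hm
  rw [q7_mul] at h1
  rwa [sq]

theorem q7_copc (hχ : PCN p f R n χ) : IsCoprime f (pI R n) := by
  have h1 := hχ.cop.pow_right (n := 2)
  rw [Ideal.span_singleton_pow, Ideal.isCoprime_iff_sup_eq] at h1
  rw [Ideal.isCoprime_iff_sup_eq, ← top_le_iff, ← h1]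
  exact sup_le_sup_left ((Ideal.span_singleton_le_iff_mem _).2 (q7_p2 hχ)) _

theorem q7_inf (hχ : PCN p f R n χ) {x : 𝓞 K} (h1 : x ∈ f) (h2 : x ∈ pI R n) : x ∈ f * pI R n := by
  rw [Ideal.mul_eq_inf_of_isCoprime (q7_copc hχ)]
  exact ⟨h1, h2⟩

/-- The local character. -/
theorem q7_theta (hp : p.Prime) (hχ : PCN p f R n χ) (hR : R.Nonempty) : ∃ ε : 𝓞 K, ε ∈ f ∧ ε - 1 ∈ pI R n ∧
    LCh p R (pI R n) (pI R (fun v => n v / 2)) (pI R (fun v => (n v + 1) / 2)) (fun u => χ (Ideal.span {1 + ε * (u - 1)})) := by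
  obtain ⟨ε, hε, j, hj, hεj⟩ := Ideal.isCoprime_iff_exists.1 (q7_copc hχ)
  have hε1 : ε - 1 ∈ pI R n := by
    have e : ε - 1 = -j := by rw [← hεj]; ring
    rw [e]
    exact (Ideal.neg_mem_iff _).2 hj
  have hn1 : ∀ v ∈ R, 1 ≤ n v := fun v hv => by
    have := hχ.two v hv
    omega
  have hone : ∀ u : 𝓞 K, (1 + ε * (u - 1)) - u ∈ pI R n := by
    intro u
    have e : (1 + ε * (u - 1)) - u = (ε - 1) * (u - 1) := by ring
    rw [e]
    exact Ideal.mul_mem_right _ _ hε1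
  have hcf : ∀ u : 𝓞 K, IsCoprime (Ideal.span {1 + ε * (u - 1)}) f := by
    intro u
    refine (q7_copf (y := 1) ?_).2 ?_
    · rw [add_sub_cancel_left]
      exact Ideal.mul_mem_right _ _ hε
    · rw [Ideal.span_singleton_one, ← Ideal.one_eq_top]
      exact isCoprime_one_left
  have hcop : ∀ u : 𝓞 K, IsCoprime (Ideal.span {1 + ε * (u - 1)}) (f * ∏ v ∈ R, v.asIdeal) ↔ ∀ v ∈ R, u ∉ v.asIdeal := by
    intro u
    rw [q7_cop, and_iff_right (hcf u)]
    refine forall_congr' fun v => forall_congr' fun hvR => not_congr (q7_memv ?_)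
    exact q7_rad R hn1 v hvR (hone u)
  have hnz : ∀ z : 𝓞 K, IsCoprime (Ideal.span {z}) (f * ∏ v ∈ R, v.asIdeal) → Ideal.span {z} ≠ ⊥ := by
    intro z hz h0
    rw [Ideal.span_singleton_eq_bot] at h0
    obtain ⟨v, hvR⟩ := hR
    exact (q7_cop.1 hz).2 v hvR (by rw [h0]; exact v.asIdeal.zero_mem)
  have hval : ∀ u : 𝓞 K, χ (Ideal.span {1 + ε * (u - 1)}) = 0 ∨ χ (Ideal.span {1 + ε * (u - 1)}) ^ p = 1 := by
    intro u
    by_cases h : IsCoprime (Ideal.span {1 + ε * (u - 1)}) (f * ∏ v ∈ R, v.asIdeal)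
    · exact Or.inr (hχ.val _ (hnz _ h) h)
    · exact Or.inl (hχ.zero _ h)
  have hne : ∀ u : 𝓞 K, χ (Ideal.span {1 + ε * (u - 1)}) ≠ 0 ↔ ∀ v ∈ R, u ∉ v.asIdeal := by
    intro u
    rw [← hcop u]
    constructor
    · intro h
      by_contra hc
      exact h (hχ.zero _ hc)
    · intro h h0
      have h1 := hχ.val _ (hnz _ h) h
      rw [h0, zero_pow hp.ne_zero] at h1
      exact zero_ne_one h1
  refine ⟨ε, hε, hε1, ?_⟩
  refine ⟨fun a b => ?_, fun a b h => ?_, ?_, hval, hne, fun a ha => ?_, (q7_mul R n).le, q7_cube R n hχ.two,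
    q7_le R (k := fun v => n v / 2) (l := fun v => (n v + 1) / 2) (fun v _ => by beta_reduce; omega),
    q7_pm hχ, q7_rad R (k := fun v => n v / 2) (fun v hv => by have := hχ.two v hv; beta_reduce; omega)⟩
  · rw [← map_mul, Ideal.span_singleton_mul_span_singleton]
    refine q7_per hχ hR ?_
    have e : (1 + ε * (a * b - 1)) - (1 + ε * (a - 1)) * (1 + ε * (b - 1)) = (ε * (ε - 1)) * (-((a - 1) * (b - 1))) := by ring
    rw [e]
    exact Ideal.mul_mem_right _ _ (Ideal.mul_mem_mul hε hε1)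
  · refine q7_per hχ hR ?_
    have e : (1 + ε * (a - 1)) - (1 + ε * (b - 1)) = ε * (a - b) := by ring
    rw [e]
    exact Ideal.mul_mem_mul hε h
  · beta_reduce
    rw [sub_self, mul_zero, add_zero, Ideal.span_singleton_one, ← Ideal.one_eq_top, map_one]
  · have h1 := (hne a).1 ha
    have h2 : IsCoprime (Ideal.span {a}) (pI R n) := by
      unfold pI
      exact IsCoprime.prod_right fun v hv => ((h3_a_v v a).2 (h1 v hv)).pow_right
    obtain ⟨i, hi, j, hj, hij⟩ := Ideal.isCoprime_iff_exists.1 h2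
    obtain ⟨b, rfl⟩ := Ideal.mem_span_singleton.1 hi
    refine ⟨b, ?_⟩
    have e : a * b - 1 = -j := by rw [← hij]; ring
    rw [e]
    exact (Ideal.neg_mem_iff _).2 hj

/-- The values on a class. -/
theorem q7_cls (hχ : PCN p f R n χ) (hR : R.Nonempty) {ε : 𝓞 K} (hε : ε ∈ f) (hε1 : ε - 1 ∈ pI R n)
    (hI : IsCoprime I₀ (Ideal.span {(p : 𝓞 K)})) (hf : I₀ ≤ f) (c₀ : 𝓞 K) : ∃ lam : C, (lam = 0 ∨ lam ^ p = 1) ∧
      ∀ x ∈ XS I₀ c₀, χ (Ideal.span {x}) = lam * χ (Ideal.span {1 + ε * (x - 1)}) := by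
  obtain ⟨x0, hx0, hx1⟩ := h3_lift (p := p) hI c₀ 1
  have hx1' : x0 - 1 ∈ pI R n := by
    obtain ⟨t, ht⟩ := hx1
    rw [ht]
    exact Ideal.mul_mem_right _ _ (q7_p2 hχ)
  refine ⟨χ (Ideal.span {x0}), ?_, fun x hx => ?_⟩
  · by_cases h : IsCoprime (Ideal.span {x0}) (f * ∏ v ∈ R, v.asIdeal)
    · refine Or.inr (hχ.val _ ?_ h)
      intro h0
      rw [Ideal.span_singleton_eq_bot] at h0
      obtain ⟨v, hvR⟩ := hR
      exact (q7_cop.1 h).2 v hvR (by rw [h0]; exact v.asIdeal.zero_mem)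
    · exact Or.inl (hχ.zero _ h)
  · rw [← map_mul, Ideal.span_singleton_mul_span_singleton]
    refine q7_per hχ hR (q7_inf hχ ?_ ?_)
    · have h1 : x - x0 ∈ f := by
        apply hf
        have h2 : x - x0 = (x - c₀) - (x0 - c₀) := by ring
        rw [h2]
        exact I₀.sub_mem hx hx0
      have e : x - x0 * (1 + ε * (x - 1)) = (x - x0) - ε * (x0 * (x - 1)) := by ring
      rw [e]
      exact Ideal.sub_mem _ h1 (Ideal.mul_mem_right _ _ hε)
    · have e : x - x0 * (1 + ε * (x - 1)) = -((x0 - 1) * x) - (ε - 1) * (x0 * (x - 1)) := by ring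
      rw [e]
      exact Ideal.sub_mem _ ((Ideal.neg_mem_iff _).2 (Ideal.mul_mem_right _ _ hx1')) (Ideal.mul_mem_right _ _ hε1)

end SSW
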