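import Mathlib
import Pool.Agent.Lib.SSR.C3
import Pool.Agent.Lib.SSW.Q7

/-! # SSW, W10: the characters of a cyclic step, conductor exponents t + 1 -/

open NumberField IsDedekindDomain

namespace SSW

open SSR
open H55P (chp)

variable {N : Type} [Field N] [NumberField N] {L : Type} [Field L] [NumberField L] [Algebra N L]

theorem w10_cop (f : Ideal (𝓞 N)) (R : Finset (HeightOneSpectrum (𝓞 N))) (n : HeightOneSpectrum (𝓞 N) → ℕ) (hn : ∀ v ∈ R, 0 < n v)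
    (a : Ideal (𝓞 N)) : IsCoprime a (f * ∏ v ∈ R, v.asIdeal ^ n v) ↔ IsCoprime a (f * ∏ v ∈ R, v.asIdeal) := by
  rw [IsCoprime.mul_right_iff, IsCoprime.mul_right_iff, IsCoprime.prod_right_iff, IsCoprime.prod_right_iff]
  refine and_congr_right fun _ => forall₂_congr fun v hv => ?_
  exact IsCoprime.pow_right_iff (hn v hv)

theorem w10_pcn {p : ℕ} {f : Ideal (𝓞 N)} {R : Finset (HeightOneSpectrum (𝓞 N))} {t : HeightOneSpectrum (𝓞 N) → ℕ}
    {ρ : Ideal (𝓞 N) →*₀ ℂ}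
    (hρ : IsRc N L p (f * ∏ v ∈ R, v.asIdeal ^ (t v + 1)) ρ) (hf : IsCoprime f (Ideal.span {(p : 𝓞 N)}))
    (hR : ∀ v ∈ R, (p : 𝓞 N) ∈ v.asIdeal) (h1 : ∀ v ∈ R, 1 ≤ t v)
    (hm : (p : 𝓞 N) ∈ ∏ v ∈ R, v.asIdeal ^ ((t v + 1 + 1) / 2)) : PCN p f R (fun v => t v + 1) ρ := by
  have hc := w10_cop f R (fun v => t v + 1) (fun v _ => Nat.succ_pos _)
  refine ⟨?_, hf, hR, ?_, ?_, ?_, fun v hv => ?_, hm⟩
  · intro h
    apply hρ.ne
    rw [h]
    exact Ideal.bot_mul _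
  · intro a ha hco
    exact hρ.val a ha ((hc a).2 hco)
  · intro a hco
    exact hρ.zero a (fun h => hco ((hc a).1 h))
  · intro x y hx hy hco hxy
    exact hρ.per x y hx hy ((hc _).2 hco) hxy
  · have := h1 v hv
    show 2 ≤ t v + 1
    omega

theorem w10_chp {p : ℕ} {f : Ideal (𝓞 N)} {R : Finset (HeightOneSpectrum (𝓞 N))} {n : HeightOneSpectrum (𝓞 N) → ℕ}
    {χ : Ideal (𝓞 N) →*₀ ℂ} (h : PCN p f R n χ) (j : ℕ) : PCN p f R n (chp χ j) := by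
  refine ⟨h.ne, h.cop, h.abv, ?_, ?_, ?_, h.two, h.mem⟩
  · intro a ha hc
    rw [H55P.chp_apply, ← pow_mul, mul_comm, pow_mul, h.val a ha hc, one_pow]
  · intro a hc
    rw [H55P.chp_apply, h.zero a hc, zero_pow (Nat.succ_ne_zero j)]
  · intro x y hx hy hc hxy
    rw [H55P.chp_apply, H55P.chp_apply, h.per x y hx hy hc hxy]

end SSW
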