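import Mathlib
import Pool.Agent.Lib.SSR.TE
import Pool.Agent.Lib.SSR.T1
import Pool.Agent.Lib.H35M.TS8
import Pool.Agent.Lib.SSW.Q7

/-! # SSW, W1: the twisted L-series (copy of SSR/T1 with exponents n) -/

open NumberField IsDedekindDomain

namespace SSW

open H55N H55P SSR

variable {F : Type} [Field F] [NumberField F] [IQ F] {K : Type} [Field K] [NumberField K] [Algebra F K] {m p : ℕ}
  {f : Ideal (𝓞 K)} {R : Finset (HeightOneSpectrum (𝓞 K))} {n : HeightOneSpectrum (𝓞 K) → ℕ} {χ : Ideal (𝓞 K) →*₀ ℂ}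

theorem w1_iff (f : Ideal (𝓞 K)) {R : Finset (HeightOneSpectrum (𝓞 K))} {n : HeightOneSpectrum (𝓞 K) → ℕ} (hn : ∀ v ∈ R, 2 ≤ n v)
    (a : Ideal (𝓞 K)) : IsCoprime a (f * ∏ v ∈ R, v.asIdeal ^ n v) ↔ IsCoprime a (f * ∏ v ∈ R, v.asIdeal) := by
  rw [IsCoprime.mul_right_iff, IsCoprime.mul_right_iff, IsCoprime.prod_right_iff, IsCoprime.prod_right_iff]
  refine and_congr_right fun _ => forall_congr' fun v => forall_congr' fun hv => ?_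
  exact IsCoprime.pow_right_iff (by have := hn v hv; omega)

theorem w1_pch (hχ : PCN p f R n χ) : H35M.PCh p (f * ∏ v ∈ R, v.asIdeal ^ n v) χ := by
  refine ⟨?_, ?_, ?_, ?_⟩
  · refine mul_ne_zero hχ.ne (Finset.prod_ne_zero_iff.2 fun v _ => pow_ne_zero _ v.ne_bot)
  · intro a h0 hc
    exact hχ.val a h0 ((w1_iff f hχ.two a).1 hc)
  · intro a hc
    exact hχ.zero a fun h => hc ((w1_iff f hχ.two a).2 h)
  · intro x y hx hy hc hxy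
    exact hχ.per x y hx hy ((w1_iff f hχ.two _).1 hc) hxy

theorem w1_norm (hp : p.Prime) (hχ : PCN p f R n χ) (a : Ideal (𝓞 K)) : ‖χ a‖ ≤ 1 :=
  H35M.ts8_norm hp.ne_zero (w1_pch hχ) a

theorem w1_cont (hp : p.Prime) {M : Ideal (𝓞 F)} {ψ : Ideal (𝓞 F) →*₀ 𝓞 F} (h : IsHecke M ψ) (hMp : IsCoprime M (Ideal.span {(p : 𝓞 F)}))
    (hm : Module.finrank F K = m + 1) (hχ : PCN p f R n χ) :
    ∃ Z0 : ℂ → ℂ, AnalyticOnNhd ℂ Z0 {s | 3 / 2 - 1 / (2 * (m + 1 : ℝ)) < s.re} ∧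
      ∀ s : ℂ, 3 / 2 < s.re → HasSum (tm (PsiP K ψ * χ : Ideal (𝓞 K) →*₀ ℂ) s) (Z0 s) :=
  H35M.tw_cont hp h hMp hm _ χ (w1_pch hχ)

end SSW
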