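import Mathlib
import Pool.Agent.Lib.SSR.T2
import Pool.Agent.Lib.SSW.W1

/-! # SSW, W2: the classes (copy of SSR/T2) -/

open NumberField IsDedekindDomain

namespace SSW

open H55N H55P SSR

variable {F : Type} [Field F] [NumberField F] [IQ F] {K : Type} [Field K] [NumberField K] [Algebra F K] {p : ℕ}
  {f : Ideal (𝓞 K)} {R : Finset (HeightOneSpectrum (𝓞 K))} {n : HeightOneSpectrum (𝓞 K) → ℕ} {χ : Ideal (𝓞 K) →*₀ ℂ}

theorem w2_cl (hp : p.Prime) {M : Ideal (𝓞 F)} {ψ : Ideal (𝓞 F) →*₀ 𝓞 F} (h : IsHecke M ψ) (hMp : IsCoprime M (Ideal.span {(p : 𝓞 F)}))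
    (hχ : PCN p f R n χ) {l : 𝓞 F} (hl : Mod p M l) :
    ∃ (ι : Type) (_ : Fintype ι) (b : ι → Ideal (𝓞 K)) (c₀ : ι → 𝓞 K) (T : ι → Set (𝓞 K)) (κ : ι → ℂ),
      TCl F M ψ p f χ ι b c₀ T κ ∧ ∀ i, c₀ i ∉ Ideal.span {algebraMap (𝓞 F) (𝓞 K) l} * b i := by
  classical
  obtain ⟨w0, hw0l, hw0M⟩ := pt9_prime K hl
  have hJM : mK K M * f ≤ mK K M := Ideal.mul_le_left
  have hJ0 : mK K M * f ≠ ⊥ := mul_ne_zero (pt9_mK_ne h.ne) hχ.ne
  have hJ1 : mK K M * f ≠ ⊤ := by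
    intro h1
    apply w0.isPrime.ne_top
    rw [← top_le_iff, ← h1]
    exact hJM.trans hw0M
  have hpK : Ideal.span {(p : 𝓞 K)} ≠ ⊥ := by
    rw [Ne, Ideal.span_singleton_eq_bot, Nat.cast_eq_zero]
    exact hp.ne_zero
  have hg0 : Ideal.span {(p : 𝓞 K)} * (mK K M * f) ≠ ⊥ := mul_ne_zero hpK hJ0
  have hgJ : Ideal.span {(p : 𝓞 K)} * (mK K M * f) ≤ mK K M * f := Ideal.mul_le_right
  obtain ⟨ι, hι, b, c₀, T, hcd⟩ := exists_CDJ (mK K M * f) (Ideal.span {(p : 𝓞 K)} * (mK K M * f))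
    hJ0 hg0 hgJ hJ1
  have hlam : ∀ i, c₀ i ∉ Ideal.span {algebraMap (𝓞 F) (𝓞 K) l} * b i := by
    intro i hi
    refine hcd.prim i w0 (hJM.trans hw0M) (Ideal.mul_mono_left ?_ hi)
    rw [Ideal.span_singleton_le_iff_mem]
    exact hw0l
  have hbp : ∀ i, IsCoprime (b i) (Ideal.span {(p : 𝓞 K)}) := fun i => (hcd.cop i).of_mul_right_left
  have hbJ : ∀ i, IsCoprime (b i) (mK K M * f) := fun i => (hcd.cop i).of_mul_right_right
  have hbf : ∀ i, IsCoprime (b i) f := fun i => (hbJ i).of_mul_right_right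
  have hbR : ∀ i, IsCoprime (b i) (f * ∏ v ∈ R, v.asIdeal) := by
    intro i
    refine (hbf i).mul_right (IsCoprime.prod_right fun v hv => ?_)
    rw [Ideal.isCoprime_iff_sup_eq, ← top_le_iff, ← Ideal.isCoprime_iff_sup_eq.1 (hbp i)]
    exact sup_le_sup_left ((Ideal.span_singleton_le_iff_mem _).2 (hχ.abv v hv)) _
  have hχb : ∀ i, χ (b i) ^ p = 1 := fun i => hχ.val (b i) (hcd.ne i) (hbR i)
  have hχb0 : ∀ i, χ (b i) ≠ 0 := by
    intro i h0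
    have h1 := hχb i
    rw [h0, zero_pow hp.ne_zero] at h1
    exact zero_ne_one h1
  have hprm := fun i => t2_prm (mK K M * f) (b i) hJ0 (hbJ i) (c₀ i) (hcd.mem i) (hcd.prim i)
  have hkap := fun i => t2_kap hp h hMp hχ.ne hχ.cop (b i) (hcd.ne i) (hcd.cop i) (c₀ i) (hcd.mem i) (hcd.prim i)
  choose κ hκu hκa hκ using hkap
  refine ⟨ι, hι, b, c₀, T, κ, ⟨hJ0, hJ1, hcd, fun i x hx d hd => ?_, hκu, hκa, hχb,
    fun i x hx => (hprm i x hx).of_mul_right_right, fun i h0 => ?_, fun i => ?_⟩, hlam⟩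
  · obtain ⟨hx0, h6⟩ := hκ i x hx d hd
    refine ⟨hx0, h6, ?_⟩
    rw [← hd, map_mul, mul_comm (χ d), inv_mul_cancel_left₀ (hχb0 i)]
  · exact (hκ i 0 h0 ⊥ (by
      rw [Ideal.span_singleton_eq_bot.2 rfl]
      exact zero_mul (b i))).1 rfl
  · exact IsCoprime.mul_left (IsCoprime.mul_left (pe9_cop hMp) hχ.cop) (hbp i)

end SSW
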