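import Mathlib
import Pool.Agent.Lib.SSR.T3
import Pool.Agent.Lib.SSW.W1

/-! # SSW, W3: the weight (copy of SSR/T3) -/

open NumberField IsDedekindDomain

namespace SSW

open H55N H55P SSR
open SSG.V (WtJ)

variable {F : Type} [Field F] [NumberField F] [IQ F] {K : Type} [Field K] [NumberField K] [Algebra F K] {p : ℕ}
  {f : Ideal (𝓞 K)} {R : Finset (HeightOneSpectrum (𝓞 K))} {n : HeightOneSpectrum (𝓞 K) → ℕ} {χ : Ideal (𝓞 K) →*₀ ℂ}

theorem w3_chi (hχ : PCN p f R n χ) (hR : R.Nonempty) {J I₀ : Ideal (𝓞 K)} {c₀ : 𝓞 K} (hI : I₀ ≤ f) :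
    WtJ J I₀ c₀ (p ^ 2) (fun x => χ (Ideal.span {x})) := by
  constructor
  · intro x _ y hxy
    show χ _ = χ _
    refine q7_per hχ hR ?_
    rw [mul_comm f]
    refine Ideal.mul_mono ?_ hI hxy
    rw [Ideal.span_singleton_le_iff_mem, Nat.cast_pow]
    exact q7_p2 hχ
  · intro x _ v _
    show χ _ = χ _
    rw [Ideal.span_singleton_mul_left_unit v.isUnit]

end SSW
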