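import Mathlib
import Pool.Agent.Lib.SSR.T4
import Pool.Agent.Lib.SSW.W2
import Pool.Agent.Lib.SSW.W3

/-! # SSW, W4: the data (copy of SSR/T4) -/

open NumberField IsDedekindDomain

namespace SSW

open H55N H55P SSG SSG.E SSR
open SSG.V (WtJ)

variable {F : Type} [Field F] [NumberField F] [IQ F] {K : Type} [Field K] [NumberField K] [Algebra F K] {m p : ℕ} [Fact p.Prime]
  {M : Ideal (𝓞 F)} {ψ : Ideal (𝓞 F) →*₀ 𝓞 F} {f : Ideal (𝓞 K)} {R : Finset (HeightOneSpectrum (𝓞 K))}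
  {n : HeightOneSpectrum (𝓞 K) → ℕ} {χ : Ideal (𝓞 K) →*₀ ℂ} {V : ValuationSubring ℂ}

theorem w4_dat {Om : ℂ} (hS : SCtx p M ψ Om) (hV : V.valuation (p : ℂ) < 1) (hNT : NTP K p M ψ V) (hm : Module.finrank F K = m + 1) (hχ : PCN p f R n χ) :
    ∃ (ι : Type) (_ : Fintype ι) (b : ι → Ideal (𝓞 K)) (c₀ : ι → 𝓞 K) (T : ι → Set (𝓞 K)) (κ : ι → ℂ)
      (c : Fin (m + 1) × Fin 2 → Ideal (𝓞 K)) (q : Fin (m + 1) × Fin 2 → ℕ) (val : ι → 𝓞 K → ℂ),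
      TDat F M ψ p f χ V ι b c₀ T κ c q val := by
  classical
  have hpp : p.Prime := Fact.out
  have hMp := hS.cop
  obtain ⟨l, hl⟩ := hS.hecke.toMod p hMp
  obtain ⟨ι, hι, b, c₀, T, κ, hcl, hlam⟩ := w2_cl (K := K) hpp hS.hecke hMp hχ hl
  have hpK : Ideal.span {(p : 𝓞 K)} ≠ ⊥ := by
    rw [Ne, Ideal.span_singleton_eq_bot, Nat.cast_eq_zero]
    exact hpp.ne_zero
  have hbp : ∀ i, IsCoprime (b i) (Ideal.span {(p : 𝓞 K)}) := fun i => (hcl.cd.cop i).of_mul_right_left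
  have hcls := fun i => SSG.V.classw2 p hl K m hm (b i) f (hcl.cd.ne i) (hbp i) hχ.ne hχ.cop (c₀ i)
    (hcl.cd.mem i) (hlam i) 2 (by norm_num)
  choose Bad hBad hcls using hcls
  have hfinp : {w : Ideal (𝓞 K) | (p : 𝓞 K) ∈ w}.Finite := by
    refine (pt9_finite (Ideal.span {(p : 𝓞 K)}) hpK).subset ?_
    intro w hw
    exact (Ideal.span_singleton_le_iff_mem w).2 hw
  obtain ⟨c, q, hs, hcb, hun⟩ := exists_smoothP p hpp hS.hecke hMp V hV hNT m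
    ((((⋃ i, Bad i) ∪ ⋃ i, {w : Ideal (𝓞 K) | b i ≤ w}) ∪ {w : Ideal (𝓞 K) | (p : 𝓞 K) ∈ w}) ∪ {w : Ideal (𝓞 K) | f ≤ w})
    ((((Set.finite_iUnion hBad).union (Set.finite_iUnion fun i => pt9_finite (b i) (hcl.cd.ne i))).union hfinp).union
      (pt9_finite f hχ.ne))
  have hcp : ∀ j, (c j).IsPrime := fun j => (hcb j).1
  have hcpp : ∀ j, (p : 𝓞 K) ∉ c j := fun j hj => (hcb j).2 (Or.inl (Or.inr hj))
  have hncf : ∀ j, ¬ f ≤ c j := fun j hj => (hcb j).2 (Or.inr hj)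
  have hbc : ∀ i j, IsCoprime (b i) (c j) := by
    intro i j
    rw [Ideal.isCoprime_iff_sup_eq]
    by_contra h
    have hmax : (c j).IsMaximal := (hcp j).isMaximal (pt3_ne hs j)
    have h1 : c j ≤ b i ⊔ c j := le_sup_right
    have h2 : b i ⊔ c j = c j := (hmax.eq_of_le h h1).symm
    apply (hcb j).2
    refine Or.inl (Or.inl (Or.inr (Set.mem_iUnion.2 ⟨i, ?_⟩)))
    show b i ≤ c j
    rw [← h2]
    exact le_sup_left
  have hcls2 := fun i => hcls i c q hs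
    (fun j hj => (hcb j).2 (Or.inl (Or.inl (Or.inl (Set.mem_iUnion.2 ⟨i, hj⟩)))))
  choose val hval1 hval2 using hcls2
  exact ⟨ι, hι, b, c₀, T, κ, c, q, val, hcl, hs, hcp, hcpp, hncf, hbc, hun, hval1, hval2⟩

end SSW
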