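import Mathlib
import Pool.Agent.Lib.SSW.Q1
import Pool.Agent.Lib.SSR.H2
import Pool.Agent.Lib.SSR.H4

/-! # SSW, Q2: the coset sums: the product of two values in the coordinates -/

open NumberField IsDedekindDomain

namespace SSW

open SSR SSG

variable {F : Type} [Field F] [NumberField F] {K : Type} [Field K] [NumberField K] [Algebra F K] {m p : ℕ}

/-- The linear combination. -/
noncomputable def ev (ω : Fin (m + 1) → 𝓞 K) (a : Fin (m + 1) → 𝓞 F) : 𝓞 K := ∑ s, algebraMap (𝓞 F) (𝓞 K) (a s) * ω s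

theorem ev_add (ω : Fin (m + 1) → 𝓞 K) (a b : Fin (m + 1) → 𝓞 F) : ev ω (fun s => a s + b s) = ev ω a + ev ω b := by
  unfold ev
  rw [← Finset.sum_add_distrib]
  refine Finset.sum_congr rfl fun s _ => ?_
  rw [map_add, add_mul]

theorem ev_sub (ω : Fin (m + 1) → 𝓞 K) (a b : Fin (m + 1) → 𝓞 F) : ev ω (fun s => a s - b s) = ev ω a - ev ω b := by
  unfold ev
  rw [← Finset.sum_sub_distrib]
  refine Finset.sum_congr rfl fun s _ => ?_
  rw [map_sub, sub_mul]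

theorem ev_smul (ω : Fin (m + 1) → 𝓞 K) (μ : 𝓞 F) (a : Fin (m + 1) → 𝓞 F) :
    ev ω (fun s => μ * a s) = algebraMap (𝓞 F) (𝓞 K) μ * ev ω a := by
  unfold ev
  rw [Finset.mul_sum]
  refine Finset.sum_congr rfl fun s _ => ?_
  rw [map_mul, mul_assoc]

/-- Sums over functions on a sum type. -/
theorem q2_pi {α β X M : Type} [Fintype α] [Fintype β] [DecidableEq α] [DecidableEq β] [AddCommMonoid M] (t : α ⊕ β → Finset X)
    (f : (α ⊕ β → X) → M) : ∑ b ∈ Fintype.piFinset t, f b =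
      ∑ b1 ∈ Fintype.piFinset (fun k => t (Sum.inl k)), ∑ b2 ∈ Fintype.piFinset (fun k => t (Sum.inr k)), f (Sum.elim b1 b2) := by
  rw [← Finset.sum_product']
  refine Finset.sum_nbij' (fun b => (fun k => b (Sum.inl k), fun k => b (Sum.inr k))) (fun q => Sum.elim q.1 q.2) ?_ ?_ ?_ ?_ ?_
  · intro b hb
    rw [Fintype.mem_piFinset] at hb
    exact Finset.mem_product.2 ⟨Fintype.mem_piFinset.2 fun k => hb _, Fintype.mem_piFinset.2 fun k => hb _⟩
  · rintro ⟨b1, b2⟩ hq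
    obtain ⟨ha, hb⟩ := Finset.mem_product.1 hq
    rw [Fintype.mem_piFinset] at ha hb
    rw [Fintype.mem_piFinset]
    rintro (k | k)
    · exact ha k
    · exact hb k
  · intro b _
    funext k
    rcases k with k | k
    · rfl
    · rfl
  · rintro ⟨b1, b2⟩ _
    rfl
  · intro b _
    congr 1
    funext k
    rcases k with k | k
    · rfl
    · rfl

/-- A function which is multiplicative on an ideal. -/
theorem q2_prod {C : Type} [CommRing C] (V : Ideal (𝓞 K)) (g : 𝓞 K → C) (h0 : g 0 = 1) (hg : ∀ y ∈ V, ∀ z ∈ V, g (y + z) = g y * g z)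
    {ι : Type} (s : Finset ι) (y : ι → 𝓞 K) (hy : ∀ i ∈ s, y i ∈ V) : g (∑ i ∈ s, y i) = ∏ i ∈ s, g (y i) := by
  classical
  induction s using Finset.induction_on with
  | empty => rw [Finset.sum_empty, Finset.prod_empty, h0]
  | insert a s ha ih =>
    rw [Finset.sum_insert ha, Finset.prod_insert ha, hg _ (hy a (Finset.mem_insert_self a s)) _
      (Ideal.sum_mem _ fun i hi => hy i (Finset.mem_insert_of_mem hi)), ih fun i hi => hy i (Finset.mem_insert_of_mem hi)]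

variable {C : Type} [NormedField C] [IsUltrametricDist C] {L : LTF F C} {R : Finset (HeightOneSpectrum (𝓞 K))} {c U P : Ideal (𝓞 K)}
  {θ : 𝓞 K → C} {ωU ωP : Fin (m + 1) → 𝓞 K} {IU IP : Finset (Fin (m + 1))} {T1 T2 : Finset (𝓞 F)} {H : (Fin (m + 1) → 𝓞 F) → C}
  {co : 𝓞 K → Fin (m + 1) → 𝓞 F}

/-- Periodicity in the coordinates. -/
theorem q2_H (hG : GH p L) {V : Ideal (𝓞 K)} {ω : Fin (m + 1) → 𝓞 K} {I : Finset (Fin (m + 1))} (hA : Adp F p V ω I)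
    (hH : L.Fn 2 (Fin (m + 1)) H) (hco : ∀ x, ∃ t : 𝓞 K, x = ev ω (co x) + (p : 𝓞 K) ^ 2 * t) {u : Fin (m + 1) → 𝓞 F} {z : 𝓞 K}
    (h : (p : 𝓞 K) ^ 2 ∣ ev ω u - z) : H u = H (co z) := by
  refine h2_per hG hH _ _ (adp_ind2 hG.prime hA (fun s => u s - co z s) ?_)
  have e : ∑ s, algebraMap (𝓞 F) (𝓞 K) (u s - co z s) * ω s = ev ω u - ev ω (co z) := ev_sub ω u (co z)
  rw [e]
  obtain ⟨t, ht⟩ := hco z
  have e2 : ev ω u - ev ω (co z) = (ev ω u - z) + (p : 𝓞 K) ^ 2 * t := by linear_combination ht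
  rw [e2]
  exact dvd_add h (dvd_mul_right _ _)

/-- The linear combination of the entries of ub. -/
theorem q2_ub {ω : Fin (m + 1) → 𝓞 K} {I : Finset (Fin (m + 1))} (b : Fin (m + 1) → 𝓞 F) :
    ev ω (ub p I b) = ∑ s, algebraMap (𝓞 F) (𝓞 K) (if s ∈ I then b s else (p : 𝓞 F) * b s) * ω s := rfl

theorem q2_ent {V : Ideal (𝓞 K)} {ω : Fin (m + 1) → 𝓞 K} {I : Finset (Fin (m + 1))} (hA : Adp F p V ω I) (s : Fin (m + 1)) (b : 𝓞 F) :
    algebraMap (𝓞 F) (𝓞 K) (if s ∈ I then b else (p : 𝓞 F) * b) * ω s ∈ V := by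
  by_cases hs : s ∈ I
  · exact Ideal.mul_mem_left _ _ (hA.mem s hs)
  · rw [if_neg hs, map_mul, map_natCast, mul_assoc]
    exact Ideal.mul_mem_right _ _ hA.pmem

/-- The normalised product of the two values of θ. -/
noncomputable def eta (θ : 𝓞 K → C) (μ a w y ρ : 𝓞 K) : C := θ (a + y) * θ (a + w + (μ * y + ρ)) * (θ a * θ (a + w))⁻¹

theorem eta_zero (hθ : LCh p R c U P θ) {μ a w : 𝓞 K} (ha : θ a ≠ 0) (hw : w ∈ U) : eta θ μ a w 0 0 = 1 := by
  unfold eta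
  rw [mul_zero, add_zero, add_zero, add_zero]
  exact mul_inv_cancel₀ (mul_ne_zero ha (q1_unit hθ ha hw))

theorem eta_add (hθ : LCh p R c U P θ) {μ a w : 𝓞 K} (hμ : (p : 𝓞 K) ∣ μ ^ 2 + 1) (ha : θ a ≠ 0) (hw : w ∈ U) {y z ρ σ : 𝓞 K} (hy : y ∈ U)
    (hz : z ∈ U) (hρ : ρ ∈ P) (hσ : σ ∈ P) : eta θ μ a w (y + z) (ρ + σ) = eta θ μ a w y ρ * eta θ μ a w z σ := by
  have h1 := q1_add hθ ha hw hμ hy hz hρ hσ
  have h0 : θ a * θ (a + w) ≠ 0 := mul_ne_zero ha (q1_unit hθ ha hw)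
  unfold eta
  have e : θ (a + y) * θ (a + w + (μ * y + ρ)) * (θ a * θ (a + w))⁻¹ * (θ (a + z) * θ (a + w + (μ * z + σ)) * (θ a * θ (a + w))⁻¹) =
      ((θ (a + y) * θ (a + w + (μ * y + ρ))) * (θ (a + z) * θ (a + w + (μ * z + σ)))) * ((θ a * θ (a + w))⁻¹ * (θ a * θ (a + w))⁻¹) := by ring
  rw [e, h1]
  field_simp

theorem eta_per (hθ : LCh p R c U P θ) {μ a w : 𝓞 K} (ha : θ a ≠ 0) (hw : w ∈ U) {y ρ : 𝓞 K} (hy : y ∈ U)
    (hρ : ρ ∈ P) : eta θ μ a w (p * y) (p * ρ) = 1 := by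
  unfold eta
  have e : μ * (p * y) + p * ρ = p * (μ * y + ρ) := by ring
  rw [e, q1_per hθ a hy, q1_per hθ (a + w) (Ideal.add_mem _ (Ideal.mul_mem_left _ _ hy) (hθ.PU hρ))]
  exact mul_inv_cancel₀ (mul_ne_zero ha (q1_unit hθ ha hw))

end SSW
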