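import Mathlib
import Pool.Agent.Lib.SSW.Q2

/-! # SSW, Q3: the coset sums of the product of two values -/

open NumberField IsDedekindDomain

namespace SSW

open SSR SSG

variable {F : Type} [Field F] [NumberField F] {K : Type} [Field K] [NumberField K] [Algebra F K] {m p : ℕ}
  {C : Type} [NormedField C] [IsUltrametricDist C] {L : LTF F C} {R : Finset (HeightOneSpectrum (𝓞 K))} {c U P : Ideal (𝓞 K)}
  {θ : 𝓞 K → C} {ωU ωP : Fin (m + 1) → 𝓞 K} {IU IP : Finset (Fin (m + 1))} {T1 T2 : Finset (𝓞 F)} {H : (Fin (m + 1) → 𝓞 F) → C}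
  {co : 𝓞 K → Fin (m + 1) → 𝓞 F}

/-- The index set. -/
def BB (I : Finset (Fin (m + 1))) (T1 T2 : Finset (𝓞 F)) : Finset (Fin (m + 1) → 𝓞 F) :=
  Fintype.piFinset (fun k : Fin (m + 1) => if k ∈ I then T2 else T1)

/-- The sum without characters. -/
noncomputable def S0 (p : ℕ) (ωU ωP : Fin (m + 1) → 𝓞 K) (IU IP : Finset (Fin (m + 1))) (T1 T2 : Finset (𝓞 F)) (H : (Fin (m + 1) → 𝓞 F) → C)
    (co : 𝓞 K → Fin (m + 1) → 𝓞 F) (μ : 𝓞 K) : C :=
  ∑ b ∈ BB IU T1 T2, ∑ b' ∈ BB IP T1 T2,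
    H (co (ev ωU (ub p IU b))) * H (co (μ * ev ωU (ub p IU b) + ev ωP (ub p IP b')))

/-- The function of the two vectors. -/
noncomputable def H2 (H : (Fin (m + 1) → 𝓞 F) → C) (μ : 𝓞 F) (M : Fin (m + 1) → Fin (m + 1) → 𝓞 F)
    (a : Fin (m + 1) ⊕ Fin (m + 1) → 𝓞 F) : C :=
  H (fun s => a (Sum.inl s)) * H (fun s => μ * a (Sum.inl s) + ∑ t, M s t * a (Sum.inr t))

theorem H2_fn (hG : GH p L) (hH : L.Fn 2 (Fin (m + 1)) H) (μ : 𝓞 F) (M : Fin (m + 1) → Fin (m + 1) → 𝓞 F) :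
    L.Fn 2 (Fin (m + 1) ⊕ Fin (m + 1)) (H2 H μ M) := by
  have h1 := g0_comp hG.ok.small hG.lin hH
    (fun (s : Fin (m + 1)) (k : Fin (m + 1) ⊕ Fin (m + 1)) => Sum.elim (fun t => if s = t then (1 : 𝓞 F) else 0) (fun _ => 0) k)
  have h2 := g0_comp hG.ok.small hG.lin hH
    (fun (s : Fin (m + 1)) (k : Fin (m + 1) ⊕ Fin (m + 1)) => Sum.elim (fun t => if s = t then μ else 0) (fun t => M s t) k)
  have h3 := Fn_mul hG.ok.small h1 h2
  have e : H2 H μ M = fun a => (fun a : Fin (m + 1) ⊕ Fin (m + 1) → 𝓞 F => H (fun s => ∑ k,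
      (Sum.elim (fun t => if s = t then (1 : 𝓞 F) else 0) (fun _ => 0) k) * a k)) a *
      (fun a : Fin (m + 1) ⊕ Fin (m + 1) → 𝓞 F => H (fun s => ∑ k, (Sum.elim (fun t => if s = t then μ else 0) (fun t => M s t) k) * a k)) a := by
    funext a
    unfold H2
    congr 1
    · congr 1
      funext s
      rw [Fintype.sum_sum_type]
      simp
    · congr 1
      funext s
      rw [Fintype.sum_sum_type]
      simp
  rw [e]
  exact h3

/-- The evaluation of H2. -/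
theorem H2_ev (hG : GH p L) {V : Ideal (𝓞 K)} {ω ω' : Fin (m + 1) → 𝓞 K} {I : Finset (Fin (m + 1))} (hA : Adp F p V ω I)
    (hH : L.Fn 2 (Fin (m + 1)) H) (hco : ∀ x, ∃ t : 𝓞 K, x = ev ω (co x) + (p : 𝓞 K) ^ 2 * t) (μ : 𝓞 F)
    (a : Fin (m + 1) ⊕ Fin (m + 1) → 𝓞 F) {y z : 𝓞 K} (hy : (p : 𝓞 K) ^ 2 ∣ ev ω (fun s => a (Sum.inl s)) - y)
    (hz : (p : 𝓞 K) ^ 2 ∣ algebraMap (𝓞 F) (𝓞 K) μ * ev ω (fun s => a (Sum.inl s)) + ev ω' (fun s => a (Sum.inr s)) - z) :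
    H2 H μ (fun s t => co (ω' t) s) a = H (co y) * H (co z) := by
  unfold H2
  rw [q2_H hG hA hH hco hy]
  congr 1
  refine q2_H hG hA hH hco ?_
  have e1 : ev ω (fun s => μ * a (Sum.inl s) + ∑ t, co (ω' t) s * a (Sum.inr t)) =
      algebraMap (𝓞 F) (𝓞 K) μ * ev ω (fun s => a (Sum.inl s)) + ∑ t, algebraMap (𝓞 F) (𝓞 K) (a (Sum.inr t)) * ev ω (co (ω' t)) := by
    rw [ev_add ω (fun s => μ * a (Sum.inl s)) (fun s => ∑ t, co (ω' t) s * a (Sum.inr t)), ev_smul ω μ (fun s => a (Sum.inl s))]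
    congr 1
    unfold ev
    simp only [map_sum, Finset.sum_mul, Finset.mul_sum]
    rw [Finset.sum_comm]
    refine Finset.sum_congr rfl fun t _ => Finset.sum_congr rfl fun s _ => ?_
    rw [map_mul]
    ring
  have e2 : (p : 𝓞 K) ^ 2 ∣ (∑ t, algebraMap (𝓞 F) (𝓞 K) (a (Sum.inr t)) * ev ω (co (ω' t))) - ev ω' (fun s => a (Sum.inr s)) := by
    unfold ev
    rw [← Finset.sum_sub_distrib]
    refine Finset.dvd_sum fun t _ => ?_
    obtain ⟨r, hr⟩ := hco (ω' t)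
    have e3 : algebraMap (𝓞 F) (𝓞 K) (a (Sum.inr t)) * (∑ s, algebraMap (𝓞 F) (𝓞 K) (co (ω' t) s) * ω s) -
        algebraMap (𝓞 F) (𝓞 K) (a (Sum.inr t)) * ω' t = -((p : 𝓞 K) ^ 2 * (algebraMap (𝓞 F) (𝓞 K) (a (Sum.inr t)) * r)) := by
      have hr' : ω' t = (∑ s, algebraMap (𝓞 F) (𝓞 K) (co (ω' t) s) * ω s) + (p : 𝓞 K) ^ 2 * r := hr
      linear_combination (-algebraMap (𝓞 F) (𝓞 K) (a (Sum.inr t))) * hr'
    rw [e3]
    exact (dvd_mul_right _ _).neg_right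
  rw [e1]
  have e4 : algebraMap (𝓞 F) (𝓞 K) μ * ev ω (fun s => a (Sum.inl s)) + (∑ t, algebraMap (𝓞 F) (𝓞 K) (a (Sum.inr t)) * ev ω (co (ω' t))) - z =
      (algebraMap (𝓞 F) (𝓞 K) μ * ev ω (fun s => a (Sum.inl s)) + ev ω' (fun s => a (Sum.inr s)) - z) +
      ((∑ t, algebraMap (𝓞 F) (𝓞 K) (a (Sum.inr t)) * ev ω (co (ω' t))) - ev ω' (fun s => a (Sum.inr s))) := by ring
  rw [e4]
  exact dvd_add hz e2

/-- The entry of ub times the basis element. -/
noncomputable def en (p : ℕ) (ω : Fin (m + 1) → 𝓞 K) (I : Finset (Fin (m + 1))) (s : Fin (m + 1)) (b : 𝓞 F) : 𝓞 K :=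
  algebraMap (𝓞 F) (𝓞 K) (if s ∈ I then b else (p : 𝓞 F) * b) * ω s

theorem en_add (ω : Fin (m + 1) → 𝓞 K) (I : Finset (Fin (m + 1))) (s : Fin (m + 1)) (a b : 𝓞 F) :
    en p ω I s (a + b) = en p ω I s a + en p ω I s b := by
  unfold en
  by_cases hs : s ∈ I
  · simp only [if_pos hs]
    rw [map_add, add_mul]
  · simp only [if_neg hs]
    rw [mul_add, map_add, add_mul]

theorem en_mul (ω : Fin (m + 1) → 𝓞 K) (I : Finset (Fin (m + 1))) (s : Fin (m + 1)) (b : 𝓞 F) :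
    en p ω I s ((p : 𝓞 F) * b) = (p : 𝓞 K) * en p ω I s b := by
  unfold en
  by_cases hs : s ∈ I
  · simp only [if_pos hs]
    rw [map_mul, map_natCast, mul_assoc]
  · simp only [if_neg hs]
    rw [map_mul, map_natCast, mul_assoc]

/-- The characters of the coordinates. -/
noncomputable def ps (p : ℕ) (θ : 𝓞 K → C) (ωU ωP : Fin (m + 1) → 𝓞 K) (IU IP : Finset (Fin (m + 1))) (μ a w : 𝓞 K) :
    Fin (m + 1) ⊕ Fin (m + 1) → 𝓞 F → C :=
  Sum.elim (fun s b => eta θ μ a w (en p ωU IU s b) 0) (fun s b => eta θ μ a w 0 (en p ωP IP s b))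

theorem ps_ach (hU : Adp F p U ωU IU) (hP : Adp F p P ωP IP) (hθ : LCh p R c U P θ) {μ a w : 𝓞 K} (hμ : (p : 𝓞 K) ∣ μ ^ 2 + 1)
    (ha : θ a ≠ 0) (hw : w ∈ U) (k : Fin (m + 1) ⊕ Fin (m + 1)) : Ach p (ps (F := F) p θ ωU ωP IU IP μ a w k) := by
  rcases k with s | s
  · refine ⟨fun x y => ?_, fun x => ?_⟩
    · show eta θ μ a w (en p ωU IU s (x + y)) 0 = eta θ μ a w (en p ωU IU s x) 0 * eta θ μ a w (en p ωU IU s y) 0
      have h1 := eta_add hθ hμ ha hw (q2_ent hU s x) (q2_ent hU s y) P.zero_mem P.zero_mem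
      rw [add_zero] at h1
      rw [en_add]
      exact h1
    · show eta θ μ a w (en p ωU IU s ((p : 𝓞 F) * x)) 0 = 1
      have h1 := eta_per hθ ha hw (μ := μ) (q2_ent hU s x) P.zero_mem
      rw [mul_zero] at h1
      rw [en_mul]
      exact h1
  · refine ⟨fun x y => ?_, fun x => ?_⟩
    · show eta θ μ a w 0 (en p ωP IP s (x + y)) = eta θ μ a w 0 (en p ωP IP s x) * eta θ μ a w 0 (en p ωP IP s y)
      have h1 := eta_add hθ hμ ha hw U.zero_mem U.zero_mem (q2_ent hP s x) (q2_ent hP s y)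
      rw [add_zero] at h1
      rw [en_add]
      exact h1
    · show eta θ μ a w 0 (en p ωP IP s ((p : 𝓞 F) * x)) = 1
      have h1 := eta_per hθ ha hw (μ := μ) U.zero_mem (q2_ent hP s x)
      rw [mul_zero] at h1
      rw [en_mul]
      exact h1

theorem ps_prod (hU : Adp F p U ωU IU) (hP : Adp F p P ωP IP) (hθ : LCh p R c U P θ) {μ a w : 𝓞 K} (hμ : (p : 𝓞 K) ∣ μ ^ 2 + 1)
    (ha : θ a ≠ 0) (hw : w ∈ U) (b b' : Fin (m + 1) → 𝓞 F) :
    ∏ k, ps (F := F) p θ ωU ωP IU IP μ a w k (Sum.elim b b' k) = eta θ μ a w (ev ωU (ub p IU b)) (ev ωP (ub p IP b')) := by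
  rw [Fintype.prod_sum_type]
  have h1 := q2_prod U (fun y => eta θ μ a w y 0) (eta_zero hθ ha hw) (fun y hy z hz => by
    have h := eta_add hθ hμ ha hw hy hz P.zero_mem P.zero_mem
    rw [add_zero] at h
    exact h) Finset.univ (fun s => en p ωU IU s (b s)) (fun s _ => q2_ent hU s (b s))
  have h2 := q2_prod P (fun y => eta θ μ a w 0 y) (eta_zero hθ ha hw) (fun y hy z hz => by
    have h := eta_add hθ hμ ha hw U.zero_mem U.zero_mem hy hz
    rw [add_zero] at h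
    exact h) Finset.univ (fun s => en p ωP IP s (b' s)) (fun s _ => q2_ent hP s (b' s))
  have h3 := eta_add hθ hμ ha hw (adp_ub hU b) U.zero_mem P.zero_mem (adp_ub hP b')
  rw [add_zero, zero_add] at h3
  refine Eq.trans ?_ h3.symm
  exact congrArg₂ (fun x y => x * y) h1.symm h2.symm

/-- The sum over a coset. -/
theorem q3_main (hG : GH p L) (hU : Adp F p U ωU IU) (hP : Adp F p P ωP IP) (h1 : Rep p 1 T1) (h2 : Rep p 2 T2)
    (hθ : LCh p R c U P θ) {μ : 𝓞 F} (hμ : (p : 𝓞 F) ∣ μ ^ 2 + 1) (hH : L.Fn 2 (Fin (m + 1)) H)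
    (hco : ∀ x, ∃ t : 𝓞 K, x = ev ωU (co x) + (p : 𝓞 K) ^ 2 * t) {a w : 𝓞 K} (ha : θ a ≠ 0) (hw : w ∈ U) :
    ‖∑ b ∈ BB IU T1 T2, ∑ b' ∈ BB IP T1 T2,
        (θ (a + ev ωU (ub p IU b)) * θ (a + w + (algebraMap (𝓞 F) (𝓞 K) μ * ev ωU (ub p IU b) + ev ωP (ub p IP b')))) *
        (H (co (a + ev ωU (ub p IU b))) * H (co (a + w + (algebraMap (𝓞 F) (𝓞 K) μ * ev ωU (ub p IU b) + ev ωP (ub p IP b'))))) -
      θ a * θ (a + w) * S0 p ωU ωP IU IP T1 T2 H co (algebraMap (𝓞 F) (𝓞 K) μ)‖ < ‖(p : C)‖ ^ (IU.card + IP.card + 2 * (m + 1)) ∧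
    ‖S0 p ωU ωP IU IP T1 T2 H co (algebraMap (𝓞 F) (𝓞 K) μ)‖ ≤ ‖(p : C)‖ ^ (IU.card + IP.card + 2 * (m + 1)) := by
  classical
  have hp := hG.prime
  set μ' := algebraMap (𝓞 F) (𝓞 K) μ with hμ'
  have hμK : (p : 𝓞 K) ∣ μ' ^ 2 + 1 := by
    have h3 := map_dvd (algebraMap (𝓞 F) (𝓞 K)) hμ
    rwa [map_natCast, map_add, map_pow, map_one] at h3
  obtain ⟨xP, t, hxP⟩ := adp_two hP (a + w - μ' * a)
  have hxP' : a + w - μ' * a = ev ωP xP + (p : 𝓞 K) ^ 2 * t := hxP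
  obtain ⟨ta, hta⟩ := hco a
  have hF2 := H2_fn hG hH μ (fun s t => co (ωP t) s)
  have hg := g8_main hG hF2 h1 h2 (IU.disjSum IP) (ps (F := F) p θ ωU ωP IU IP μ' a w) (ps_ach hU hP hθ hμK ha hw) (Sum.elim (co a) xP)
  have hcard : (IU.disjSum IP).card + Fintype.card (Fin (m + 1) ⊕ Fin (m + 1)) = IU.card + IP.card + 2 * (m + 1) := by
    rw [Finset.card_disjSum, Fintype.card_sum, Fintype.card_fin]
    ring
  rw [hcard] at hg
  have hne : θ a * θ (a + w) ≠ 0 := mul_ne_zero ha (q1_unit hθ ha hw)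
  have hle : ‖θ a * θ (a + w)‖ ≤ 1 := by
    rw [norm_mul]
    exact mul_le_one₀ (q1_norm hp.ne_zero hθ _) (norm_nonneg _) (q1_norm hp.ne_zero hθ _)
  -- the two sums
  have hB : ∀ f : (Fin (m + 1) ⊕ Fin (m + 1) → 𝓞 F) → C,
      ∑ b ∈ Fintype.piFinset (fun k => if k ∈ IU.disjSum IP then T2 else T1), f b =
        ∑ b ∈ BB IU T1 T2, ∑ b' ∈ BB IP T1 T2, f (Sum.elim b b') := by
    intro f
    rw [q2_pi]
    unfold BB
    simp only [Finset.inl_mem_disjSum, Finset.inr_mem_disjSum]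
  have hS0 : ∑ b ∈ Fintype.piFinset (fun k => if k ∈ IU.disjSum IP then T2 else T1),
      H2 H μ (fun s t => co (ωP t) s) (fun k => if k ∈ IU.disjSum IP then b k else (p : 𝓞 F) * b k) =
      S0 p ωU ωP IU IP T1 T2 H co μ' := by
    rw [hB]
    unfold S0
    refine Finset.sum_congr rfl fun b _ => Finset.sum_congr rfl fun b' _ => ?_
    refine H2_ev hG hU hH hco μ _ ?_ ?_
    · have e : ev ωU (fun s => if Sum.inl s ∈ IU.disjSum IP then Sum.elim b b' (Sum.inl s) else (p : 𝓞 F) * Sum.elim b b' (Sum.inl s)) =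
          ev ωU (ub p IU b) := by
        congr 1
        funext s
        simp only [Finset.inl_mem_disjSum, Sum.elim_inl]
        rfl
      rw [e, sub_self]
      exact dvd_zero _
    · have e : ev ωU (fun s => if Sum.inl s ∈ IU.disjSum IP then Sum.elim b b' (Sum.inl s) else (p : 𝓞 F) * Sum.elim b b' (Sum.inl s)) =
          ev ωU (ub p IU b) := by
        congr 1
        funext s
        simp only [Finset.inl_mem_disjSum, Sum.elim_inl]
        rfl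
      have e' : ev ωP (fun s => if Sum.inr s ∈ IU.disjSum IP then Sum.elim b b' (Sum.inr s) else (p : 𝓞 F) * Sum.elim b b' (Sum.inr s)) =
          ev ωP (ub p IP b') := by
        congr 1
        funext s
        simp only [Finset.inr_mem_disjSum, Sum.elim_inr]
        rfl
      rw [e, e', sub_self]
      exact dvd_zero _
  have hS1 : θ a * θ (a + w) * ∑ b ∈ Fintype.piFinset (fun k => if k ∈ IU.disjSum IP then T2 else T1),
      (∏ k, ps (F := F) p θ ωU ωP IU IP μ' a w k (b k)) * H2 H μ (fun s t => co (ωP t) s) (fun k => Sum.elim (co a) xP k +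
        (if k ∈ IU.disjSum IP then b k else (p : 𝓞 F) * b k)) =
      ∑ b ∈ BB IU T1 T2, ∑ b' ∈ BB IP T1 T2,
        (θ (a + ev ωU (ub p IU b)) * θ (a + w + (μ' * ev ωU (ub p IU b) + ev ωP (ub p IP b')))) *
        (H (co (a + ev ωU (ub p IU b))) * H (co (a + w + (μ' * ev ωU (ub p IU b) + ev ωP (ub p IP b'))))) := by
    rw [hB, Finset.mul_sum]
    refine Finset.sum_congr rfl fun b _ => ?_
    rw [Finset.mul_sum]
    refine Finset.sum_congr rfl fun b' _ => ?_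
    rw [ps_prod hU hP hθ hμK ha hw b b']
    have e0 : H2 H μ (fun s t => co (ωP t) s) (fun k => Sum.elim (co a) xP k +
        (if k ∈ IU.disjSum IP then Sum.elim b b' k else (p : 𝓞 F) * Sum.elim b b' k)) =
        H (co (a + ev ωU (ub p IU b))) * H (co (a + w + (μ' * ev ωU (ub p IU b) + ev ωP (ub p IP b')))) := by
      have e : ev ωU (fun s => Sum.elim (co a) xP (Sum.inl s) +
          (if Sum.inl s ∈ IU.disjSum IP then Sum.elim b b' (Sum.inl s) else (p : 𝓞 F) * Sum.elim b b' (Sum.inl s))) =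
          ev ωU (co a) + ev ωU (ub p IU b) := by
        rw [← ev_add]
        congr 1
        funext s
        simp only [Finset.inl_mem_disjSum, Sum.elim_inl]
        rfl
      have e' : ev ωP (fun s => Sum.elim (co a) xP (Sum.inr s) +
          (if Sum.inr s ∈ IU.disjSum IP then Sum.elim b b' (Sum.inr s) else (p : 𝓞 F) * Sum.elim b b' (Sum.inr s))) =
          ev ωP xP + ev ωP (ub p IP b') := by
        rw [← ev_add]
        congr 1
        funext s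
        simp only [Finset.inr_mem_disjSum, Sum.elim_inr]
        rfl
      refine H2_ev hG hU hH hco μ _ ?_ ?_
      · rw [e]
        refine ⟨-ta, ?_⟩
        linear_combination -hta
      · rw [e, e', ← hμ']
        refine ⟨-(μ' * ta) - t, ?_⟩
        linear_combination (-μ') * hta - hxP'
    rw [e0]
    unfold eta
    have e9 : ∀ x A B Z : C, x * (A * B * x⁻¹ * Z) = (x * x⁻¹) * (A * B * Z) := fun x A B Z => by ring
    rw [e9, mul_inv_cancel₀ hne, one_mul]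
  rw [hS0] at hg
  obtain ⟨hg1, hg2⟩ := hg
  refine ⟨?_, hg2⟩
  rw [← hS1, ← mul_sub, norm_mul]
  exact lt_of_le_of_lt (mul_le_of_le_one_left (norm_nonneg _) hle) hg1

end SSW
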