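import Mathlib
import Pool.Agent.Lib.SSW.Q3
import Pool.Agent.Lib.SSG.S.D3

/-! # SSW, Q4: sums over U/p^2 as sums over U/P and P/p^2 -/

open NumberField IsDedekindDomain

namespace SSW

open SSR SSG
open SSG.E (RpU)
open H55N (XS)

/-- Representatives of U modulo P. -/
structure WR {K : Type} [Field K] [NumberField K] (U P : Ideal (𝓞 K)) (W : Finset (𝓞 K)) : Prop where
  sub : ∀ w ∈ W, w ∈ U
  ex : ∀ a ∈ U, ∃! w, w ∈ W ∧ a - w ∈ P

theorem exists_WR {K : Type} [Field K] [NumberField K] (U P : Ideal (𝓞 K)) (hP : P ≠ ⊥) : ∃ W : Finset (𝓞 K), WR U P W := by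
  classical
  have hfin : Finite (𝓞 K ⧸ P) := Ideal.finiteQuotientOfFreeOfNeBot _ hP
  have hS : ((Ideal.Quotient.mk P) '' (U : Set (𝓞 K))).Finite := Set.toFinite _
  have hch : ∀ y : 𝓞 K ⧸ P, ∃ x : 𝓞 K, y ∈ (Ideal.Quotient.mk P) '' (U : Set (𝓞 K)) → x ∈ U ∧ Ideal.Quotient.mk _ x = y := by
    intro y
    by_cases h : y ∈ (Ideal.Quotient.mk P) '' (U : Set (𝓞 K))
    · obtain ⟨x, hx, hxy⟩ := h
      exact ⟨x, fun _ => ⟨hx, hxy⟩⟩
    · exact ⟨0, fun h' => absurd h' h⟩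
  choose r hr using hch
  refine ⟨hS.toFinset.image r, ?_, ?_⟩
  · intro a ha
    obtain ⟨y, hy, rfl⟩ := Finset.mem_image.1 ha
    exact (hr y ((Set.Finite.mem_toFinset hS).1 hy)).1
  · intro x hx
    have hy : Ideal.Quotient.mk P x ∈ (Ideal.Quotient.mk P) '' (U : Set (𝓞 K)) := ⟨x, hx, rfl⟩
    refine ⟨r (Ideal.Quotient.mk P x), ⟨Finset.mem_image.2 ⟨_, (Set.Finite.mem_toFinset hS).2 hy, rfl⟩, ?_⟩, ?_⟩
    · rw [← Ideal.Quotient.eq, (hr _ hy).2]
    · rintro a ⟨ha, hxa⟩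
      obtain ⟨y, hy', rfl⟩ := Finset.mem_image.1 ha
      have h2 := (hr y ((Set.Finite.mem_toFinset hS).1 hy')).2
      rw [← Ideal.Quotient.eq, h2] at hxa
      rw [← hxa]

variable {F : Type} [Field F] [NumberField F] {K : Type} [Field K] [NumberField K] [Algebra F K] {m p : ℕ}
  {U P : Ideal (𝓞 K)} {ωU ωP : Fin (m + 1) → 𝓞 K} {IU IP : Finset (Fin (m + 1))} {T1 T2 : Finset (𝓞 F)} {M : Type} [AddCommMonoid M]

theorem q4_mem2 (hpV : (p : 𝓞 K) ∈ U) {a b : 𝓞 K} (h : (p : 𝓞 K) ^ 2 ∣ a - b) : a ∈ U ↔ b ∈ U := by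
  obtain ⟨t, ht⟩ := h
  have h1 : (p : 𝓞 K) ^ 2 * t ∈ U := by
    rw [sq, mul_assoc]
    exact Ideal.mul_mem_right _ _ hpV
  constructor
  · intro h2
    have h3 := Ideal.sub_mem _ h2 h1
    rwa [← ht, sub_sub_cancel] at h3
  · intro h2
    have h3 := Ideal.add_mem _ h2 h1
    rwa [← ht, add_sub_cancel] at h3

open Classical in
/-- The sum over the classes of V modulo p^2. -/
theorem q4_cls (hp : p.Prime) {V : Ideal (𝓞 K)} {ω : Fin (m + 1) → 𝓞 K} {I : Finset (Fin (m + 1))} (hA : Adp F p V ω I)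
    (h1 : Rep p 1 T1) (h2 : Rep p 2 T2) {S : Finset (𝓞 K)} (hS : RpU (⊤ : Ideal (𝓞 K)) 0 (p ^ 2) S) (g : 𝓞 K → M)
    (hg : ∀ a b, (p : 𝓞 K) ^ 2 ∣ a - b → g a = g b) :
    ∑ b ∈ BB I T1 T2, g (ev ω (ub p I b)) = ∑ a ∈ S, (if a ∈ V then g a else 0) := by
  have hGp : ∀ a b : Fin (m + 1) → 𝓞 F, (∀ k, (p : 𝓞 F) ^ 2 ∣ a k - b k) → (p : 𝓞 K) ^ 2 ∣ ev ω a - ev ω b := by
    intro a b hab
    rw [← ev_sub]
    exact h4_dvd_sum hab
  have hG : ∀ a b : Fin (m + 1) → 𝓞 F, (∀ k, (p : 𝓞 F) ^ 2 ∣ a k - b k) → g (ev ω a) = g (ev ω b) := fun a b hab =>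
    hg _ _ (hGp a b hab)
  have e1 := h4_ind hp hA h1 h2 (fun a => g (ev ω a)) hG
  choose co t hco using fun x => adp_two hA x
  have e2 := h4_sum (S := S) (c₀ := 0) hp hA (by rw [← Ideal.one_eq_top]; exact isCoprime_one_left) co (fun x => ⟨t x, hco x⟩) hS h2
    (fun a => if ev ω a ∈ V then g (ev ω a) else 0) (fun a b hab => by
      beta_reduce
      rw [hG a b hab]
      exact if_congr (q4_mem2 hA.pmem (hGp a b hab)) rfl rfl)
  refine Eq.trans ?_ (Eq.trans (e1.symm.trans e2.symm) ?_)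
  · rfl
  · refine Finset.sum_congr rfl fun a _ => ?_
    have h3 : (p : 𝓞 K) ^ 2 ∣ a - ev ω (co a) := by
      refine ⟨t a, ?_⟩
      have h4 : a = ev ω (co a) + (p : 𝓞 K) ^ 2 * t a := hco a
      linear_combination h4
    rw [hg _ _ h3]
    exact if_congr (q4_mem2 hA.pmem h3).symm rfl rfl

/-- Translation. -/
theorem q4_tr {S : Finset (𝓞 K)} (hS : RpU (⊤ : Ideal (𝓞 K)) 0 (p ^ 2) S) (g : 𝓞 K → M)
    (hg : ∀ a b, (p : 𝓞 K) ^ 2 ∣ a - b → g a = g b) (t : 𝓞 K) : ∑ a ∈ S, g (t + a) = ∑ a ∈ S, g a := by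
  classical
  have hmem : ∀ x : 𝓞 K, x ∈ XS (⊤ : Ideal (𝓞 K)) 0 := by
    intro x
    show x - 0 ∈ (⊤ : Ideal (𝓞 K))
    exact Submodule.mem_top
  have hd : ∀ z : 𝓞 K, z ∈ Ideal.span {((p ^ 2 : ℕ) : 𝓞 K)} * (⊤ : Ideal (𝓞 K)) ↔ (p : 𝓞 K) ^ 2 ∣ z := by
    intro z
    rw [← Ideal.one_eq_top, mul_one, Ideal.mem_span_singleton, Nat.cast_pow]
  choose r hr hr' using fun x => hS.ex x (hmem x)
  have hr1 : ∀ x, (p : 𝓞 K) ^ 2 ∣ x - r x := fun x => (hd _).1 (hr x).2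
  have huniq : ∀ x, ∀ a ∈ S, (p : 𝓞 K) ^ 2 ∣ x - a → a = r x := fun x a ha h => hr' x a ⟨ha, (hd _).2 h⟩
  refine Finset.sum_nbij' (fun a => r (t + a)) (fun a => r (a - t)) (fun a _ => (hr _).1) (fun a _ => (hr _).1) ?_ ?_ ?_
  · intro a ha
    refine (huniq _ a ha ?_).symm
    have h1 := hr1 (t + a)
    have e : r (t + a) - t - a = -(t + a - r (t + a)) := by ring
    rw [e]
    exact h1.neg_right
  · intro a ha
    refine (huniq _ a ha ?_).symm
    have h1 := hr1 (a - t)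
    have e : t + r (a - t) - a = -(a - t - r (a - t)) := by ring
    rw [e]
    exact h1.neg_right
  · intro a _
    exact hg _ _ (hr1 _)

/-- The sum over U/p^2. -/
theorem q4_split (hp : p.Prime) (hU : Adp F p U ωU IU) (hP : Adp F p P ωP IP) (hPU : P ≤ U) (h1 : Rep p 1 T1) (h2 : Rep p 2 T2)
    {W : Finset (𝓞 K)} (hW : WR U P W) (g : 𝓞 K → M) (hg : ∀ a b, (p : 𝓞 K) ^ 2 ∣ a - b → g a = g b) {z : 𝓞 K} (hz : z ∈ U) :
    ∑ b ∈ BB IU T1 T2, g (ev ωU (ub p IU b)) = ∑ w ∈ W, ∑ b ∈ BB IP T1 T2, g (w + (z + ev ωP (ub p IP b))) := by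
  classical
  obtain ⟨S, hS⟩ := SSG.S.exists_RpU (⊤ : Ideal (𝓞 K)) top_ne_bot 0 (p ^ 2) (pow_ne_zero _ hp.ne_zero)
  rw [q4_cls hp hU h1 h2 hS g hg]
  have e1 : ∀ w ∈ W, ∑ b ∈ BB IP T1 T2, g (w + (z + ev ωP (ub p IP b))) = ∑ a ∈ S, (if a - (w + z) ∈ P then g a else 0) := by
    intro w _
    have h3 := q4_cls hp hP h1 h2 hS (fun a => g (w + (z + a))) (fun a b hab => hg _ _ (by
      have e : w + (z + a) - (w + (z + b)) = a - b := by ring
      rw [e]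
      exact hab))
    rw [h3, ← q4_tr hS (fun a => if a - (w + z) ∈ P then g a else 0) ?_ (w + z)]
    · refine Finset.sum_congr rfl fun a _ => ?_
      rw [add_sub_cancel_left, add_assoc]
    · intro a b hab
      beta_reduce
      rw [hg a b hab]
      refine if_congr (q4_mem2 hP.pmem ?_) rfl rfl
      rw [sub_sub_sub_cancel_right]
      exact hab
  rw [Finset.sum_congr rfl e1, Finset.sum_comm]
  refine Finset.sum_congr rfl fun a _ => ?_
  by_cases ha : a ∈ U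
  · rw [if_pos ha]
    obtain ⟨w0, ⟨hw0, hw0'⟩, hu⟩ := hW.ex (a - z) (Ideal.sub_mem _ ha hz)
    rw [Finset.sum_eq_single w0]
    · rw [if_pos]
      have e : a - (w0 + z) = a - z - w0 := by ring
      rw [e]
      exact hw0'
    · intro w hw hne
      rw [if_neg]
      intro h
      apply hne
      refine hu w ⟨hw, ?_⟩
      have e : a - z - w = a - (w + z) := by ring
      rw [e]
      exact h
    · intro h
      exact absurd hw0 h
  · rw [if_neg ha]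
    symm
    refine Finset.sum_eq_zero fun w hw => if_neg fun h => ha ?_
    have h3 := Ideal.add_mem _ (hPU h) (Ideal.add_mem _ (hW.sub w hw) hz)
    rwa [sub_add_cancel] at h3

omit [Algebra F K] in
theorem q4_T2 (hp : p.Prime) (h1 : Rep p 1 T1) (h2 : Rep p 2 T2) : T2.card = T1.card * T1.card := by
  have h := h2_split (ι := Unit) hp h1 h2 ∅ (fun _ => (1 : ℕ)) (fun _ _ _ => rfl)
  simp only [Finset.sum_const, smul_eq_mul, mul_one, Fintype.card_piFinset, Finset.notMem_empty, if_false, Finset.univ_unique,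
    Finset.prod_singleton] at h
  exact h

omit [Algebra F K] in
theorem q4_BB (hp : p.Prime) (h1 : Rep p 1 T1) (h2 : Rep p 2 T2) (I : Finset (Fin (m + 1))) :
    (BB I T1 T2).card = T1.card ^ (m + 1 + I.card) := by
  unfold BB
  rw [Fintype.card_piFinset]
  have e : ∀ k : Fin (m + 1), (if k ∈ I then T2 else T1).card = T1.card * (if k ∈ I then T1.card else 1) := by
    intro k
    by_cases hk : k ∈ I
    · rw [if_pos hk, if_pos hk, q4_T2 hp h1 h2]
    · rw [if_neg hk, if_neg hk, mul_one]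
  rw [Finset.prod_congr rfl fun k _ => e k, Finset.prod_mul_distrib, Finset.prod_const, Finset.card_univ, Fintype.card_fin,
    Finset.prod_ite_mem, Finset.univ_inter, Finset.prod_const]
  ring

/-- The number of classes of U modulo P. -/
theorem q4_card (hp : p.Prime) (hc : T1.card = p ^ 2) (hU : Adp F p U ωU IU) (hP : Adp F p P ωP IP) (hPU : P ≤ U) (h1 : Rep p 1 T1)
    (h2 : Rep p 2 T2) {W : Finset (𝓞 K)} (hW : WR U P W) (hlt : IP.card < IU.card) : p ∣ W.card := by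
  have h := q4_split hp hU hP hPU h1 h2 hW (fun _ => (1 : ℕ)) (fun _ _ _ => rfl) U.zero_mem
  simp only [Finset.sum_const, smul_eq_mul, mul_one] at h
  rw [q4_BB hp h1 h2, q4_BB hp h1 h2, hc] at h
  have e : (p ^ 2) ^ (m + 1 + IU.card) = (p ^ 2) ^ (IU.card - IP.card) * (p ^ 2) ^ (m + 1 + IP.card) := by
    rw [← pow_add]
    congr 1
    omega
  rw [e] at h
  have h3 : (p ^ 2) ^ (IU.card - IP.card) = W.card :=
    Nat.eq_of_mul_eq_mul_right (pow_pos (pow_pos hp.pos 2) _) h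
  rw [← h3]
  exact (dvd_pow_self p two_ne_zero).trans (dvd_pow_self _ (by omega))

end SSW
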