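import Mathlib
import Pool.Agent.Lib.SSW.Q4

/-! # SSW, Q5: the character sum if some exponent is odd -/

open NumberField IsDedekindDomain

namespace SSW

open SSR SSG
open SSG.E (RpU)
open H55N (XS)

/-- A square root of -1 modulo p, p inert. -/
theorem q5_mu {F : Type} [Field F] [NumberField F] {p : ℕ} (hp : p.Prime) (h3 : 3 ≤ p) (hd : Module.finrank ℚ F = 2) (hin : Prime (p : 𝓞 F)) :
    ∃ μ : 𝓞 F, (p : 𝓞 F) ∣ μ ^ 2 + 1 := by
  classical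
  have hpr : (Ideal.span {(p : 𝓞 F)}).IsPrime := (Ideal.span_singleton_prime hin.ne_zero).2 hin
  have hmx : (Ideal.span {(p : 𝓞 F)}).IsMaximal := hpr.isMaximal (by rw [Ne, Ideal.span_singleton_eq_bot]; exact hin.ne_zero)
  let _ : Field (𝓞 F ⧸ Ideal.span {(p : 𝓞 F)}) := Ideal.Quotient.field _
  have : Finite (𝓞 F ⧸ Ideal.span {(p : 𝓞 F)}) := Ideal.finiteQuotientOfFreeOfNeBot _ (by
    rw [Ne, Ideal.span_singleton_eq_bot]; exact hin.ne_zero)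
  let _ := Fintype.ofFinite (𝓞 F ⧸ Ideal.span {(p : 𝓞 F)})
  have hcard : Fintype.card (𝓞 F ⧸ Ideal.span {(p : 𝓞 F)}) = p ^ 2 := by
    rw [← Nat.card_eq_fintype_card]
    have h1 : Nat.card (𝓞 F ⧸ Ideal.span {(p : 𝓞 F)}) = Ideal.absNorm (Ideal.span {(p : 𝓞 F)}) := rfl
    rw [h1, Ideal.absNorm_span_singleton]
    have h2 : (p : 𝓞 F) = algebraMap ℤ (𝓞 F) (p : ℤ) := by simp
    rw [h2, Algebra.norm_algebraMap_of_basis (RingOfIntegers.basis F), Int.natAbs_pow, Int.natAbs_natCast,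
      ← Module.finrank_eq_card_basis (RingOfIntegers.basis F), RingOfIntegers.rank, hd]
  have hsq : IsSquare (-1 : 𝓞 F ⧸ Ideal.span {(p : 𝓞 F)}) := by
    rw [FiniteField.isSquare_neg_one_iff, hcard]
    have hodd : p % 2 = 1 := hp.eq_two_or_odd.resolve_left (by omega)
    have h4 : p % 4 = 1 ∨ p % 4 = 3 := by omega
    rcases h4 with h4 | h4
    · rw [Nat.pow_mod, h4]
      norm_num
    · rw [Nat.pow_mod, h4]
      norm_num
  obtain ⟨r, hr⟩ := hsq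
  obtain ⟨μ, rfl⟩ := Ideal.Quotient.mk_surjective r
  refine ⟨μ, ?_⟩
  rw [← Ideal.mem_span_singleton, ← Ideal.Quotient.eq_zero_iff_mem, map_add, map_pow, map_one, sq, ← hr, neg_add_cancel]

variable {F : Type} [Field F] [NumberField F] {K : Type} [Field K] [NumberField K] [Algebra F K] {m p : ℕ}
  {C : Type} [NormedField C] [IsUltrametricDist C] {L : LTF F C} {R : Finset (HeightOneSpectrum (𝓞 K))} {c U P : Ideal (𝓞 K)}
  {θ : 𝓞 K → C} {ωU ωP : Fin (m + 1) → 𝓞 K} {IU IP : Finset (Fin (m + 1))} {T1 T2 : Finset (𝓞 F)} {H : (Fin (m + 1) → 𝓞 F) → C}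
  {co : 𝓞 K → Fin (m + 1) → 𝓞 F}

omit [IsUltrametricDist C] in
theorem q5_p2 (hθ : LCh p R c U P θ) {a b : 𝓞 K} (h : (p : 𝓞 K) ^ 2 ∣ a - b) : θ a = θ b := by
  obtain ⟨t, ht⟩ := h
  refine hθ.per _ _ ?_
  rw [ht, sq, mul_assoc]
  exact q1_pU hθ (Ideal.mul_mem_right _ _ (hθ.PU hθ.pP))

theorem q5_root (hG : GH p L) {ζ : C} (h : ζ ^ p = 1) : ‖ζ - 1‖ < 1 := by
  have h3 := lt_of_le_of_lt (g4_root hG.prime hG.lt h) hG.lt
  by_contra h4
  rw [not_lt] at h4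
  exact absurd (one_le_pow₀ h4) (not_le.2 h3)

/-- A sum of a multiple of p of p-th roots of unity. -/
theorem q5_num (hG : GH p L) {A : Type} (W : Finset A) (hW : p ∣ W.card) (f : A → C) (hf : ∀ w ∈ W, f w ^ p = 1) : ‖∑ w ∈ W, f w‖ < 1 := by
  have e : ∑ w ∈ W, f w = ∑ w ∈ W, (f w - 1) + (W.card : C) := by
    rw [Finset.sum_sub_distrib, Finset.sum_const, nsmul_eq_mul, mul_one, sub_add_cancel]
  rw [e]
  refine h2_lt (h2_sum _ _ one_pos fun w hw => q5_root hG (hf w hw)) ?_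
  obtain ⟨k, hk⟩ := hW
  rw [hk, Nat.cast_mul, norm_mul]
  exact mul_lt_one_of_nonneg_of_lt_one_left (norm_nonneg _) hG.lt (IsUltrametricDist.norm_natCast_le_one C k)

theorem q5_sq {A : Type} (W : Finset A) (f : A → C) {r : ℝ} (hr : 0 < r) (hf : ∀ w ∈ W, ‖f w‖ ^ 2 < r) : ‖∑ w ∈ W, f w‖ ^ 2 < r := by
  refine Finset.sum_induction f (fun z => ‖z‖ ^ 2 < r) ?_ ?_ hf
  · intro a b ha hb
    have h1 := IsUltrametricDist.norm_add_le_max a b
    rcases le_total ‖a‖ ‖b‖ with h | h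
    · rw [max_eq_right h] at h1
      exact lt_of_le_of_lt (pow_le_pow_left₀ (norm_nonneg _) h1 2) hb
    · rw [max_eq_left h] at h1
      exact lt_of_le_of_lt (pow_le_pow_left₀ (norm_nonneg _) h1 2) ha
  · rw [norm_zero]
    simpa using hr

/-- One coset of U. -/
theorem q5_coset (hG : GH p L) (hU : Adp F p U ωU IU) (hP : Adp F p P ωP IP) (h1 : Rep p 1 T1) (h2 : Rep p 2 T2)
    (hθ : LCh p R c U P θ) {μ : 𝓞 F} (hμ : (p : 𝓞 F) ∣ μ ^ 2 + 1) (hlt : IP.card < IU.card) (hP0 : P ≠ ⊥) (hH : L.Fn 2 (Fin (m + 1)) H)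
    (hco : ∀ x, ∃ t : 𝓞 K, x = ev ωU (co x) + (p : 𝓞 K) ^ 2 * t) {a : 𝓞 K} (ha : θ a ≠ 0) :
    ‖∑ b ∈ BB IU T1 T2, θ (a + ev ωU (ub p IU b)) * H (co (a + ev ωU (ub p IU b)))‖ ^ 2 <
      ‖(p : C)‖ ^ (IU.card + IP.card + 2 * (m + 1)) := by
  classical
  have hp := hG.prime
  have hp0 : 0 < ‖(p : C)‖ := norm_pos_iff.2 (g1_p0 hG)
  obtain ⟨E, hE⟩ : ∃ E : ℝ, E = ‖(p : C)‖ ^ (IU.card + IP.card + 2 * (m + 1)) := ⟨_, rfl⟩
  have hE0 : 0 < E := by rw [hE]; positivity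
  obtain ⟨W, hW⟩ := exists_WR U P hP0
  set μ' := algebraMap (𝓞 F) (𝓞 K) μ with hμ'
  obtain ⟨g, hg⟩ : ∃ g : 𝓞 K → C, g = fun v => θ (a + v) * H (co (a + v)) := ⟨_, rfl⟩
  have hgp : ∀ x y, (p : 𝓞 K) ^ 2 ∣ x - y → g x = g y := by
    intro x y hxy
    have h3 : (p : 𝓞 K) ^ 2 ∣ (a + x) - (a + y) := by rwa [add_sub_add_left_eq_sub]
    rw [hg]
    beta_reduce
    rw [q5_p2 hθ h3]
    congr 1
    obtain ⟨t, ht⟩ := hco (a + x)
    refine q2_H hG hU hH hco ?_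
    have e : ev ωU (co (a + x)) - (a + y) = ((a + x) - (a + y)) - (p : 𝓞 K) ^ 2 * t := by linear_combination -ht
    rw [e]
    exact dvd_sub h3 (dvd_mul_right _ _)
  have hmain : ∀ w ∈ W, ‖∑ b ∈ BB IU T1 T2, ∑ b' ∈ BB IP T1 T2,
      (g (ev ωU (ub p IU b)) * g (w + (μ' * ev ωU (ub p IU b) + ev ωP (ub p IP b')))) -
      θ a * θ (a + w) * S0 p ωU ωP IU IP T1 T2 H co μ'‖ < E := by
    intro w hw
    have h3 := (q3_main hG hU hP h1 h2 hθ hμ hH hco ha (hW.sub w hw)).1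
    rw [← hE, ← hμ'] at h3
    refine lt_of_eq_of_lt ?_ h3
    congr 2
    refine Finset.sum_congr rfl fun b _ => Finset.sum_congr rfl fun b' _ => ?_
    rw [hg]
    beta_reduce
    rw [← add_assoc a w]
    ring
  have hS0 : ‖S0 p ωU ωP IU IP T1 T2 H co μ'‖ ≤ E := by
    have h3 := (q3_main hG hU hP h1 h2 hθ hμ hH hco ha U.zero_mem).2
    rw [← hE, ← hμ'] at h3
    exact h3
  -- the square
  have hsq : (∑ b ∈ BB IU T1 T2, g (ev ωU (ub p IU b))) ^ 2 = ∑ w ∈ W, ∑ b ∈ BB IU T1 T2, ∑ b' ∈ BB IP T1 T2,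
      (g (ev ωU (ub p IU b)) * g (w + (μ' * ev ωU (ub p IU b) + ev ωP (ub p IP b')))) := by
    rw [sq, Finset.sum_mul, Finset.sum_comm (s := W)]
    refine Finset.sum_congr rfl fun b _ => ?_
    rw [q4_split hp hU hP hθ.PU h1 h2 hW g hgp (U.mul_mem_left μ' (adp_ub hU b)), Finset.mul_sum]
    refine Finset.sum_congr rfl fun w _ => ?_
    rw [Finset.mul_sum]
    rfl
  have h4 := h2_sum W _ hE0 hmain
  rw [Finset.sum_sub_distrib, ← hsq, ← Finset.sum_mul] at h4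
  have h5 : ‖(∑ w ∈ W, θ a * θ (a + w)) * S0 p ωU ωP IU IP T1 T2 H co μ'‖ < E := by
    have h6 : ‖∑ w ∈ W, θ a * θ (a + w)‖ < 1 := by
      refine q5_num hG W (q4_card hp (g2_card hG h1) hU hP hθ.PU h1 h2 hW hlt) _ fun w hw => ?_
      rw [mul_pow, (hθ.val a).resolve_left ha, (hθ.val (a + w)).resolve_left (q1_unit hθ ha (hW.sub w hw)), one_mul]
    rw [norm_mul]
    rcases eq_or_lt_of_le (norm_nonneg (S0 p ωU ωP IU IP T1 T2 H co μ')) with h7 | h7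
    · rw [← h7, mul_zero]
      exact hE0
    · exact lt_of_lt_of_le (mul_lt_of_lt_one_left h7 h6) hS0
  have h6 := h2_lt h4 h5
  rw [sub_add_cancel, norm_pow] at h6
  rw [← hE]
  refine lt_of_eq_of_lt ?_ h6
  rw [hg]

/-- The character sum, U ≠ P. -/
theorem q5_A (hG : GH p L) (hin : Prime (p : 𝓞 F)) (hU : Adp F p U ωU IU) (hP : Adp F p P ωP IP) (h2 : Rep p 2 T2)
    (hθ : LCh p R c U P θ) (hlt : IP.card < IU.card) (hP0 : P ≠ ⊥) (hH : L.Fn 2 (Fin (m + 1)) H) :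
    ‖∑ a ∈ Fintype.piFinset (fun _ : Fin (m + 1) => T2), θ (ev ωU a) * H a‖ ^ 2 <
      ‖(p : C)‖ ^ (IU.card + IP.card + 2 * (m + 1)) := by
  classical
  have hp := hG.prime
  have hp0 : 0 < ‖(p : C)‖ := norm_pos_iff.2 (g1_p0 hG)
  obtain ⟨T1, h1⟩ := SSG.S.exists_Rep (F := F) p 1 hp.ne_zero
  obtain ⟨μ, hμ⟩ := q5_mu hp hG.three hG.deg hin
  choose co t hco using fun x => adp_two hU x
  have hco' : ∀ x, ∃ t : 𝓞 K, x = ev ωU (co x) + (p : 𝓞 K) ^ 2 * t := fun x => ⟨t x, hco x⟩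
  rw [h2_split hp h1 h2 IU (fun a => θ (ev ωU a) * H a) (fun a b hab => by
    beta_reduce
    have h3 : (p : 𝓞 K) ^ 2 ∣ ev ωU a - ev ωU b := by
      rw [← ev_sub]
      exact h4_dvd_sum hab
    rw [q5_p2 hθ h3, h2_per hG hH a b hab])]
  refine q5_sq _ _ (by positivity) fun x _ => ?_
  by_cases hx : θ (ev ωU x) = 0
  · have e : ∀ b : Fin (m + 1) → 𝓞 F, θ (ev ωU (fun k => x k + ub p IU b k)) = 0 := by
      intro b
      rw [ev_add ωU x (ub p IU b)]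
      exact q1_zero hθ hx (adp_ub hU b)
    simp only [e, zero_mul, Finset.sum_const_zero, norm_zero]
    have h9 : (0 : ℝ) ^ 2 = 0 := by norm_num
    rw [h9]
    positivity
  · refine lt_of_eq_of_lt ?_ (q5_coset hG hU hP h1 h2 hθ hμ hlt hP0 hH hco' hx)
    congr 2
    refine Finset.sum_congr rfl fun b _ => ?_
    rw [ev_add ωU x (ub p IU b)]
    congr 1
    refine q2_H hG hU hH hco' ?_
    rw [ev_add ωU x (ub p IU b), sub_self]
    exact dvd_zero _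

end SSW
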