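import Mathlib
import Pool.Agent.Lib.SSW.Q5

/-! # SSW, Q6: the character sum if all exponents are even -/

open NumberField IsDedekindDomain

namespace SSW

open SSR SSG
open SSG.E (RpU)
open H55N (XS)

variable {F : Type} [Field F] [NumberField F] {K : Type} [Field K] [NumberField K] [Algebra F K] {m p : ℕ}
  {C : Type} [NormedField C] [IsUltrametricDist C] {L : LTF F C} {R : Finset (HeightOneSpectrum (𝓞 K))} {c P V : Ideal (𝓞 K)}
  {θ : 𝓞 K → C} {ωP ωV : Fin (m + 1) → 𝓞 K} {IP IV : Finset (Fin (m + 1))} {T1 T2 : Finset (𝓞 F)} {H : (Fin (m + 1) → 𝓞 F) → C}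

/-- The representatives off I. -/
def XX (I : Finset (Fin (m + 1))) (T1 : Finset (𝓞 F)) : Finset (Fin (m + 1) → 𝓞 F) :=
  Fintype.piFinset (fun k : Fin (m + 1) => if k ∈ I then ({0} : Finset (𝓞 F)) else T1)

open Classical in
/-- The number of units modulo p^2. -/
theorem q6_num (hp : p.Prime) (hθ : LCh p R c P P θ) {Q : Ideal (𝓞 K)} {ω : Fin (m + 1) → 𝓞 K} {I : Finset (Fin (m + 1))}
    (hA : Adp F p Q ω I) (hQ : ∀ v ∈ R, Q ≤ v.asIdeal) (h1 : Rep p 1 T1) (h2 : Rep p 2 T2) {S : Finset (𝓞 K)}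
    (hS : RpU (⊤ : Ideal (𝓞 K)) 0 (p ^ 2) S) :
    ∑ a ∈ S, (if θ a ≠ 0 then 1 else 0) = ((XX I T1).filter fun x => θ (ev ω x) ≠ 0).card * (BB I T1 T2).card := by
  have hshift : ∀ a u : 𝓞 K, u ∈ Q → (θ (a + u) ≠ 0 ↔ θ a ≠ 0) := by
    intro a u hu
    rw [hθ.ne, hθ.ne]
    refine forall_congr' fun v => forall_congr' fun hv => not_congr ?_
    constructor
    · intro h
      have h3 := Ideal.sub_mem _ h (hQ v hv hu)
      rwa [add_sub_cancel_right] at h3
    · intro h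
      exact Ideal.add_mem _ h (hQ v hv hu)
  choose co t hco using fun x => adp_two hA x
  have hper : ∀ a b : Fin (m + 1) → 𝓞 F, (∀ k, (p : 𝓞 F) ^ 2 ∣ a k - b k) → θ (ev ω a) = θ (ev ω b) := by
    intro a b hab
    refine q5_p2 hθ ?_
    rw [← ev_sub]
    exact h4_dvd_sum hab
  have e1 := h4_sum (S := S) (c₀ := 0) hp hA (by rw [← Ideal.one_eq_top]; exact isCoprime_one_left) co (fun x => ⟨t x, hco x⟩) hS h2
    (fun a => if θ (ev ω a) ≠ 0 then (1 : ℕ) else 0) (fun a b hab => by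
      beta_reduce
      rw [hper a b hab])
  have e2 : ∑ a ∈ S, (if θ a ≠ 0 then (1 : ℕ) else 0) = ∑ a ∈ S, (if θ (ev ω (co a)) ≠ 0 then (1 : ℕ) else 0) := by
    refine Finset.sum_congr rfl fun a _ => ?_
    have h3 : (p : 𝓞 K) ^ 2 ∣ a - ev ω (co a) := by
      refine ⟨t a, ?_⟩
      have h4 : a = ev ω (co a) + (p : 𝓞 K) ^ 2 * t a := hco a
      linear_combination h4
    rw [q5_p2 hθ h3]
  rw [e2, e1, h2_split hp h1 h2 I (fun a => if θ (ev ω a) ≠ 0 then (1 : ℕ) else 0) (fun a b hab => by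
      beta_reduce
      rw [hper a b hab]), Finset.card_filter, Finset.sum_mul]
  refine Finset.sum_congr rfl fun x _ => ?_
  have e3 : ∀ b : Fin (m + 1) → 𝓞 F, (if θ (ev ω (fun k => x k + ub p I b k)) ≠ 0 then (1 : ℕ) else 0) =
      (if θ (ev ω x) ≠ 0 then 1 else 0) := by
    intro b
    rw [ev_add ω x (ub p I b)]
    exact if_congr (hshift _ _ (adp_ub hA b)) rfl rfl
  rw [Finset.sum_congr rfl fun b _ => e3 b, Finset.sum_const, smul_eq_mul, mul_comm]
  rfl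

open Classical in
theorem q6_dvd (hG : GH p L) (hθ : LCh p R c P P θ) (hP : Adp F p P ωP IP) (hV : Adp F p V ωV IV) (hVR : ∀ v ∈ R, V ≤ v.asIdeal)
    (hlt : IP.card < IV.card) (h1 : Rep p 1 T1) (h2 : Rep p 2 T2) : p ∣ ((XX IP T1).filter fun x => θ (ev ωP x) ≠ 0).card := by
  have hp := hG.prime
  obtain ⟨S, hS⟩ := SSG.S.exists_RpU (⊤ : Ideal (𝓞 K)) top_ne_bot 0 (p ^ 2) (pow_ne_zero _ hp.ne_zero)
  have e1 := q6_num hp hθ hP hθ.rad h1 h2 hS
  have e2 := q6_num hp hθ hV hVR h1 h2 hS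
  rw [e1, q4_BB hp h1 h2, q4_BB hp h1 h2, g2_card hG h1] at e2
  have e : (p ^ 2) ^ (m + 1 + IV.card) = (p ^ 2) ^ (IV.card - IP.card) * (p ^ 2) ^ (m + 1 + IP.card) := by
    rw [← pow_add]
    congr 1
    omega
  rw [e, ← mul_assoc] at e2
  have h3 := Nat.eq_of_mul_eq_mul_right (pow_pos (pow_pos hp.pos 2) _) e2
  rw [h3]
  exact ((dvd_pow_self p two_ne_zero).trans (dvd_pow_self _ (by omega))).mul_left _

/-- The weight. -/
theorem q6_wt (hθ : LCh p R c P P θ) (hP : Adp F p P ωP IP) : WtP (F := F) p IP (fun a => θ (ev ωP a)) := by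
  refine ⟨fun a b hab => ?_, fun x => ?_, fun x => hθ.val _⟩
  · refine q5_p2 hθ ?_
    rw [← ev_sub]
    exact h4_dvd_sum hab
  · by_cases hx : θ (ev ωP x) = 0
    · refine ⟨fun _ _ => 1, fun _ => ⟨fun _ _ => (one_mul 1).symm, fun _ => rfl⟩, fun b => ?_⟩
      beta_reduce
      rw [hx, zero_mul, ev_add ωP x (ub p IP b)]
      exact q1_zero hθ hx (adp_ub hP b)
    · set a := ev ωP x with ha
      refine ⟨fun s b => θ (a + en p ωP IP s b) * (θ a)⁻¹, fun s => ⟨fun u v => ?_, fun u => ?_⟩, fun b => ?_⟩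
      · have h3 := q1_addP hθ hx (q2_ent hP s u) (q2_ent hP s v)
        have h4 : θ (a + en p ωP IP s u) * θ (a + en p ωP IP s v) = θ a * θ (a + (en p ωP IP s u + en p ωP IP s v)) := h3
        beta_reduce
        rw [en_add]
        field_simp
        linear_combination -h4
      · beta_reduce
        have h5 : θ (a + (p : 𝓞 K) * en p ωP IP s u) = θ a := q1_per hθ a (q2_ent hP s u)
        rw [en_mul, h5]
        exact mul_inv_cancel₀ hx
      · beta_reduce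
        rw [ev_add ωP x (ub p IP b), ← ha]
        have h3 := q2_prod P (fun y => θ (a + y) * (θ a)⁻¹) (by beta_reduce; rw [add_zero]; exact mul_inv_cancel₀ hx) (fun y hy z hz => by
          have h4 := q1_addP hθ hx hy hz
          beta_reduce
          field_simp
          linear_combination -h4) Finset.univ (fun s => en p ωP IP s (b s)) (fun s _ => q2_ent hP s (b s))
        have h4 : θ (a + ev ωP (ub p IP b)) * (θ a)⁻¹ = ∏ s, θ (a + en p ωP IP s (b s)) * (θ a)⁻¹ := h3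
        rw [← h4]
        field_simp

/-- The character sum, U = P. -/
theorem q6_B (hG : GH p L) (hP : Adp F p P ωP IP) (hV : Adp F p V ωV IV) (hVR : ∀ v ∈ R, V ≤ v.asIdeal) (h2 : Rep p 2 T2)
    (hθ : LCh p R c P P θ) (hlt : IP.card < IV.card) (hH : L.Fn 2 (Fin (m + 1)) H) :
    ‖∑ a ∈ Fintype.piFinset (fun _ : Fin (m + 1) => T2), θ (ev ωP a) * H a‖ < ‖(p : C)‖ ^ (IP.card + (m + 1)) := by
  classical
  have hp := hG.prime
  have hp0 : 0 < ‖(p : C)‖ := norm_pos_iff.2 (g1_p0 hG)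
  obtain ⟨T1, h1⟩ := SSG.S.exists_Rep (F := F) p 1 hp.ne_zero
  have e1 := h2_main hG h1 h2 (q6_wt hθ hP) hH
  have e2 := h2_int hG h1 h2 IP hH
  rw [Fintype.card_fin] at e1 e2
  have e3 := q6_dvd hG hθ hP hV hVR hlt h1 h2
  obtain ⟨N, hN⟩ : ∃ N : ℕ, N = ((Fintype.piFinset (fun k : Fin (m + 1) => if k ∈ IP then ({0} : Finset (𝓞 F)) else T1)).filter
    fun x => θ (ev ωP x) ≠ 0).card := ⟨_, rfl⟩
  have e4 : p ∣ N := by
    rw [hN]
    exact e3
  rw [← hN] at e1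
  obtain ⟨Z, hZ⟩ : ∃ Z : C, Z = ∑ b ∈ Fintype.piFinset (fun k : Fin (m + 1) => if k ∈ IP then T2 else T1), H (ub p IP b) := ⟨_, rfl⟩
  rw [← hZ] at e1 e2
  have hN1 : ‖((N : ℕ) : C)‖ < 1 := by
    obtain ⟨k, hk⟩ := e4
    rw [hk, Nat.cast_mul, norm_mul]
    exact mul_lt_one_of_nonneg_of_lt_one_left (norm_nonneg _) hG.lt (IsUltrametricDist.norm_natCast_le_one C k)
  have hE0 : 0 < ‖(p : C)‖ ^ (IP.card + (m + 1)) := by positivity
  have h5 : ‖((N : ℕ) : C) * Z‖ < ‖(p : C)‖ ^ (IP.card + (m + 1)) := by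
    rw [norm_mul]
    rcases eq_or_lt_of_le (norm_nonneg Z) with h7 | h7
    · rw [← h7, mul_zero]
      exact hE0
    · exact lt_of_lt_of_le (mul_lt_of_lt_one_left h7 hN1) e2
  have h6 := h2_lt e1 h5
  rw [sub_add_cancel] at h6
  exact h6

end SSW
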