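import Mathlib
import Pool.Agent.Lib.SSW.Q6
import Pool.Agent.Lib.SSW.Q7
import Pool.Agent.Lib.SSR.H1

/-! # SSW, Q8: the character sum over a class -/

open NumberField IsDedekindDomain

namespace SSW

open SSR SSG
open SSG.E (RpU)
open H55N (XS)

variable {F : Type} [Field F] [NumberField F] {K : Type} [Field K] [NumberField K] [Algebra F K] {m p : ℕ}
  {C : Type} [NormedField C] [IsUltrametricDist C] {L : LTF F C} {f : Ideal (𝓞 K)} {R : Finset (HeightOneSpectrum (𝓞 K))}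
  {n : HeightOneSpectrum (𝓞 K) → ℕ} {χ : Ideal (𝓞 K) →*₀ C} {ω₀ : Fin (m + 1) → 𝓞 K} {I : Finset (Fin (m + 1))} {T2 : Finset (𝓞 F)}
  {I₀ : Ideal (𝓞 K)} {c₀ : 𝓞 K} {H : (Fin (m + 1) → 𝓞 F) → C}

theorem q8_lt (hp : p.Prime) {A B : ℕ} {a b g : ℕ} (hA : A = p ^ (2 * (g - a))) (hB : B = p ^ (2 * (g - b))) (h : B < A) : a < b := by
  rw [hA, hB] at h
  have h1 := (Nat.pow_lt_pow_iff_right hp.one_lt).1 h
  omega

/-- The exponents. -/
theorem q8_exp (hp : p.Prime) {N A B : ℕ} {a b g D : ℕ} (hN : N = A * B) (hA : A = p ^ (2 * (g - a))) (hB : B = p ^ (2 * (g - b)))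
    (hD : N = p ^ (2 * D)) (ha : a ≤ g) (hb : b ≤ g) : a + b + 2 * g = 4 * g - D ∧ D ≤ 2 * g := by
  rw [hD, hA, hB, ← pow_add] at hN
  have h1 := Nat.pow_right_injective hp.two_le hN
  omega

theorem q8_theta (hG : GH p L) (hin : Prime (p : 𝓞 F)) (hm : Module.finrank F K = m + 1) (hχ : PCN p f R n χ) (h3 : ∃ v ∈ R, 3 ≤ n v)
    {θ : 𝓞 K → C} (hθ : LCh p R (pI R n) (pI R (fun v => n v / 2)) (pI R (fun v => (n v + 1) / 2)) θ)
    (hU : Adp F p (pI R (fun v => n v / 2)) ω₀ I) (hN : Ideal.absNorm (pI R (fun v => n v / 2)) = p ^ (2 * (m + 1 - I.card)))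
    {D : ℕ} (hD : Ideal.absNorm (pI R n) = p ^ (2 * D)) (h2 : Rep p 2 T2) (hH : L.Fn 2 (Fin (m + 1)) H) :
    ‖∑ a ∈ Fintype.piFinset (fun _ : Fin (m + 1) => T2), θ (ev ω₀ a) * H a‖ ^ 2 < ‖(p : C)‖ ^ (4 * (m + 1) - D) := by
  have hp := hG.prime
  have hIc : I.card ≤ m + 1 := by
    have h1 := Finset.card_le_univ I
    rwa [Fintype.card_fin] at h1
  obtain ⟨ωP, IP, hP, hNP⟩ := h1_adp hp hG.deg hin hm (pI R (fun v => (n v + 1) / 2)) (q7_pm hχ)
  have hIP : IP.card ≤ m + 1 := by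
    have h1 := Finset.card_le_univ IP
    rwa [Fintype.card_fin] at h1
  have hmul : Ideal.absNorm (pI R n) = Ideal.absNorm (pI R (fun v => n v / 2)) * Ideal.absNorm (pI R (fun v => (n v + 1) / 2)) := by
    rw [← map_mul, q7_mul]
  obtain ⟨hE, -⟩ := q8_exp hp hmul hN hNP hD hIc hIP
  by_cases hodd : ∃ v ∈ R, n v % 2 = 1
  · have hlt : IP.card < I.card := q8_lt hp hNP hN (q7_lt R (k := fun v => n v / 2) (l := fun v => (n v + 1) / 2)
      (fun v _ => by beta_reduce; omega) (by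
      obtain ⟨v, hv, hv1⟩ := hodd
      exact ⟨v, hv, by beta_reduce; omega⟩))
    rw [← hE]
    exact q5_A hG hin hU hP h2 hθ hlt (q7_ne R _) hH
  · have hev : ∀ v ∈ R, n v % 2 = 0 := by
      intro v hv
      by_contra hc
      exact hodd ⟨v, hv, by omega⟩
    have hUP : pI R (fun v => n v / 2) = pI R (fun v => (n v + 1) / 2) := by
      unfold pI
      refine Finset.prod_congr rfl fun v hv => ?_
      have := hev v hv
      congr 1
      show n v / 2 = (n v + 1) / 2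
      omega
    have hV : pI R (fun v => (n v + 1) / 2) ≤ pI R (fun _ => 1) := q7_le R (k := fun _ => 1) (l := fun v => (n v + 1) / 2) fun v hv => by
      have := hχ.two v hv
      beta_reduce
      omega
    obtain ⟨ωV, IV, hAV, hNV⟩ := h1_adp hp hG.deg hin hm (pI R (fun _ => 1)) (hV (q7_pm hχ))
    rw [← hUP] at hθ
    have hNN : Ideal.absNorm (pI R (fun _ => 1)) < Ideal.absNorm (pI R (fun v => n v / 2)) := by
      refine q7_lt R (k := fun _ => 1) (l := fun v => n v / 2) (fun v hv => ?_) ?_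
      · have := hχ.two v hv
        beta_reduce
        omega
      · obtain ⟨v, hv, hv3⟩ := h3
        refine ⟨v, hv, ?_⟩
        have := hev v hv
        beta_reduce
        omega
    have hlt : I.card < IV.card := q8_lt hp hN hNV hNN
    have h4 := q6_B hG hU hAV (q7_rad R (k := fun _ => 1) fun _ _ => le_rfl) h2 hθ hlt hH
    have hIP' : IP.card = I.card := by
      have h5 : Ideal.absNorm (pI R (fun v => n v / 2)) = Ideal.absNorm (pI R (fun v => (n v + 1) / 2)) := by rw [hUP]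
      rw [hN, hNP] at h5
      have h6 := Nat.pow_right_injective hp.two_le h5
      have h7 : 2 * (m + 1 - I.card) = 2 * (m + 1 - IP.card) := h6
      omega
    rw [← hE, hIP']
    have h5 : ‖(p : C)‖ ^ (I.card + I.card + 2 * (m + 1)) = (‖(p : C)‖ ^ (I.card + (m + 1))) ^ 2 := by
      rw [← pow_mul]
      congr 1
      ring
    rw [h5]
    exact pow_lt_pow_left₀ h4 (norm_nonneg _) two_ne_zero

/-- The sum over a class. -/
theorem q8_class (hG : GH p L) (hin : Prime (p : 𝓞 F)) (hm : Module.finrank F K = m + 1) (hχ : PCN p f R n χ) (h3 : ∃ v ∈ R, 3 ≤ n v)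
    (hU : Adp F p (pI R (fun v => n v / 2)) ω₀ I) (hN : Ideal.absNorm (pI R (fun v => n v / 2)) = p ^ (2 * (m + 1 - I.card)))
    {D : ℕ} (hD : Ideal.absNorm (pI R n) = p ^ (2 * D)) (hI : IsCoprime I₀ (Ideal.span {(p : 𝓞 K)})) (hf : I₀ ≤ f)
    (co : 𝓞 K → Fin (m + 1) → 𝓞 F)
    (hco : ∀ x, ∃ t : 𝓞 K, x = ∑ s, algebraMap (𝓞 F) (𝓞 K) (co x s) * ω₀ s + (p : 𝓞 K) ^ 2 * t) {S : Finset (𝓞 K)} (hS : RpU I₀ c₀ (p ^ 2) S)
    (hH : L.Fn 2 (Fin (m + 1)) H) : ‖∑ a ∈ S, χ (Ideal.span {a}) * H (co a)‖ ^ 2 < ‖(p : C)‖ ^ (4 * (m + 1) - D) := by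
  have hp := hG.prime
  have hR : R.Nonempty := by
    obtain ⟨v, hv, -⟩ := h3
    exact ⟨v, hv⟩
  obtain ⟨T2, h2⟩ := SSG.S.exists_Rep (F := F) p 2 hp.ne_zero
  obtain ⟨ε, hε, hε1, hθ⟩ := q7_theta hp hχ hR
  obtain ⟨lam, hlam, hcl⟩ := q7_cls hχ hR hε hε1 hI hf c₀
  obtain ⟨θ, hθd⟩ : ∃ θ : 𝓞 K → C, θ = fun u => χ (Ideal.span {1 + ε * (u - 1)}) := ⟨_, rfl⟩
  rw [← hθd] at hθ
  have hcl' : ∀ x ∈ XS I₀ c₀, χ (Ideal.span {x}) = lam * θ x := by
    intro x hx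
    rw [hθd]
    exact hcl x hx
  have hper : ∀ a b : Fin (m + 1) → 𝓞 F, (∀ k, (p : 𝓞 F) ^ 2 ∣ a k - b k) → θ (ev ω₀ a) * H a = θ (ev ω₀ b) * H b := by
    intro a b hab
    have h4 : (p : 𝓞 K) ^ 2 ∣ ev ω₀ a - ev ω₀ b := by
      rw [← ev_sub]
      exact h4_dvd_sum hab
    rw [q5_p2 hθ h4, h2_per hG hH a b hab]
  have e1 := h4_sum hp hU hI co hco hS h2 (fun a => θ (ev ω₀ a) * H a) hper
  have e2 : ∑ a ∈ S, χ (Ideal.span {a}) * H (co a) = lam * ∑ a ∈ S, θ (ev ω₀ (co a)) * H (co a) := by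
    rw [Finset.mul_sum]
    refine Finset.sum_congr rfl fun a ha => ?_
    rw [hcl' a (hS.sub a ha), mul_assoc]
    congr 2
    refine q5_p2 hθ ?_
    obtain ⟨t, ht⟩ := hco a
    refine ⟨t, ?_⟩
    have ht' : a = ev ω₀ (co a) + (p : 𝓞 K) ^ 2 * t := ht
    linear_combination ht'
  have hl : ‖lam‖ ≤ 1 := by
    rcases hlam with h | h
    · rw [h, norm_zero]
      exact zero_le_one
    · have h4 : ‖lam‖ ^ p = 1 := by rw [← norm_pow, h, norm_one]
      exact ((pow_eq_one_iff_of_nonneg (norm_nonneg _) hp.ne_zero).1 h4).le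
  rw [e2, e1, norm_mul, mul_pow]
  refine lt_of_le_of_lt (mul_le_of_le_one_left (by positivity) (pow_le_one₀ (norm_nonneg _) hl)) ?_
  exact q8_theta hG hin hm hχ h3 hθ hU hN hD h2 hH

end SSW
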