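import Mathlib
import Pool.Agent.Lib.SSR.T6
import Pool.Agent.Lib.SSW.Q8
import Pool.Agent.Lib.SSW.W4

/-! # SSW, W6: the size of the twisted sum at V -/

open NumberField IsDedekindDomain WeierstrassCurve

namespace SSW

open H55N H55P SSG SSG.E SSR

section chi

variable {F : Type} [Field F] [NumberField F] {K : Type} [Field K] [NumberField K] {p : ℕ} {C : Type} [NormedField C]
  {f : Ideal (𝓞 K)} {R : Finset (HeightOneSpectrum (𝓞 K))} {n : HeightOneSpectrum (𝓞 K) → ℕ} {χ : Ideal (𝓞 K) →*₀ ℂ}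

theorem w6_chi {Ω : Type} [Field Ω] [Algebra F Ω] [IsAlgClosure F Ω] (hp : p.Prime) (j : Ω →+* ℂ) (i : Ω →+* C) (hχ : PCN p f R n χ) :
    ∃ (χ' : Ideal (𝓞 K) →*₀ Ω) (χ'' : Ideal (𝓞 K) →*₀ C), (∀ a, j (χ' a) = χ a) ∧ (∀ a, i (χ' a) = χ'' a) ∧ PCN p f R n χ'' := by
  have hΩ : CharZero Ω := charZero_of_injective_algebraMap (algebraMap F Ω).injective
  have hj : Function.Injective j := j.injective
  have halg : ∀ a, IsAlgebraic ℚ (χ a) := by
    intro a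
    by_cases h : IsCoprime a (f * ∏ v ∈ R, v.asIdeal)
    · by_cases h0 : a = ⊥
      · have h1 : χ a = 0 := by
          rw [h0]
          exact map_zero χ
        rw [h1]
        exact isAlgebraic_zero
      · have h1 := hχ.val a h0 h
        refine ⟨Polynomial.X ^ p - 1, ?_, ?_⟩
        · exact Polynomial.X_pow_sub_C_ne_zero hp.pos 1
        · rw [map_sub, map_pow, Polynomial.aeval_X, map_one, h1, sub_self]
    · rw [hχ.zero a h]
      exact isAlgebraic_zero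
  have hex : ∀ a, ∃ x : Ω, j x = χ a := fun a => SSG.S.m2_lift (F := F) j (χ a) (halg a)
  choose y hy using hex
  obtain ⟨χ', hχ'⟩ : ∃ χ' : Ideal (𝓞 K) →*₀ Ω, ∀ a, χ' a = y a := by
    refine ⟨{ toFun := y, map_zero' := ?_, map_one' := ?_, map_mul' := ?_ }, fun a => rfl⟩
    · apply hj
      rw [hy, map_zero, map_zero]
    · apply hj
      rw [hy, map_one, map_one]
    · intro a b
      apply hj
      rw [hy, map_mul, map_mul, hy, hy]
  have hjχ : ∀ a, j (χ' a) = χ a := fun a => by rw [hχ', hy]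
  refine ⟨χ', (i.toMonoidWithZeroHom).comp χ', hjχ, fun a => rfl, ?_⟩
  have hi : ∀ a, ((i.toMonoidWithZeroHom).comp χ') a = i (χ' a) := fun a => rfl
  refine ⟨hχ.ne, hχ.cop, hχ.abv, ?_, ?_, ?_, hχ.two, hχ.mem⟩
  · intro a ha hc
    have h1 : χ' a ^ p = 1 := by
      apply hj
      rw [map_pow, hjχ, hχ.val a ha hc, map_one]
    rw [hi, ← map_pow, h1, map_one]
  · intro a ha
    have h1 : χ' a = 0 := by
      apply hj
      rw [hjχ, hχ.zero a ha, map_zero]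
    rw [hi, h1, map_zero]
  · intro x y' hx hy' hc hxy
    have h1 : χ' (Ideal.span {x}) = χ' (Ideal.span {y'}) := by
      apply hj
      rw [hjχ, hjχ, hχ.per x y' hx hy' hc hxy]
    rw [hi, hi, h1]

end chi

theorem w6_term {C : Type} [NormedField C] [IsUltrametricDist C] {X Y s : C} {B : ℝ} (hX : ‖X‖ ≤ 1) (hY : ‖Y - 1‖ < 1)
    (h1 : ‖s‖ ^ 2 < B) : ‖X * (Y * s)‖ ^ 2 < B := by
  have h2 : ‖Y‖ ≤ 1 := by
    have e : Y = (Y - 1) + 1 := by ring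
    rw [e]
    refine (IsUltrametricDist.norm_add_le_max _ _).trans (max_le hY.le ?_)
    rw [NormOneClass.norm_one]
  rw [norm_mul, norm_mul]
  refine lt_of_le_of_lt (pow_le_pow_left₀ (by positivity) ?_ 2) h1
  calc ‖X‖ * (‖Y‖ * ‖s‖) ≤ 1 * (1 * ‖s‖) := mul_le_mul hX (mul_le_mul_of_nonneg_right h2 (norm_nonneg _)) (by positivity) zero_le_one
    _ = ‖s‖ := by ring

variable {F : Type} [Field F] [NumberField F] [IQ F] {K : Type} [Field K] [NumberField K] [Algebra F K] {m p : ℕ} [Fact p.Prime]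
  {M : Ideal (𝓞 F)} {ψ : Ideal (𝓞 F) →*₀ 𝓞 F} {f : Ideal (𝓞 K)} {R : Finset (HeightOneSpectrum (𝓞 K))}
  {n : HeightOneSpectrum (𝓞 K) → ℕ} {χ : Ideal (𝓞 K) →*₀ ℂ}
  {V : ValuationSubring ℂ} {ι : Type} [Fintype ι] {b : ι → Ideal (𝓞 K)} {c₀ : ι → 𝓞 K} {T : ι → Set (𝓞 K)} {κ : ι → ℂ}
  {c : Fin (m + 1) × Fin 2 → Ideal (𝓞 K)} {q : Fin (m + 1) × Fin 2 → ℕ} {val : ι → 𝓞 K → ℂ}

/-- The size of the twisted sum. -/
theorem w6_val {Om : ℂ} (hS : SCtx p M ψ Om) (hV : V.valuation (p : ℂ) < 1) (hm : Module.finrank F K = m + 1)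
    (hχ : PCN p f R n χ) (h3 : ∃ v ∈ R, 3 ≤ n v) (hD : TDat F M ψ p f χ V ι b c₀ T κ c q val) (S : ι → Finset (𝓞 K))
    (hR : ∀ i, RpU (mK K M * f * b i) (c₀ i) (p ^ 2) (S i)) :
    ∃ (δ : ℂ) (D : ℕ), D ≤ 2 * (m + 1) ∧ δ ≠ 0 ∧ V.valuation δ ^ 4 = V.valuation ((NumberField.discr K : ℤ) : ℂ) ∧
      Ideal.absNorm (∏ v ∈ R, v.asIdeal ^ n v) = p ^ (2 * D) ∧
      V.valuation (δ / Om ^ (m + 1) * ∑ i, κ i * (χ (b i))⁻¹ * (Ideal.absNorm (b i) : ℂ) * ∑ a ∈ S i, χ (Ideal.span {a}) * val i a) ^ 2 <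
        V.valuation (p : ℂ) ^ (4 * (m + 1) - D) := by
  classical
  have hp : p.Prime := Fact.out
  obtain ⟨A, B, Ω, iΩ1, iΩ2, iΩ3, iΩ4, j, act, hd, hsup⟩ := hS.curve
  have hpp0 : (p : 𝓞 F) ≠ 0 := Nat.cast_ne_zero.2 hp.ne_zero
  have hin : Prime (p : 𝓞 F) := (Ideal.span_singleton_prime hpp0).1 hS.inert
  have hc0 : CharZero Ω := charZero_of_injective_algebraMap (algebraMap F Ω).injective
  have hVΩ : (V.comap j).valuation (p : Ω) < 1 := (SSG.S.m2_comap_lt j V (p : Ω)).2 (by rwa [map_natCast])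
  obtain ⟨i, Tp, L, hloc, hG⟩ := exists_locL hd hS.inert hsup (V.comap j) hVΩ
  have hpU : (p : 𝓞 K) ∈ pI R (fun v => n v / 2) :=
    q7_le R (k := fun v => n v / 2) (l := fun v => (n v + 1) / 2) (fun v _ => by beta_reduce; omega) (q7_pm hχ)
  obtain ⟨ω₀, I, hA, hN⟩ := h1_adp hp IQ.deg hin hm (pI R (fun v => n v / 2)) hpU
  obtain ⟨ωP, IP, hAP, hNP⟩ := h1_adp hp IQ.deg hin hm (pI R (fun v => (n v + 1) / 2)) (q7_pm hχ)
  have hIc : I.card ≤ m + 1 := by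
    have h1 := Finset.card_le_univ I
    rwa [Fintype.card_fin] at h1
  have hIP : IP.card ≤ m + 1 := by
    have h1 := Finset.card_le_univ IP
    rwa [Fintype.card_fin] at h1
  have hNn : Ideal.absNorm (pI R n) = p ^ (2 * ((m + 1 - I.card) + (m + 1 - IP.card))) := by
    rw [← q7_mul, map_mul, hN, hNP, ← pow_add]
    congr 1
    ring
  obtain ⟨D, hDd⟩ : ∃ D, D = (m + 1 - I.card) + (m + 1 - IP.card) := ⟨_, rfl⟩
  rw [← hDd] at hNn
  have hco0 := fun x : 𝓞 K => adp_two hA x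
  choose co hco using hco0
  obtain ⟨δ, hδ⟩ : ∃ δ : ℂ, δ ^ 2 = embF F (Algebra.discr F fun s => (ω₀ s : K)) :=
    IsAlgClosed.exists_pow_nat_eq _ (by norm_num)
  have hδV := he_disc hp hin hm hA V hV δ hδ
  have hδ0 : δ ≠ 0 := by
    rintro rfl
    rw [map_zero, zero_pow (by norm_num)] at hδV
    have h1 : ((NumberField.discr K : ℤ) : ℂ) ≠ 0 := Int.cast_ne_zero.2 (NumberField.discr_ne_zero K)
    exact (Valuation.ne_zero_iff _).2 h1 hδV.symm
  have hcls := fun x => hD.cls x A B Om Ω j act M ψ hd (V.comap j) i Tp L hVΩ hloc ω₀ co hco δ hδ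
  choose hh H hh1 hH hh2 using hcls
  obtain ⟨χ', χ'', hχ1, hχ2, hχG⟩ := w6_chi (F := F) hp j i hχ
  choose κ' hκ' using fun x => SSG.S.m2_lift (F := F) j (κ x) (hD.cl.alg x)
  have hOm : Om ≠ 0 := hd.cma.per.ne
  have hOmm : Om ^ (m + 1) ≠ 0 := pow_ne_zero _ hOm
  have hpΩ : (p : Ω) ≠ 0 := Nat.cast_ne_zero.2 hp.ne_zero
  have hpi : (p : ℂ_[p]) ≠ 0 := Nat.cast_ne_zero.2 hp.ne_zero
  obtain ⟨nb, hnb⟩ : ∃ nb : ι → ℕ, nb = fun x => Ideal.absNorm (b x) := ⟨_, rfl⟩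
  obtain ⟨S', hSd⟩ : ∃ S' : Ω, S' = ∑ x, κ' x * (χ' (b x))⁻¹ * (nb x : Ω) *
      ∑ a ∈ S x, χ' (Ideal.span {a}) * hh x a := ⟨_, rfl⟩
  have hjS : j S' = δ / Om ^ (m + 1) * ∑ i, κ i * (χ (b i))⁻¹ * (Ideal.absNorm (b i) : ℂ) *
      ∑ a ∈ S i, χ (Ideal.span {a}) * val i a := by
    rw [hSd, map_sum, Finset.mul_sum]
    refine Finset.sum_congr rfl fun x _ => ?_
    have h1 : j (∑ a ∈ S x, χ' (Ideal.span {a}) * hh x a) =
        δ / Om ^ (m + 1) * ∑ a ∈ S x, χ (Ideal.span {a}) * val x a := by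
      rw [map_sum, Finset.mul_sum]
      refine Finset.sum_congr rfl fun a ha => ?_
      rw [map_mul, hχ1, hh1 x a ((hR x).sub a ha)]
      ring
    rw [map_mul j, h1, map_mul j, map_mul j, map_inv₀ j, hχ1, map_natCast j, hκ', hnb]
    ring
  have hiS : i S' = ∑ x, i (κ' x * (nb x : Ω)) * (i ((χ' (b x))⁻¹) *
      ∑ a ∈ S x, χ'' (Ideal.span {a}) * H x (co a)) := by
    rw [hSd, map_sum]
    refine Finset.sum_congr rfl fun x _ => ?_
    have h1 : i (∑ a ∈ S x, χ' (Ideal.span {a}) * hh x a) = ∑ a ∈ S x, χ'' (Ideal.span {a}) * H x (co a) := by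
      rw [map_sum]
      refine Finset.sum_congr rfl fun a ha => ?_
      rw [map_mul, hχ2, hh2 x a ((hR x).sub a ha)]
    rw [map_mul i, h1, map_mul i, map_mul i, map_mul i]
    ring
  have hX : ∀ x, ‖i (κ' x * (nb x : Ω))‖ ≤ 1 := by
    intro x
    rw [← hloc.val, ValuationSubring.mem_comap, ← ValuationSubring.valuation_le_one_iff, map_mul j, map_natCast j, hκ',
      map_mul, hD.cl.unit x V hV, one_mul]
    exact pt9_nat V _
  have hY : ∀ x, ‖i ((χ' (b x))⁻¹) - 1‖ < 1 := by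
    intro x
    have h1 : i ((χ' (b x))⁻¹) - 1 = i ((χ' (b x))⁻¹ - 1) := by
      rw [map_sub, map_one]
    rw [h1, ← SSG.S.m2_lt i hloc.val, SSG.S.m2_comap_lt, map_sub, map_one, map_inv₀, hχ1]
    refine SSG.S.s4_root p hp V hV 1 _ ?_
    rw [inv_pow, inv_eq_one, pow_one]
    exact hD.cl.zet x
  have h5 := fun x => q8_class hG hin hm hχG h3 hA hN hNn (hD.cl.cop x)
    (show mK K M * f * b x ≤ f from Ideal.mul_le_left.trans Ideal.mul_le_right) co hco (hR x) (hH x)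
  have hq : 0 < ‖(p : ℂ_[p])‖ ^ (4 * (m + 1) - D) := pow_pos (norm_pos_iff.2 hpi) _
  have hlt : ‖i (S' ^ 2)‖ < ‖i ((p : Ω) ^ (4 * (m + 1) - D))‖ := by
    rw [map_pow, map_pow, map_natCast, norm_pow, norm_pow, hiS]
    exact q5_sq _ _ hq fun x _ => w6_term (hX x) (hY x) (h5 x)
  have hval : V.valuation (j ((p : Ω) ^ (4 * (m + 1) - D))) = V.valuation (p : ℂ) ^ (4 * (m + 1) - D) := by
    rw [map_pow, map_natCast, map_pow]
  refine ⟨δ, D, by omega, hδ0, hδV, ?_, ?_⟩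
  · unfold pI at hNn
    exact hNn
  · rw [← hjS, ← hval, ← map_pow, ← map_pow]
    have h1 := (SSG.S.m2_comap_le j V ((p : Ω) ^ (4 * (m + 1) - D)) (S' ^ 2)).not.1
      ((SSG.S.m2_le i hloc.val _ _).not.2 (not_le.2 hlt))
    rw [not_le] at h1
    exact h1

end SSW
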