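import Mathlib
import Pool.Agent.Lib.SSR.T8
import Pool.Agent.Lib.SSW.W5
import Pool.Agent.Lib.SSW.W6

/-! # SSW, W8: the L-value of a twist by a wild character above an inert prime is smaller than its conductor normalisation -/

open NumberField IsDedekindDomain WeierstrassCurve

namespace SSW

open H55N H55P SSG SSG.E SSR
open H55Z (HasL)

theorem w8_s {Γ : Type} [LinearOrderedCommGroupWithZero Γ] {P D x : Γ} {g d : ℕ} (hP : P ≠ 0) (hd : d ≤ 2 * g)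
    (h : (D * (P ^ (2 * g) * x)) ^ 2 < P ^ (4 * g - d)) : x ^ 4 * (D ^ 4 * P ^ (2 * d)) < 1 := by
  have hPd : P ^ d ≠ 0 := pow_ne_zero _ hP
  have e1 : P ^ (4 * g - d) = P ^ (4 * g) / P ^ d := by
    rw [eq_div_iff hPd, ← pow_add]
    congr 1
    omega
  have h0 : 0 < P ^ (4 * g) / P ^ d := zero_lt_iff.2 (div_ne_zero (pow_ne_zero _ hP) hPd)
  have e2 : (D * (P ^ (2 * g) * x)) ^ 2 = (D ^ 2 * x ^ 2 * P ^ d) * (P ^ (4 * g) / P ^ d) := by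
    have e3 : (P ^ (2 * g)) ^ 2 = P ^ (4 * g) := by
      rw [← pow_mul]
      congr 1
      ring
    rw [mul_pow, mul_pow, e3]
    field_simp
  rw [e1, e2] at h
  have h1 : D ^ 2 * x ^ 2 * P ^ d < 1 := by
    by_contra hc
    rw [not_lt] at hc
    have h2 : 1 * (P ^ (4 * g) / P ^ d) ≤ (D ^ 2 * x ^ 2 * P ^ d) * (P ^ (4 * g) / P ^ d) := mul_le_mul_left hc _
    rw [one_mul] at h2
    exact absurd h (not_lt.2 h2)
  have e4 : x ^ 4 * (D ^ 4 * P ^ (2 * d)) = (D ^ 2 * x ^ 2 * P ^ d) ^ 2 := by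
    have e5 : P ^ (2 * d) = (P ^ d) ^ 2 := by
      rw [← pow_mul, mul_comm]
    rw [e5]
    have e6 : ∀ a b c : Γ, a ^ 4 * (b ^ 4 * c ^ 2) = (b ^ 2 * a ^ 2 * c) ^ 2 := by
      intro a b c
      rw [mul_pow, mul_pow, ← pow_mul, ← pow_mul]
      rw [mul_comm (b ^ (2 * 2)), mul_assoc]
    exact e6 x D (P ^ d)
  rw [e4]
  exact pow_lt_one₀ zero_le h1 two_ne_zero

variable {F : Type} [Field F] [NumberField F] [IQ F] {K : Type} [Field K] [NumberField K] [Algebra F K]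

theorem w8_tw {p : ℕ} [Fact p.Prime] {M : Ideal (𝓞 F)} {ψ : Ideal (𝓞 F) →*₀ 𝓞 F} {Om : ℂ} (hS : SCtx p M ψ Om)
    (V : ValuationSubring ℂ) (hV : V.valuation (p : ℂ) < 1) (hNT : NTP K p M ψ V)
    {f : Ideal (𝓞 K)} {R : Finset (HeightOneSpectrum (𝓞 K))} {n : HeightOneSpectrum (𝓞 K) → ℕ} {χ : Ideal (𝓞 K) →*₀ ℂ}
    (hχ : PCN p f R n χ) (h3 : ∃ v ∈ R, 3 ≤ n v) :
    ∃ vχ : ℂ, HasL (PsiP K ψ * χ : Ideal (𝓞 K) →*₀ ℂ) vχ ∧
      V.valuation (vχ / Om ^ Module.finrank F K) ^ 4 *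
        (V.valuation ((NumberField.discr K : ℤ) : ℂ) * V.valuation ((Ideal.absNorm (∏ v ∈ R, v.asIdeal ^ n v) : ℕ) : ℂ)) < 1 := by
  classical
  have hp : p.Prime := Fact.out
  obtain ⟨m, hm⟩ : ∃ m, Module.finrank F K = m + 1 :=
    ⟨Module.finrank F K - 1, (Nat.sub_add_cancel Module.finrank_pos).symm⟩
  have hRne : R.Nonempty := by
    obtain ⟨v, hv, -⟩ := h3
    exact ⟨v, hv⟩
  obtain ⟨ι, hι, b, c₀, T, κ, c, q, val, hD⟩ := w4_dat hS hV hNT hm hχ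
  have hex : ∀ x, ∃ S : Finset (𝓞 K), RpU (mK K M * f * b x) (c₀ x) (p ^ 2) S := fun x =>
    SSG.S.exists_RpU _ (mul_ne_zero hD.cl.bot (hD.cl.cd.ne x)) _ _ (pow_ne_zero _ hp.ne_zero)
  choose S hSr using hex
  obtain ⟨Bχ, vχ, hL, hB, e1⟩ := w5_tw hS.hecke hS.cop hm hV hχ hRne hD S hSr
  obtain ⟨δ, d, hd, hδ0, hδV, hN, h1⟩ := w6_val hS hV hm hχ h3 hD S hSr
  have hpC : (p : ℂ) ≠ 0 := Nat.cast_ne_zero.2 hp.ne_zero
  have hP : V.valuation (p : ℂ) ≠ 0 := (Valuation.ne_zero_iff _).2 hpC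
  obtain ⟨s, hs⟩ : ∃ s, s = δ / Om ^ (m + 1) * (∑ i, κ i * (χ (b i))⁻¹ * (Ideal.absNorm (b i) : ℂ) *
      ∑ a ∈ S i, χ (Ideal.span {a}) * val i a) := ⟨_, rfl⟩
  rw [← hs] at h1
  have hsV : V.valuation s = V.valuation δ * (V.valuation (p : ℂ) ^ (2 * (m + 1)) * V.valuation (vχ / Om ^ (m + 1))) := by
    have h3 : s = δ * ((p : ℂ) ^ (2 * (m + 1)) * (Bχ * (vχ / Om ^ (m + 1)))) := by
      have h4 : Bχ * vχ = (((p : ℂ) ^ 2)⁻¹) ^ (m + 1) * ∑ i, κ i * (χ (b i))⁻¹ * (Ideal.absNorm (b i) : ℂ) *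
          ∑ a ∈ S i, χ (Ideal.span {a}) * val i a := by
        rw [e1, Finset.mul_sum]
        refine Finset.sum_congr rfl fun x _ => ?_
        ring
      have h5 : (∑ i, κ i * (χ (b i))⁻¹ * (Ideal.absNorm (b i) : ℂ) * ∑ a ∈ S i, χ (Ideal.span {a}) * val i a) =
          (p : ℂ) ^ (2 * (m + 1)) * (Bχ * vχ) := by
        have h6 : (((p : ℂ) ^ 2)⁻¹) ^ (m + 1) = ((p : ℂ) ^ (2 * (m + 1)))⁻¹ := by
          rw [inv_pow, ← pow_mul]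
        rw [h4, h6, mul_inv_cancel_left₀ (pow_ne_zero _ hpC)]
      rw [hs, h5]
      ring
    rw [h3, map_mul, map_mul, map_mul, hB, one_mul, map_pow]
  rw [hsV] at h1
  have h4 := w8_s hP hd h1
  refine ⟨vχ, hL, ?_⟩
  rw [hm, hN, ← hδV]
  push_cast
  rw [map_pow]
  exact h4

end SSW
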