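import Mathlib
import Pool.Agent.Lib.SSR.ND

/-! # SSW, W9: the break of a cyclic step of degree p is less than twice the ramification index of p -/

open NumberField IsDedekindDomain
open scoped nonZeroDivisors

namespace SSW

open SSR

variable {N : Type} [Field N] [NumberField N] {L : Type} [Field L] [NumberField L] [Algebra N L]

theorem w9_mem {p : ℕ} (hn : Module.finrank N L = p) {J : Ideal (𝓞 N)} (hJ : J ≠ ⊥)
    (h : differentIdeal (𝓞 N) (𝓞 L) ≤ J.map (algebraMap (𝓞 N) (𝓞 L))) : (p : 𝓞 N) ∈ J := by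
  have hinj : Function.Injective (algebraMap (𝓞 N) (𝓞 L)) := FaithfulSMul.algebraMap_injective _ _
  have hm : J.map (algebraMap (𝓞 N) (𝓞 L)) ≠ ⊥ := fun h0 => hJ ((Ideal.map_eq_bot_iff_of_injective hinj).1 h0)
  have hJ0 : (J : FractionalIdeal (𝓞 N)⁰ N) ≠ 0 := FractionalIdeal.coeIdeal_ne_zero.2 hJ
  have hm0 : ((J.map (algebraMap (𝓞 N) (𝓞 L)) : Ideal (𝓞 L)) : FractionalIdeal (𝓞 L)⁰ L) ≠ 0 := FractionalIdeal.coeIdeal_ne_zero.2 hm
  rw [differentialIdeal_le_iff (K := N) (L := L) hm] at h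
  have key : ∀ a ∈ (J : FractionalIdeal (𝓞 N)⁰ N)⁻¹, (p : N) * a ∈ (1 : FractionalIdeal (𝓞 N)⁰ N) := by
    intro a ha
    rw [FractionalIdeal.mem_inv_iff hJ0] at ha
    have h1 : algebraMap N L a ∈ ((J.map (algebraMap (𝓞 N) (𝓞 L)) : Ideal (𝓞 L)) : FractionalIdeal (𝓞 L)⁰ L)⁻¹ := by
      rw [FractionalIdeal.mem_inv_iff hm0]
      intro y hy
      rw [FractionalIdeal.mem_coeIdeal] at hy
      obtain ⟨y', hy', rfl⟩ := hy
      refine Submodule.span_induction (p := fun y' _ => algebraMap N L a * algebraMap (𝓞 L) L y' ∈ (1 : FractionalIdeal (𝓞 L)⁰ L))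
        ?_ ?_ ?_ ?_ hy'
      · rintro _ ⟨j, hj, rfl⟩
        have h2 := ha (algebraMap (𝓞 N) N j) (FractionalIdeal.mem_coeIdeal_of_mem _ hj)
        obtain ⟨b, hb⟩ := (FractionalIdeal.mem_one_iff _).1 h2
        refine (FractionalIdeal.mem_one_iff _).2 ⟨algebraMap (𝓞 N) (𝓞 L) b, ?_⟩
        have e1 : algebraMap (𝓞 L) L (algebraMap (𝓞 N) (𝓞 L) j) = algebraMap N L (algebraMap (𝓞 N) N j) := rfl
        have e2 : algebraMap (𝓞 L) L (algebraMap (𝓞 N) (𝓞 L) b) = algebraMap N L (algebraMap (𝓞 N) N b) := rfl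
        rw [e1, e2, hb, map_mul]
      · rw [map_zero, mul_zero]
        exact (FractionalIdeal.mem_one_iff _).2 ⟨0, map_zero _⟩
      · intro x y _ _ hx hy
        rw [map_add, mul_add]
        obtain ⟨x', hx'⟩ := (FractionalIdeal.mem_one_iff _).1 hx
        obtain ⟨y', hy'⟩ := (FractionalIdeal.mem_one_iff _).1 hy
        exact (FractionalIdeal.mem_one_iff _).2 ⟨x' + y', by rw [map_add, hx', hy']⟩
      · intro c x _ hx
        obtain ⟨x', hx'⟩ := (FractionalIdeal.mem_one_iff _).1 hx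
        refine (FractionalIdeal.mem_one_iff _).2 ⟨c * x', ?_⟩
        rw [smul_eq_mul, map_mul, map_mul, hx']
        ring
    have h3 := h (Submodule.mem_map_of_mem (f := (Algebra.trace N L).restrictScalars (𝓞 N)) h1)
    have e3 : ((Algebra.trace N L).restrictScalars (𝓞 N)) (algebraMap N L a) = (p : N) * a := by
      rw [LinearMap.restrictScalars_apply, Algebra.trace_algebraMap, hn, nsmul_eq_mul]
    rw [e3] at h3
    obtain ⟨b, hb⟩ := Submodule.mem_one.1 h3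
    exact (FractionalIdeal.mem_one_iff _).2 ⟨b, hb⟩
  have h4 : FractionalIdeal.spanSingleton (𝓞 N)⁰ (p : N) * (J : FractionalIdeal (𝓞 N)⁰ N)⁻¹ ≤ 1 := by
    rw [FractionalIdeal.spanSingleton_mul_le_iff]
    exact key
  have h5 : FractionalIdeal.spanSingleton (𝓞 N)⁰ (p : N) ≤ (J : FractionalIdeal (𝓞 N)⁰ N) := by
    calc FractionalIdeal.spanSingleton (𝓞 N)⁰ (p : N)
        = (FractionalIdeal.spanSingleton (𝓞 N)⁰ (p : N) * (J : FractionalIdeal (𝓞 N)⁰ N)⁻¹) * (J : FractionalIdeal (𝓞 N)⁰ N) := by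
          rw [mul_assoc, inv_mul_cancel₀ hJ0, mul_one]
      _ ≤ 1 * (J : FractionalIdeal (𝓞 N)⁰ N) := mul_le_mul_left h4 _
      _ = J := one_mul _
  rw [FractionalIdeal.spanSingleton_le_iff_mem, FractionalIdeal.mem_coeIdeal] at h5
  obtain ⟨x, hx, hxp⟩ := h5
  have e4 : x = (p : 𝓞 N) := by
    apply FaithfulSMul.algebraMap_injective (𝓞 N) N
    rw [hxp, map_natCast]
  rw [← e4]
  exact hx

/-- (p - 1) t ≤ p e. -/
theorem w9_bd {p : ℕ} (hp : p.Prime) (hn : Module.finrank N L = p) {v : HeightOneSpectrum (𝓞 N)} {w : HeightOneSpectrum (𝓞 L)} {t : ℕ}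
    (h : TRam p v w t) : (p - 1) * t ≤ p * ex v (Ideal.span {(p : 𝓞 N)}) := by
  by_contra hc
  rw [not_le] at hc
  have hp0 : (Ideal.span {(p : 𝓞 N)}) ≠ ⊥ := by
    rw [Ne, Ideal.span_singleton_eq_bot]
    exact Nat.cast_ne_zero.2 hp.ne_zero
  set e := ex v (Ideal.span {(p : 𝓞 N)}) with he
  have h1 : differentIdeal (𝓞 N) (𝓞 L) ≤ (v.asIdeal ^ (e + 1)).map (algebraMap (𝓞 N) (𝓞 L)) := by
    rw [Ideal.map_pow, h.map, ← pow_mul, le_iff_ex w different_ne, h.dif, mul_add, mul_one, mul_add, mul_one]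
    have h2 := hp.one_lt
    omega
  have h2 := w9_mem hn (pow_ne_zero _ v.ne_bot) h1
  have h3 : Ideal.span {(p : 𝓞 N)} ≤ v.asIdeal ^ (e + 1) := (Ideal.span_singleton_le_iff_mem _).2 h2
  rw [le_iff_ex v hp0] at h3
  omega

/-- t + 1 ≤ 2 e for p ≥ 5. -/
theorem w9_t {p : ℕ} (hp : p.Prime) (h5 : 5 ≤ p) (hn : Module.finrank N L = p) {v : HeightOneSpectrum (𝓞 N)}
    {w : HeightOneSpectrum (𝓞 L)} {t : ℕ} (h : TRam p v w t) : t + 1 ≤ 2 * ex v (Ideal.span {(p : 𝓞 N)}) := by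
  have h1 := w9_bd hp hn h
  have hp0 : (Ideal.span {(p : 𝓞 N)}) ≠ ⊥ := by
    rw [Ne, Ideal.span_singleton_eq_bot]
    exact Nat.cast_ne_zero.2 hp.ne_zero
  have h2 : 1 ≤ ex v (Ideal.span {(p : 𝓞 N)}) := by
    rw [← le_iff_ex v hp0, pow_one, Ideal.span_singleton_le_iff_mem]
    exact h.mem
  obtain ⟨e, he⟩ : ∃ e, ex v (Ideal.span {(p : 𝓞 N)}) = e + 1 := ⟨_, (Nat.sub_add_cancel h2).symm⟩
  obtain ⟨q, hq⟩ : ∃ q, p = q + 5 := ⟨p - 5, (Nat.sub_add_cancel h5).symm⟩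
  rw [he] at h1 ⊢
  rw [hq] at h1
  have h3 : q + 5 - 1 = q + 4 := by omega
  rw [h3] at h1
  by_contra hc
  have hc' : 2 * e + 2 ≤ t := by omega
  have h4 : (q + 4) * (2 * e + 2) ≤ (q + 4) * t := Nat.mul_le_mul_left _ hc'
  have h6 := h4.trans h1
  have h7 : (q + 4) * (2 * e + 2) = (q + 5) * (e + 1) + (q + 3) * (e + 1) := by ring
  rw [h7] at h6
  have h8 : 0 < (q + 3) * (e + 1) := Nat.mul_pos (by omega) (by omega)
  omega

/-- p lies in the power v^((t + 2) / 2). -/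
theorem w9_v {p : ℕ} (hp : p.Prime) (h5 : 5 ≤ p) (hn : Module.finrank N L = p) {v : HeightOneSpectrum (𝓞 N)}
    {w : HeightOneSpectrum (𝓞 L)} {t : ℕ} (h : TRam p v w t) : (p : 𝓞 N) ∈ v.asIdeal ^ ((t + 1 + 1) / 2) := by
  have h1 := w9_t hp h5 hn h
  have hp0 : (Ideal.span {(p : 𝓞 N)}) ≠ ⊥ := by
    rw [Ne, Ideal.span_singleton_eq_bot]
    exact Nat.cast_ne_zero.2 hp.ne_zero
  rw [← Ideal.span_singleton_le_iff_mem, le_iff_ex v hp0]
  omega

/-- The product over a finite set. -/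
theorem w9_prod {p : ℕ} {R : Finset (HeightOneSpectrum (𝓞 N))} (c : HeightOneSpectrum (𝓞 N) → ℕ)
    (h : ∀ v ∈ R, (p : 𝓞 N) ∈ v.asIdeal ^ c v) : (p : 𝓞 N) ∈ ∏ v ∈ R, v.asIdeal ^ c v := by
  rw [← Ideal.span_singleton_le_iff_mem, ← Ideal.dvd_iff_le]
  refine Finset.prod_dvd_of_coprime ?_ ?_
  · intro v hv v' hv' hne
    refine IsCoprime.pow ?_
    have hm1 := v.isMaximal
    have hm2 := v'.isMaximal
    exact Ideal.isCoprime_of_isMaximal fun h => hne (HeightOneSpectrum.ext h)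
  · intro v hv
    rw [Ideal.dvd_iff_le, Ideal.span_singleton_le_iff_mem]
    exact h v hv

end SSW
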