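import Mathlib
import Pool.Agent.Lib.SSU.A3
import Pool.Agent.Lib.SSW.W8
import Pool.Agent.Lib.SSW.W9
import Pool.Agent.Lib.SSW.W10

/-! # SSW, W11: one cyclic step of degree p with some break at least 2 above p, p inert in F: the L-value is not a unit -/

open NumberField IsDedekindDomain

namespace SSW

open H55N H55P SSR SSU
open H55R (es)
open H35M (LVO LVOi fT)
open H41D (vN vNc)

variable {F : Type} [Field F] [NumberField F] [IQ F] {p : ℕ} {M : Ideal (𝓞 F)} {ψ : Ideal (𝓞 F) →*₀ 𝓞 F} {Om : ℂ}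

section step

variable [Fact p.Prime] (hS : SCtx p M ψ Om) {V : ValuationSubring ℂ} (hV : V.valuation (p : ℂ) < 1)

include hV

/-- The relative norm of the different of K'/F. -/
theorem w11_diff (K K' : Type) [Field K] [NumberField K] [Algebra F K] [Field K'] [NumberField K'] [Algebra F K'] [Algebra K K']
    [IsScalarTower F K K'] [IsGalois K K'] (hn : Module.finrank K K' = p) {R : Finset (HeightOneSpectrum (𝓞 K))}
    (hR : ∀ v, v ∈ R ↔ (p : 𝓞 K) ∈ v.asIdeal ∧ es K K' v ≠ 1) {t : HeightOneSpectrum (𝓞 K) → ℕ}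
    (hT : ∀ v ∈ R, ∃ w : HeightOneSpectrum (𝓞 K'), TRam p v w (t v)) :
    vN F V (differentIdeal (𝓞 F) (𝓞 K')) =
      (vN F V (∏ v ∈ R, v.asIdeal ^ (t v + 1))) ^ (p - 1) * vN F V (differentIdeal (𝓞 F) (𝓞 K)) ^ p := by
  have hp : p.Prime := Fact.out
  have hx0 : ((p : ℕ) : 𝓞 K) ≠ 0 := Nat.cast_ne_zero.2 hp.ne_zero
  obtain ⟨C, hC, hD⟩ := diff_stepX K K' hp hn hx0 (t := t) hR hT
  have he : eF F ((p : ℕ) : 𝓞 F) = (p : ℂ) := map_natCast _ _
  have hC1 : vN F V C = 1 := by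
    refine H41D.vN_cop V (π := ((p : ℕ) : 𝓞 F)) (by rw [he]; exact hV) ?_
    rw [map_natCast]
    exact hC
  have hfT : fT R (fun v => t v + 1) = ∏ v ∈ R, v.asIdeal ^ (t v + 1) := rfl
  rw [H41D.vN_diff_tower (K := K), hn, hD, H41D.vN_mul, H41D.vN_pow, hfT, hC1, mul_one]

include hS

/-- One step with a break at least 2. -/
theorem stepW (K K' : Type) [Field K] [NumberField K] [Algebra F K] [Field K'] [NumberField K'] [Algebra F K'] [Algebra K K']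
    [IsScalarTower F K K'] [IsGalois K K'] (hn : Module.finrank K K' = p) (hNT : NTP K p M ψ V) {t : HeightOneSpectrum (𝓞 K) → ℕ}
    (hT : ∀ v : HeightOneSpectrum (𝓞 K), es K K' v ≠ 1 → (p : 𝓞 K) ∈ v.asIdeal → ∃ w : HeightOneSpectrum (𝓞 K'), TRam p v w (t v))
    {v₀ : HeightOneSpectrum (𝓞 K)} (h1 : es K K' v₀ ≠ 1) (h2 : (p : 𝓞 K) ∈ v₀.asIdeal) (h3 : 2 ≤ t v₀) :
    ¬ LVO F V Om (PsiP K' ψ) := by
  have hp : p.Prime := Fact.out
  have hI := hS.inert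
  have hre : IsEmpty (K →+* ℝ) := H35M.sx3_real F K
  obtain ⟨f, R, ρ, hfp, hfv, hR, hρ⟩ := c2_rec hp hn t hT hre
  have hTR : ∀ v ∈ R, ∃ w : HeightOneSpectrum (𝓞 K'), TRam p v w (t v) := fun v hv => hT v ((hR v).1 hv).2 ((hR v).1 hv).1
  have hf : PCN p f R (fun v => t v + 1) ρ := by
    refine w10_pcn hρ hfp (fun v hv => ((hR v).1 hv).1) (fun v hv => ?_) (w9_prod _ fun v hv => ?_)
    · obtain ⟨w, hw⟩ := hTR v hv
      exact hw.pos
    · obtain ⟨w, hw⟩ := hTR v hv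
      exact w9_v hp hS.five hn hw
  have hs : SplitP K K' p ρ := c3_split p hp hn _ ρ hρ
  obtain ⟨Λ₁, ha1, hs1, hi1⟩ := tw_base hS V hV hNT
  have hv0 : ∃ v ∈ R, 3 ≤ (fun v => t v + 1) v := ⟨v₀, (hR v₀).2 ⟨h2, h1⟩, by
    show 3 ≤ t v₀ + 1
    omega⟩
  have htw : ∀ j : ℕ, ∃ Λ : ℂ → ℂ, AnalyticOnNhd ℂ Λ {s | 1 / 2 < s.re} ∧
      (∀ s : ℂ, 3 / 2 < s.re → HasSum (tm (PsiP K ψ * chp ρ j : Ideal (𝓞 K) →*₀ ℂ) s) (Λ s)) ∧
      V.valuation (Λ 1 / Om ^ Module.finrank F K) ^ 4 *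
        (V.valuation ((NumberField.discr K : ℤ) : ℂ) * V.valuation ((Ideal.absNorm (∏ v ∈ R, v.asIdeal ^ (t v + 1)) : ℕ) : ℂ)) < 1 := by
    intro j
    obtain ⟨vχ, ⟨Λ, hΛa, hΛs, hΛ1⟩, hlt⟩ := w8_tw hS V hV hNT (w10_chp hf j) hv0
    rw [← hΛ1] at hlt
    exact ⟨Λ, hΛa, hΛs, hlt⟩
  choose Λ hΛa hΛs hΛi using htw
  set n := Module.finrank F K with hnd
  set μ := vN F V (differentIdeal (𝓞 F) (𝓞 K)) with hμ
  set ν := vN F V (∏ v ∈ R, v.asIdeal ^ (t v + 1)) with hν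
  have hdiff := w11_diff (F := F) hV K K' hn hR hTR
  rw [← hμ, ← hν] at hdiff
  -- the twists
  have hy : ∀ j, V.valuation (Λ j 1 / Om ^ n) ^ 2 * μ * ν < 1 := by
    intro j
    have h4 := hΛi j
    have h5 : V.valuation ((Ideal.absNorm (∏ v ∈ R, v.asIdeal ^ (t v + 1)) : ℕ) : ℂ) = ν ^ 2 := by
      rw [H41D.val_absNorm (F := F), inert_vN V hp hI hV, ← sq]
    rw [h5, ← mul_assoc, a3_sq (F := F) hp hI hV, ← mul_pow] at h4
    exact (pow_lt_one_iff_of_nonneg zero_le two_ne_zero).1 h4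
  have hx1 : V.valuation (Λ₁ 1 / Om ^ n) ^ 2 * μ ≤ 1 := by
    rw [a3_sq (F := F) hp hI hV] at hi1
    exact (pow_le_one_iff_of_nonneg zero_le two_ne_zero).1 hi1
  -- the value over K'
  have hΦa : AnalyticOnNhd ℂ (fun s => Λ₁ s * ∏ j ∈ Finset.range (p - 1), Λ j s) {s | 1 / 2 < s.re} := fun s hs' =>
    (ha1 s hs').mul (Finset.analyticAt_fun_prod _ fun j _ => hΛa j s hs')
  have hχn : ∀ (j : ℕ) (a : Ideal (𝓞 K)), ‖chp ρ j a‖ ≤ 1 := fun j a => w1_norm hp (w10_chp hf j) a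
  have hΦs : ∀ s : ℂ, 3 / 2 < s.re → HasSum (tm (PsiP K' ψ) s) (Λ₁ s * ∏ j ∈ Finset.range (p - 1), Λ j s) := fun s hs' =>
    step_prodC K K' hS.hecke p hp ρ hχn hs Λ₁ hs1 Λ hΛs s hs'
  have h5 : Om ^ Module.finrank F K' = Om ^ n * ∏ j ∈ Finset.range (p - 1), Om ^ n := by
    rw [← Module.finrank_mul_finrank F K K', hn, pow_mul, Finset.prod_const, Finset.card_range,
      ← pow_succ', Nat.sub_add_cancel hp.one_le]
  have hval : V.valuation ((Λ₁ 1 * ∏ j ∈ Finset.range (p - 1), Λ j 1) / Om ^ Module.finrank F K') ^ 2 *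
      vN F V (differentIdeal (𝓞 F) (𝓞 K')) =
      (V.valuation (Λ₁ 1 / Om ^ n) ^ 2 * μ) * ∏ j ∈ Finset.range (p - 1), (V.valuation (Λ j 1 / Om ^ n) ^ 2 * μ * ν) := by
    rw [h5, mul_div_mul_comm, ← Finset.prod_div_distrib, map_mul, map_prod, hdiff, Finset.prod_mul_distrib, Finset.prod_mul_distrib,
      Finset.prod_const, Finset.prod_const, Finset.card_range, Finset.prod_pow, mul_pow]
    have e : μ ^ p = μ * μ ^ (p - 1) := by
      rw [← pow_succ', Nat.sub_add_cancel hp.one_le]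
    rw [e]
    simp only [mul_assoc, mul_left_comm, mul_comm]
  rw [a3_lvo hΦa hΦs, hval]
  have hlt : ∏ j ∈ Finset.range (p - 1), (V.valuation (Λ j 1 / Om ^ n) ^ 2 * μ * ν) < 1 := by
    obtain ⟨q, hq⟩ : ∃ q, p - 1 = q + 1 := ⟨p - 2, by
      have := hp.two_le
      omega⟩
    rw [hq, Finset.prod_range_succ]
    exact mul_lt_one_of_nonneg_of_lt_one_right (Finset.prod_le_one' fun j _ => (hy j).le) zero_le (hy q)
  exact (mul_lt_one_of_nonneg_of_lt_one_right hx1 zero_le hlt).ne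

end step

end SSW
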