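import Mathlib
import Pool.Agent.Lib.SSW.DD
import Pool.Agent.Lib.SSU.A4

/-! # SSW, WA1: exponents of the different: one step, towers (types) -/

open NumberField IsDedekindDomain

namespace SSW

open H55P SSR H35M
open H55R (es)

section types

/-- The lower bound. -/
def LBT (p : ℕ) (N L : Type) [Field N] [NumberField N] [Field L] [NumberField L] [Algebra N L] : Prop :=
  ∀ Q : Ideal (𝓞 L), Q.IsPrime → (p : 𝓞 L) ∈ Q →
    2 * (Q.ramificationIdx (𝓞 N) - 1) ≤ multiplicity Q (differentIdeal (𝓞 N) (𝓞 L))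

/-- The equality. -/
def D2T (p : ℕ) (N L : Type) [Field N] [NumberField N] [Field L] [NumberField L] [Algebra N L] : Prop :=
  ∀ Q : Ideal (𝓞 L), Q.IsPrime → (p : 𝓞 L) ∈ Q →
    multiplicity Q (differentIdeal (𝓞 N) (𝓞 L)) = 2 * (Q.ramificationIdx (𝓞 N) - 1)

variable {N : Type} [Field N] [NumberField N] {L : Type} [Field L] [NumberField L] [Algebra N L]

theorem wa1_hos {p : ℕ} (hp : p.Prime) (Q : Ideal (𝓞 L)) (hQ : Q.IsPrime) (hpQ : (p : 𝓞 L) ∈ Q) :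
    ∃ Q' : HeightOneSpectrum (𝓞 L), Q'.asIdeal = Q := by
  refine ⟨⟨Q, hQ, ?_⟩, rfl⟩
  rintro rfl
  rw [Ideal.mem_bot] at hpQ
  exact hp.ne_zero (by exact_mod_cast hpQ)

theorem wa1_under (Q : HeightOneSpectrum (𝓞 L)) : ∃ v : HeightOneSpectrum (𝓞 N), Q.asIdeal.under (𝓞 N) = v.asIdeal := by
  have hQp := Q.isPrime
  refine ⟨⟨Q.asIdeal.under (𝓞 N), inferInstance, fun h => Q.ne_bot ?_⟩, rfl⟩
  exact Ideal.eq_bot_of_comap_eq_bot (R := 𝓞 N) (I := Q.asIdeal) h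

theorem wa1_mem {p : ℕ} {Q : HeightOneSpectrum (𝓞 L)} {v : HeightOneSpectrum (𝓞 N)} (h : Q.asIdeal.under (𝓞 N) = v.asIdeal) :
    (p : 𝓞 N) ∈ v.asIdeal ↔ (p : 𝓞 L) ∈ Q.asIdeal := by
  rw [← h]
  show algebraMap (𝓞 N) (𝓞 L) (p : 𝓞 N) ∈ Q.asIdeal ↔ _
  rw [map_natCast]

theorem wa1_tot {p : ℕ} (hp : p.Prime) {v : HeightOneSpectrum (𝓞 N)} {w Q : HeightOneSpectrum (𝓞 L)} {t : ℕ} (ht : TRam p v w t)
    (hQ : Q.asIdeal.under (𝓞 N) = v.asIdeal) : Q = w := by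
  have hm := w.isMaximal
  have hQp := Q.isPrime
  have h1 : w.asIdeal ^ p ≤ Q.asIdeal := by
    rw [← ht.map, ← hQ]
    exact Ideal.map_comap_le
  exact (HeightOneSpectrum.ext (hm.eq_of_le hQp.ne_top (hQp.le_of_pow_le h1))).symm

theorem wa1_idx {p : ℕ} {v : HeightOneSpectrum (𝓞 N)} {w : HeightOneSpectrum (𝓞 L)} {t : ℕ} (hp : p.Prime) (ht : TRam p v w t) :
    w.asIdeal.ramificationIdx (𝓞 N) = p := by
  have hw0 : v.asIdeal.map (algebraMap (𝓞 N) (𝓞 L)) ≠ ⊥ := by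
    rw [ht.map]
    exact pow_ne_zero _ w.ne_bot
  have hwp := w.isPrime
  have hvw : w.asIdeal.LiesOver v.asIdeal := by
    refine ⟨v.isMaximal.eq_of_le (Ideal.IsPrime.ne_top (Ideal.IsPrime.under (𝓞 N) w.asIdeal)) ?_⟩
    refine Ideal.le_comap_of_map_le ?_
    rw [ht.map]
    exact Ideal.pow_le_self hp.ne_zero
  rw [Ideal.IsDedekindDomain.ramificationIdx_eq_multiplicity v.asIdeal w.asIdeal hw0, ht.map]
  exact multiplicity_pow_self_of_prime w.prime p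

theorem wa1_es [IsGalois N L] {v : HeightOneSpectrum (𝓞 N)} {Q : HeightOneSpectrum (𝓞 L)} (hQ : Q.asIdeal.under (𝓞 N) = v.asIdeal)
    (h : es N L v = 1) : Q.asIdeal.ramificationIdx (𝓞 N) = 1 ∧ multiplicity Q.asIdeal (differentIdeal (𝓞 N) (𝓞 L)) = 0 := by
  have hp := Q.isPrime
  have h1 := sy2_unr v Q hQ h
  refine ⟨?_, multiplicity_eq_zero.2 fun h2 => h1 (Ideal.le_of_dvd h2)⟩
  have hQv : Q.asIdeal.LiesOver v.asIdeal := ⟨hQ.symm⟩
  have h2 : es N L v = Q.asIdeal.ramificationIdx (𝓞 N) := by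
    have := v.isMaximal
    exact Ideal.ramificationIdxIn_eq_ramificationIdx v.asIdeal Q.asIdeal (L ≃ₐ[N] L)
  rw [← h2, h]

/-- One step: the lower bound. -/
theorem wa1_lb [IsGalois N L] {p : ℕ} (hp : p.Prime) (hn : Module.finrank N L = p) : LBT p N L := by
  intro Q hQ hpQ
  obtain ⟨Q, rfl⟩ := wa1_hos hp Q hQ hpQ
  obtain ⟨v, hv⟩ := wa1_under (N := N) Q
  by_cases hes : es N L v = 1
  · rw [(wa1_es hv hes).1]
    exact Nat.zero_le _
  · obtain ⟨t, w, ht⟩ := exists_TRam hp hn v hes ((wa1_mem hv).2 hpQ)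
    obtain rfl := wa1_tot hp ht hv
    have h1 : ex Q (differentIdeal (𝓞 N) (𝓞 L)) = (p - 1) * (t + 1) := ht.dif
    unfold ex at h1
    rw [wa1_idx hp ht, h1, mul_comm]
    exact Nat.mul_le_mul_left _ (by have := ht.pos; omega)

/-- One step: the equality. -/
theorem wa1_d2 [IsGalois N L] {p : ℕ} (hp : p.Prime) (hn : Module.finrank N L = p) :
    D2T p N L ↔ ∀ v : HeightOneSpectrum (𝓞 N), es N L v ≠ 1 → (p : 𝓞 N) ∈ v.asIdeal → ∃ w : HeightOneSpectrum (𝓞 L), TRam p v w 1 := by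
  constructor
  · intro h v hes hpv
    obtain ⟨t, w, ht⟩ := exists_TRam hp hn v hes hpv
    have hwv : w.asIdeal.under (𝓞 N) = v.asIdeal := by
      have h1 : v.asIdeal ≤ w.asIdeal.under (𝓞 N) := by
        refine Ideal.le_comap_of_map_le ?_
        rw [ht.map]
        exact Ideal.pow_le_self hp.ne_zero
      have hwp := w.isPrime
      exact (v.isMaximal.eq_of_le (Ideal.IsPrime.ne_top (Ideal.IsPrime.under (𝓞 N) w.asIdeal)) h1).symm
    have h2 := h w.asIdeal w.isPrime ((wa1_mem hwv).1 hpv)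
    have h1 : ex w (differentIdeal (𝓞 N) (𝓞 L)) = (p - 1) * (t + 1) := ht.dif
    unfold ex at h1
    rw [wa1_idx hp ht, h1, mul_comm] at h2
    have h3 := Nat.eq_of_mul_eq_mul_right (Nat.sub_pos_of_lt hp.one_lt) h2
    have h4 : t = 1 := by omega
    rw [h4] at ht
    exact ⟨w, ht⟩
  · intro h Q hQ hpQ
    obtain ⟨Q, rfl⟩ := wa1_hos hp Q hQ hpQ
    obtain ⟨v, hv⟩ := wa1_under (N := N) Q
    by_cases hes : es N L v = 1
    · obtain ⟨h1, h2⟩ := wa1_es hv hes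
      rw [h1, h2]
    · obtain ⟨w, ht⟩ := h v hes ((wa1_mem hv).2 hpQ)
      obtain rfl := wa1_tot hp ht hv
      have h1 : ex Q (differentIdeal (𝓞 N) (𝓞 L)) = (p - 1) * (1 + 1) := ht.dif
      unfold ex at h1
      rw [wa1_idx hp ht, h1, mul_comm]

/-- One step: the second ramification groups are trivial if the breaks are 1. -/
theorem wa1_g2 [IsGalois N L] {p : ℕ} (hp : p.Prime) (hn : Module.finrank N L = p) (h : D2T p N L) (Q : Ideal (𝓞 L)) (hQ : Q.IsPrime)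
    (hpQ : (p : 𝓞 L) ∈ Q) : G2 N Q := by
  classical
  intro s hs
  by_contra hs1
  obtain ⟨Q, rfl⟩ := wa1_hos hp Q hQ hpQ
  have hcard : Nat.card (L ≃ₐ[N] L) = p := by rw [IsGalois.card_aut_eq_finrank, hn]
  have hi : ∀ s : L ≃ₐ[N] L, ∃ n : ℕ, s ≠ 1 → Gp Q.asIdeal n s ∧ ¬ Gp Q.asIdeal (n + 1) s := by
    intro s
    by_cases h1 : s = 1
    · exact ⟨0, fun h2 => absurd h1 h2⟩
    · obtain ⟨n, hn⟩ := r4_ex Q s h1
      exact ⟨n, fun _ => hn⟩
  choose i hi using hi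
  have h1 := r4_hilb Q i hi
  -- every nontrivial element is a power of s, hence acts trivially modulo Q^3
  have hfin : Finite (L ≃ₐ[N] L) := inferInstance
  have hpos : Fact p.Prime := ⟨hp⟩
  have hgp : ∀ r : L ≃ₐ[N] L, Gp Q.asIdeal 3 r := by
    intro r
    have h2 : r ∈ Subgroup.zpowers s := by
      have h3 : Subgroup.zpowers s = ⊤ := by
        have h4 := Subgroup.card_subgroup_dvd_card (Subgroup.zpowers s)
        rw [hcard] at h4
        rcases (Nat.dvd_prime hp).1 h4 with h5 | h5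
        · exact absurd (Subgroup.zpowers_eq_bot.1 (Subgroup.card_eq_one.1 h5)) hs1
        · exact Subgroup.eq_top_of_card_eq _ (by rw [h5, hcard])
      rw [h3]
      exact Subgroup.mem_top _
    obtain ⟨n, hn⟩ := (mem_zpowers_iff_mem_range_orderOf (x := s) (y := r)).1 h2 |> Finset.mem_image.1
    obtain ⟨-, hn⟩ := hn
    rw [← hn]
    clear hn
    induction n with
    | zero =>
      intro x
      simp
    | succ n ih =>
      intro x
      have h4 : s ^ (n + 1) • x - x = ((s ^ n • (s • x)) - s • x) + (s • x - x) := by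
        rw [pow_succ, mul_smul]
        ring
      rw [h4]
      exact (Q.asIdeal ^ 3).add_mem (ih (s • x)) (hs x)
  have h3 : ∀ r : L ≃ₐ[N] L, r ≠ 1 → 3 ≤ i r := by
    intro r hr
    by_contra hc
    rw [not_le] at hc
    apply (hi r hr).2
    intro x
    exact Ideal.pow_le_pow_right (by omega) (hgp r x)
  have h4 : 3 * (p - 1) ≤ ∑ r ∈ Finset.univ.erase (1 : L ≃ₐ[N] L), i r := by
    have h5 : ∑ r ∈ Finset.univ.erase (1 : L ≃ₐ[N] L), 3 ≤ ∑ r ∈ Finset.univ.erase (1 : L ≃ₐ[N] L), i r :=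
      Finset.sum_le_sum fun r hr => h3 r (Finset.ne_of_mem_erase hr)
    rw [Finset.sum_const, Finset.card_erase_of_mem (Finset.mem_univ _), Finset.card_univ, ← Nat.card_eq_fintype_card, hcard,
      smul_eq_mul, mul_comm] at h5
    exact h5
  rw [← h1] at h4
  have h5 : ex Q (differentIdeal (𝓞 N) (𝓞 L)) = 2 * (Q.asIdeal.ramificationIdx (𝓞 N) - 1) := h _ hQ hpQ
  rw [h5] at h4
  have hle : Q.asIdeal.ramificationIdx (𝓞 N) ≤ p := by
    obtain ⟨v, hv⟩ := wa1_under (N := N) Q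
    by_cases hes : es N L v = 1
    · rw [(wa1_es hv hes).1]
      exact hp.one_le
    · obtain ⟨t, w, ht⟩ := exists_TRam hp hn v hes ((wa1_mem hv).2 hpQ)
      obtain rfl := wa1_tot hp ht hv
      rw [wa1_idx hp ht]
  have := hp.two_le
  omega

end types

section tower

variable {N : Type} [Field N] [NumberField N] {M : Type} [Field M] [NumberField M] {L : Type} [Field L] [NumberField L]
  [Algebra N M] [Algebra M L] [Algebra N L] [IsScalarTower N M L]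

theorem wa1_ar {a b c e f : ℕ} (he : 1 ≤ e) (hf : 1 ≤ f) (h : c = a + f * b) (ha : 2 * (f - 1) ≤ a) (hb : 2 * (e - 1) ≤ b) :
    2 * (e * f - 1) ≤ c ∧ (c = 2 * (e * f - 1) ↔ a = 2 * (f - 1) ∧ b = 2 * (e - 1)) := by
  obtain ⟨e, rfl⟩ : ∃ e', e = e' + 1 := ⟨e - 1, by omega⟩
  obtain ⟨f, rfl⟩ : ∃ f', f = f' + 1 := ⟨f - 1, by omega⟩
  simp only [Nat.add_sub_cancel] at ha hb ⊢
  obtain ⟨a, rfl⟩ := Nat.exists_eq_add_of_le ha
  obtain ⟨b, rfl⟩ := Nat.exists_eq_add_of_le hb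
  have h1 : (e + 1) * (f + 1) - 1 = e * f + e + f := by
    have : (e + 1) * (f + 1) = e * f + e + f + 1 := by ring
    omega
  rw [h1]
  have h2 : c = 2 * (e * f + e + f) + (a + (f + 1) * b) := by
    rw [h]
    ring
  refine ⟨by omega, ?_⟩
  constructor
  · intro h3
    have h4 : a + (f + 1) * b = 0 := by omega
    have h5 : (f + 1) * b = 0 := by omega
    have h6 : b = 0 := by
      rcases Nat.mul_eq_zero.1 h5 with h7 | h7
      · omega
      · exact h7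
    omega
  · rintro ⟨h3, h4⟩
    have h5 : a = 0 := by omega
    have h6 : b = 0 := by omega
    rw [h2, h5, h6]
    ring

theorem wa1_pt {p : ℕ} (hp : p.Prime) (h1 : LBT p N M) (h2 : LBT p M L) (Q : HeightOneSpectrum (𝓞 L)) (hpQ : (p : 𝓞 L) ∈ Q.asIdeal)
    {w : HeightOneSpectrum (𝓞 M)} (hw : Q.asIdeal.under (𝓞 M) = w.asIdeal) :
    2 * (Q.asIdeal.ramificationIdx (𝓞 N) - 1) ≤ multiplicity Q.asIdeal (differentIdeal (𝓞 N) (𝓞 L)) ∧
    (multiplicity Q.asIdeal (differentIdeal (𝓞 N) (𝓞 L)) = 2 * (Q.asIdeal.ramificationIdx (𝓞 N) - 1) ↔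
      multiplicity Q.asIdeal (differentIdeal (𝓞 M) (𝓞 L)) = 2 * (Q.asIdeal.ramificationIdx (𝓞 M) - 1) ∧
      multiplicity w.asIdeal (differentIdeal (𝓞 N) (𝓞 M)) = 2 * (w.asIdeal.ramificationIdx (𝓞 N) - 1)) := by
  have hlo : Q.asIdeal.LiesOver w.asIdeal := ⟨hw.symm⟩
  have hQp := Q.isPrime
  have hwp := w.isPrime
  have h3 := r8_tower (N := N) Q w hw
  unfold ex at h3
  have h4 := Ideal.ramificationIdx_tower (R := 𝓞 N) w.asIdeal Q.asIdeal
  have h5 : 0 < Q.asIdeal.ramificationIdx (𝓞 M) := Ideal.ramificationIdx_pos _ _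
  have h6 : 0 < w.asIdeal.ramificationIdx (𝓞 N) := Ideal.ramificationIdx_pos _ _
  rw [h4]
  exact wa1_ar h6 h5 h3 (h2 _ hQp hpQ) (h1 _ hwp ((wa1_mem hw).2 hpQ))

theorem wa1_tow {p : ℕ} (hp : p.Prime) (h1 : LBT p N M) (h2 : LBT p M L) : LBT p N L ∧ (D2T p N L ↔ D2T p N M ∧ D2T p M L) := by
  refine ⟨fun Q hQ hpQ => ?_, fun h => ⟨fun w hw hpw => ?_, fun Q hQ hpQ => ?_⟩, fun h Q hQ hpQ => ?_⟩
  · obtain ⟨Q, rfl⟩ := wa1_hos hp Q hQ hpQ
    obtain ⟨w, hw⟩ := wa1_under (N := M) Q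
    exact (wa1_pt hp h1 h2 Q hpQ hw).1
  · obtain ⟨w, rfl⟩ := wa1_hos hp w hw hpw
    obtain ⟨Q, hQ1, hQ2⟩ := Ideal.exists_maximal_ideal_liesOver_of_isIntegral (S := 𝓞 L) w.asIdeal
    have hQ0 : Q ≠ ⊥ := Ideal.ne_bot_of_liesOver_of_ne_bot w.ne_bot Q
    have hover : Q.under (𝓞 M) = w.asIdeal := hQ2.over.symm
    obtain ⟨Q', hQ'⟩ : ∃ Q' : HeightOneSpectrum (𝓞 L), Q'.asIdeal = Q := ⟨⟨Q, hQ1.isPrime, hQ0⟩, rfl⟩
    rw [← hQ'] at hover
    have hpQ : (p : 𝓞 L) ∈ Q'.asIdeal := (wa1_mem hover).1 hpw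
    exact ((wa1_pt hp h1 h2 Q' hpQ hover).2.1 (h _ Q'.isPrime hpQ)).2
  · obtain ⟨Q, rfl⟩ := wa1_hos hp Q hQ hpQ
    obtain ⟨w, hw⟩ := wa1_under (N := M) Q
    exact ((wa1_pt hp h1 h2 Q hpQ hw).2.1 (h _ hQ hpQ)).1
  · obtain ⟨Q, rfl⟩ := wa1_hos hp Q hQ hpQ
    obtain ⟨w, hw⟩ := wa1_under (N := M) Q
    exact (wa1_pt hp h1 h2 Q hpQ hw).2.2 ⟨h.2 _ hQ hpQ, h.1 _ w.isPrime ((wa1_mem hw).2 hpQ)⟩

end tower

end SSW
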