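import Mathlib
import Pool.Agent.Lib.SSW.WA1
import Pool.Agent.Lib.SSU.A6

/-! # SSW, WA2: exponents of the different: intermediate fields -/

open NumberField IsDedekindDomain

namespace SSW

open H55P SSR H35M SSU
open H55R (es)

section idt

variable {N : Type} [Field N] [NumberField N] {L : Type} [Field L] [NumberField L] [Algebra N L]

theorem wa2_idt {p : ℕ} (hp : p.Prime) (hs : Function.Surjective (algebraMap N L)) : D2T p N L := by
  intro Q hQ hpQ
  obtain ⟨Q, rfl⟩ := wa1_hos hp Q hQ hpQ
  obtain ⟨v, hv⟩ := wa1_under (N := N) Q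
  have hinj : Function.Injective (algebraMap (𝓞 N) (𝓞 L)) := FaithfulSMul.algebraMap_injective _ _
  have hsur : Function.Surjective (algebraMap (𝓞 N) (𝓞 L)) := by
    intro x
    obtain ⟨y, hy⟩ := hs (x : L)
    have h1 : IsIntegral ℤ (algebraMap N L y) := by
      rw [hy]
      exact x.2
    have h2 : IsIntegral ℤ y := (isIntegral_algebraMap_iff (algebraMap N L).injective).1 h1
    exact ⟨⟨y, h2⟩, RingOfIntegers.ext hy⟩
  have hlo : Q.asIdeal.LiesOver v.asIdeal := ⟨hv.symm⟩
  have hm : v.asIdeal.map (algebraMap (𝓞 N) (𝓞 L)) = Q.asIdeal := by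
    rw [← hv]
    exact Ideal.map_comap_of_surjective _ hsur _
  have h1 : Q.asIdeal.ramificationIdx (𝓞 N) = 1 := by
    rw [Ideal.IsDedekindDomain.ramificationIdx_eq_multiplicity v.asIdeal Q.asIdeal (by rw [hm]; exact Q.ne_bot), hm]
    have h2 := multiplicity_pow_self_of_prime Q.prime 1
    rwa [pow_one] at h2
  have h3 : ¬ Q.asIdeal ∣ differentIdeal (𝓞 N) (𝓞 L) := by
    rw [not_dvd_differentIdeal_iff]
    exact Ideal.ramificationIdx_eq_one_iff.1 h1
  rw [h1, multiplicity_eq_zero.2 h3]

end idt

variable {F : Type} [Field F] [NumberField F] {Ω : Type} [Field Ω] [Algebra F Ω] {p : ℕ}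

theorem wa2_f (M K : IntermediateField F Ω) [NumberField M] [NumberField K] (h : M ≤ K) :
    letI : Algebra M K := (IntermediateField.inclusion h).toRingHom.toAlgebra
    (D2F p M K ↔ D2T p M K) := ⟨fun h' => h' h, fun h' _ => h'⟩

theorem wa3_self (hp : p.Prime) (M : IntermediateField F Ω) [NumberField M] : D2F p M M := by
  intro h
  let _ : Algebra M M := (IntermediateField.inclusion h).toRingHom.toAlgebra
  exact wa2_idt (N := M) (L := M) hp fun x => ⟨x, rfl⟩

variable [IsAlgClosure F Ω]

theorem wa2_fin (K : IntermediateField F Ω) [NumberField K] : FiniteDimensional F K :=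
  Module.Finite.of_restrictScalars_finite ℚ F K

/-- The upper part of a p-extension. -/
theorem wa2_pext (hp : p.Prime) (M N L : IntermediateField F Ω) (hL : PExt p M L) (hMN : M ≤ N) (hNL : N ≤ L) : PExt p N L := by
  have hLf : FiniteDimensional F L := hL.fin
  have hMf : FiniteDimensional F M := finDim_of_le hL.le
  refine ⟨hL.fin, hNL, fun s hs x hx => hL.norm s (IntermediateField.fixingSubgroup_antitone hMN hs) x hx, ?_⟩
  obtain ⟨k, hk⟩ := hL.deg
  obtain ⟨j, hj⟩ := pext_deg p hp M N L hL hMN hNL
  letI : Algebra N L := s13_alg hNL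
  have hstN : IsScalarTower F N L := IsScalarTower.of_algebraMap_eq fun x => rfl
  have h1 : Module.finrank F N * Module.finrank N L = Module.finrank F L := Module.finrank_mul_finrank F N L
  have hMN' : Module.finrank F N = Module.finrank F M * p ^ j := by
    letI : Algebra M N := (IntermediateField.inclusion hMN).toRingHom.toAlgebra
    have h2 : IsScalarTower F M N := alg_tower M N hMN
    rw [← Module.finrank_mul_finrank F M N, hj]
  have h5 := h1
  rw [hk, hMN', mul_assoc] at h5
  have hpos : 0 < Module.finrank F M := Module.finrank_pos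
  have h2 : p ^ j * Module.finrank N L = p ^ k := Nat.eq_of_mul_eq_mul_left hpos h5
  obtain ⟨k', -, hk'⟩ := (Nat.dvd_prime_pow hp).1 (Dvd.intro_left _ h2)
  exact ⟨k', by rw [← h1, hk']⟩

/-- The lower bound in a p-extension. -/
theorem wa2_lb (hp : p.Prime) (M L : IntermediateField F Ω) (hL : PExt p M L) [NumberField M] (K : IntermediateField F Ω)
    [NumberField K] (hMK : M ≤ K) (hKL : K ≤ L) :
    letI : Algebra M K := (IntermediateField.inclusion hMK).toRingHom.toAlgebra
    LBT p M K := by
  classical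
  have hac : IsAlgClosed Ω := IsAlgClosure.isAlgClosed F
  have hal : Algebra.IsAlgebraic F Ω := IsAlgClosure.isAlgebraic
  have hcz : CharZero Ω := charZero_of_injective_algebraMap (FaithfulSMul.algebraMap_injective F Ω)
  have hLf : FiniteDimensional F L := hL.fin
  obtain ⟨n, hn⟩ : ∃ n, Module.finrank F K = n := ⟨_, rfl⟩
  induction n using Nat.strong_induction_on generalizing K with
  | _ n ih =>
    rcases eq_or_ne K M with rfl | hne
    · intro Q hQ hpQ
      exact (wa3_self hp K hMK Q hQ hpQ).ge
    obtain ⟨N, hMN, hNK, hdeg, hnorm⟩ := chain_step p hp M K L hL hMK hKL hne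
    have hKf : FiniteDimensional F K := finDim_of_le hKL
    have hNf : FiniteDimensional F N := finDim_of_le hNK
    have hNn : NumberField N := H16C.FR_numberField N
    have hNpos : 0 < Module.finrank F N := Module.finrank_pos
    have hlt : Module.finrank F N < n := by
      rw [← hn, hdeg]
      exact lt_mul_of_one_lt_right hNpos hp.one_lt
    letI iNK : Algebra N K := (IntermediateField.inclusion hNK).toRingHom.toAlgebra
    letI iMN : Algebra M N := (IntermediateField.inclusion hMN).toRingHom.toAlgebra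
    letI iMK : Algebra M K := (IntermediateField.inclusion hMK).toRingHom.toAlgebra
    obtain ⟨hst, hgal, hfr⟩ := chain_types p hp N K hNK hnorm hdeg
    have t1 : IsScalarTower M N K := IsScalarTower.of_algebraMap_eq fun x => rfl
    exact (wa1_tow hp (ih _ hlt N hMN (hNK.trans hKL) rfl) (wa1_lb hp hfr)).1

/-- D2F in a tower. -/
theorem wa2 (hp : p.Prime) (M N K L : IntermediateField F Ω) [NumberField M] [NumberField N] [NumberField K] (hL : PExt p M L)
    (hMN : M ≤ N) (hNK : N ≤ K) (hKL : K ≤ L) : D2F p M K ↔ D2F p M N ∧ D2F p N K := by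
  have h1 := wa2_lb hp M L hL N hMN (hNK.trans hKL)
  have h2 := wa2_lb hp N L (wa2_pext hp M N L hL hMN (hNK.trans hKL)) K hNK hKL
  rw [wa2_f M K (hMN.trans hNK), wa2_f M N hMN, wa2_f N K hNK]
  letI iNK : Algebra N K := (IntermediateField.inclusion hNK).toRingHom.toAlgebra
  letI iMN : Algebra M N := (IntermediateField.inclusion hMN).toRingHom.toAlgebra
  letI iMK : Algebra M K := (IntermediateField.inclusion (hMN.trans hNK)).toRingHom.toAlgebra
  have t1 : IsScalarTower M N K := IsScalarTower.of_algebraMap_eq fun x => rfl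
  exact (wa1_tow hp h1 h2).2

/-- D2F in one step: all breaks are 1. -/
theorem wa3_tram (hp : p.Prime) (N K : IntermediateField F Ω) [NumberField N] [NumberField K] (hNK : N ≤ K)
    (hnorm : ∀ s ∈ N.fixingSubgroup, ∀ x ∈ K, s x ∈ K) (hdeg : Module.finrank F K = Module.finrank F N * p) :
    letI : Algebra N K := (IntermediateField.inclusion hNK).toRingHom.toAlgebra
    (D2F p N K ↔ ∀ v : HeightOneSpectrum (𝓞 N), es N K v ≠ 1 → (p : 𝓞 N) ∈ v.asIdeal → ∃ w : HeightOneSpectrum (𝓞 K), TRam p v w 1) := by
  classical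
  have hac : IsAlgClosed Ω := IsAlgClosure.isAlgClosed F
  have hal : Algebra.IsAlgebraic F Ω := IsAlgClosure.isAlgebraic
  have hcz : CharZero Ω := charZero_of_injective_algebraMap (FaithfulSMul.algebraMap_injective F Ω)
  have hKf : FiniteDimensional F K := wa2_fin K
  let _ : Algebra N K := (IntermediateField.inclusion hNK).toRingHom.toAlgebra
  obtain ⟨hst, hgal, hfr⟩ := chain_types p hp N K hNK hnorm hdeg
  exact (wa2_f N K hNK).trans (wa1_d2 hp hfr)

/-- The step as a p-extension. -/
theorem wa3_pext (_hp : p.Prime) (N K : IntermediateField F Ω) [NumberField N] [NumberField K] (hNK : N ≤ K)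
    (hnorm : ∀ s ∈ N.fixingSubgroup, ∀ x ∈ K, s x ∈ K) (hdeg : Module.finrank F K = Module.finrank F N * p) : PExt p N K :=
  ⟨wa2_fin K, hNK, hnorm, 1, by rw [pow_one]; exact hdeg⟩

/-- D2F in one step: the second ramification groups. -/
theorem wa3_g2 (hp : p.Prime) (N K : IntermediateField F Ω) [NumberField N] [NumberField K] (hNK : N ≤ K)
    (hnorm : ∀ s ∈ N.fixingSubgroup, ∀ x ∈ K, s x ∈ K) (hdeg : Module.finrank F K = Module.finrank F N * p) :
    D2F p N K ↔ G2F p N K := by
  classical
  have hac : IsAlgClosed Ω := IsAlgClosure.isAlgClosed F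
  have hal : Algebra.IsAlgebraic F Ω := IsAlgClosure.isAlgebraic
  have hcz : CharZero Ω := charZero_of_injective_algebraMap (FaithfulSMul.algebraMap_injective F Ω)
  have hKf : FiniteDimensional F K := wa2_fin K
  constructor
  · intro h
    refine g2f_of_types N K hNK hnorm ?_
    obtain ⟨hst, hgal, hfr⟩ := chain_types p hp N K hNK hnorm hdeg
    letI : Algebra N K := (IntermediateField.inclusion hNK).toRingHom.toAlgebra
    intro Q hQ hpQ
    exact wa1_g2 hp hfr (h hNK) Q hQ hpQ
  · intro h
    exact (wa3_tram hp N K hNK hnorm hdeg).2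
      (g2_TRam hp N N K K (wa3_pext hp N K hNK hnorm hdeg) h le_rfl hNK le_rfl hnorm hdeg)

end SSW
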