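import Mathlib
import Pool.Agent.Lib.SSU.A5
import Pool.Agent.Lib.SSW.W11
import Pool.Agent.Lib.SSW.WA2

/-! # SSW, W12: the tower, p inert in F, arbitrary ramification -/

open NumberField IsDedekindDomain WeierstrassCurve

namespace SSW

open H55N H55P SSR SSU
open H55R (es)
open H35M (LVO LVOi NoTor)

section tower

variable {F : Type} [Field F] [NumberField F] [IQ F] {Ω : Type} [Field Ω] [DecidableEq Ω] [Algebra F Ω] [IsAlgClosure F Ω]

/-- The tower. -/
theorem tower_W {Om : ℂ} {mo : Ideal (𝓞 F)} {ψ : Ideal (𝓞 F) →*₀ 𝓞 F} {p : ℕ} [Fact p.Prime] (hS : SCtx p mo ψ Om)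
    {V : ValuationSubring ℂ} (hV : V.valuation (p : ℂ) < 1)
    (M L : IntermediateField F Ω) (hL : PExt p M L) [NumberField M] (hNT : NTP M p mo ψ V)
    (K : IntermediateField F Ω) [NumberField K] (hMK : M ≤ K) (hKL : K ≤ L) :
    LVO F V Om (PsiP K ψ) ↔ LVO F V Om (PsiP M ψ) ∧ (∀ v : HeightOneSpectrum (𝓞 M), Ram M K v.asIdeal →
      V.valuation (1 - (starRingEnd ℂ) (PsiP M ψ v.asIdeal)) = 1) ∧ D2F p M K := by
  have hac : IsAlgClosed Ω := IsAlgClosure.isAlgClosed F
  have hal : Algebra.IsAlgebraic F Ω := IsAlgClosure.isAlgebraic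
  have hcz : CharZero Ω := charZero_of_injective_algebraMap (FaithfulSMul.algebraMap_injective F Ω)
  have hp : p.Prime := Fact.out
  have hLf : FiniteDimensional F L := hL.fin
  have hMf : FiniteDimensional F M := finDim_of_le hL.le
  have key : ∀ (n : ℕ) (K : IntermediateField F Ω) [NumberField K], M ≤ K → K ≤ L →
      Module.finrank F K = n → (LVO F V Om (PsiP K ψ) ↔ LVO F V Om (PsiP M ψ) ∧
        (∀ v : HeightOneSpectrum (𝓞 M), Ram M K v.asIdeal → V.valuation (1 - (starRingEnd ℂ) (PsiP M ψ v.asIdeal)) = 1) ∧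
          D2F p M K) := by
    intro n
    induction n using Nat.strong_induction_on with
    | _ n ih =>
      intro K _ hMK hKL hn
      rcases eq_or_ne K M with rfl | hne
      · exact ⟨fun h => ⟨h, fun v hv => (a4_self K v hv).elim, wa3_self hp K⟩, fun h => h.1⟩
      obtain ⟨N, hMN, hNK, hdeg, hnorm⟩ := chain_step p hp M K L hL hMK hKL hne
      have hKf : FiniteDimensional F K := finDim_of_le hKL
      have hNf : FiniteDimensional F N := finDim_of_le hNK
      have hNn : NumberField N := H16C.FR_numberField N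
      have hNpos : 0 < Module.finrank F N := Module.finrank_pos
      have hlt : Module.finrank F N < n := by
        rw [← hn, hdeg]
        exact lt_mul_of_one_lt_right hNpos hp.one_lt
      have hD2 := wa2 hp M N K L hL hMN hNK hKL
      have hD3 := wa3_tram hp N K hNK hnorm hdeg
      letI iNK : Algebra N K := (IntermediateField.inclusion hNK).toRingHom.toAlgebra
      letI iMN : Algebra M N := (IntermediateField.inclusion hMN).toRingHom.toAlgebra
      obtain ⟨hst, hgal, hfr⟩ := chain_types p hp N K hNK hnorm hdeg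
      have hstM : IsScalarTower F M N := alg_tower M N hMN
      have hLN := ih _ hlt N hMN (hNK.trans hKL) rfl
      obtain ⟨j', hj'⟩ := pext_deg p hp M N L hL hMN (hNK.trans hKL)
      have hNTN : NTP N p mo ψ V := NTP_up M N p hp j' hj' V hV hNT
      by_cases hDN : D2F p N K
      · have hTR := hD3.1 hDN
        rw [stepC hS hV N K hfr hNTN hTR, hLN, hD2]
        have hrt := fun v => ram_tower M N K hMN hNK hnorm v
        constructor
        · rintro ⟨⟨h1, h2, h4⟩, h3⟩
          refine ⟨h1, fun v hv => ?_, h4, hDN⟩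
          rcases (hrt v).1 hv with h4 | ⟨w, hw1, hw2⟩
          · exact h2 v h4
          · obtain ⟨v', hv', -, hf⟩ := ram_down p hp M N K L hL hMN hNK hKL hnorm w hw2
            have hf' : ∃ j : ℕ, w.asIdeal.inertiaDeg (𝓞 M) = p ^ j := hf
            exact (adm_iff M N p hp V hV v w hw1 hf').2 (h3 w hw2)
        · rintro ⟨h1, h2, h3, -⟩
          refine ⟨⟨h1, fun v hv => h2 v ((hrt v).2 (Or.inl hv)), h3⟩, fun w hw => ?_⟩
          obtain ⟨v, hv, -, hf⟩ := ram_down p hp M N K L hL hMN hNK hKL hnorm w hw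
          exact (adm_iff M N p hp V hV v w hv hf).1 (h2 v ((hrt v).2 (Or.inr ⟨w, hv, hw⟩)))
      · have hex : ∀ v : HeightOneSpectrum (𝓞 N), ∃ t : ℕ, es N K v ≠ 1 → (p : 𝓞 N) ∈ v.asIdeal →
            ∃ w : HeightOneSpectrum (𝓞 K), TRam p v w t := by
          intro v
          by_cases h : es N K v ≠ 1 ∧ (p : 𝓞 N) ∈ v.asIdeal
          · obtain ⟨t, w, ht⟩ := H35M.exists_TRam hp hfr v h.1 h.2
            exact ⟨t, fun _ _ => ⟨w, ht⟩⟩
          · exact ⟨0, fun h1 h2 => absurd ⟨h1, h2⟩ h⟩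
        choose t ht using hex
        have hv0 : ∃ v₀ : HeightOneSpectrum (𝓞 N), es N K v₀ ≠ 1 ∧ (p : 𝓞 N) ∈ v₀.asIdeal ∧ 2 ≤ t v₀ := by
          by_contra hcon
          apply hDN
          refine hD3.2 fun v h1 h2 => ?_
          obtain ⟨w, hw⟩ := ht v h1 h2
          have h3 : t v = 1 := by
            have h4 := hw.pos
            by_contra h5
            exact hcon ⟨v, h1, h2, by omega⟩
          rw [h3] at hw
          exact ⟨w, hw⟩
        obtain ⟨v₀, h1, h2, h3⟩ := hv0
        have h4 := stepW hS hV N K hfr hNTN ht h1 h2 h3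
        refine ⟨fun h => absurd h h4, fun h => absurd (hD2.1 h.2.2).2 hDN⟩
  exact key _ K hMK hKL rfl

end tower

section main

variable {F : Type} [Field F] [NumberField F] [IQ F] {W : WeierstrassCurve ℤ} {Om : ℂ} {m : Ideal (𝓞 F)} {ψ : Ideal (𝓞 F) →*₀ 𝓞 F} {p : ℕ}

open H55K.TQ (BaseH PrimeH)
open H13R (NoRel)

variable (hH : BaseH F (W⁄(𝓞 F)) Om m ψ) (hp : PrimeH F (W⁄(𝓞 F)) p) (hin : (Ideal.span {(p : 𝓞 F)}).IsPrime)
  {M L K : IntermediateField F (AlgebraicClosure F)} [NumberField M] [NumberField K] (hL : PExt p M L) (hMK : M ≤ K) (hKL : K ≤ L)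

include hH hp hin hL hMK hKL

/-- L-values at a place above p. -/
theorem critW (hT : NoTor p (W⁄(𝓞 F)) M) {V : ValuationSubring ℂ} (hV : V.valuation (p : ℂ) < 1) :
    LVO F V Om (PsiP K ψ) ↔ LVO F V Om (PsiP M ψ) ∧ NoRel p (W⁄(𝓞 F)) M K ∧ D2F p M K := by
  have : Fact p.Prime := ⟨hp.prime⟩
  classical
  rw [tower_W (sctx_of hH hp hin) hV M L hL (ntp_C hH hp hin hV M hT) K hMK hKL]
  refine and_congr_right fun _ => and_congr_left fun _ => ?_
  unfold NoRel
  refine forall_congr' fun v => ?_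
  rw [cnd_C hH hp hin hV M v]

end main

end SSW
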