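import Mathlib
import Pool.Agent.Lib.SSW.WA2
import Pool.Agent.Lib.SSN.W16

/-! # SSW, WA4: nonzero Selmer classes over K, p inert, if NoRel or the condition on the different fails -/

open NumberField IsDedekindDomain WeierstrassCurve

namespace SSW

open H55P (IQ PExt SelG ac Pt)
open H55K.TQ (BaseH PrimeH)
open H13R (NoRel)

open Classical in
/-- Nonzero Selmer classes from the different. PROOF. Induction on the degree of K. If E(K) has a point of order p: non_of_tors. Otherwise one step N of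
the chain, K over N normal of degree p. If D2F fails for N over M: the classes over N (induction) stay nonzero over K (non_up). If D2F fails for K over N:
G2F fails for K over N (wa3_g2) and nonsel_g2. -/
theorem wa4_nonD {F : Type} [Field F] [NumberField F] [IQ F] {W : WeierstrassCurve ℤ} {Om : ℂ} {m : Ideal (𝓞 F)} {ψ : Ideal (𝓞 F) →*₀ 𝓞 F}
    {p : ℕ} (hH : BaseH F (W⁄(𝓞 F)) Om m ψ) (hp : PrimeH F (W⁄(𝓞 F)) p) (hin : (Ideal.span {(p : 𝓞 F)}).IsPrime)
    {M L : IntermediateField F (AlgebraicClosure F)} [NumberField M] (hL : PExt p M L)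
    (K : IntermediateField F (AlgebraicClosure F)) [NumberField K] (hMK : M ≤ K) (hKL : K ≤ L) (h : ¬ D2F p M K) :
    H13Z.SelNon ((W⁄(𝓞 F))⁄F) p K := by
  have hLf : FiniteDimensional F L := hL.fin
  have hell : ((W⁄(𝓞 F))⁄F).IsElliptic := H55P.gen_ell (W⁄(𝓞 F)) hH.data.ell
  obtain ⟨n, hn⟩ : ∃ n, Module.finrank F K = n := ⟨_, rfl⟩
  induction n using Nat.strong_induction_on generalizing K with
  | _ n ih =>
    have hKf : FiniteDimensional F K := H55P.finDim_of_le hKL
    by_cases hno : ∀ R : Pt ((W⁄(𝓞 F))⁄F) (AlgebraicClosure F), p • R = 0 →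
      (∀ s ∈ K.fixingSubgroup, ac ((W⁄(𝓞 F))⁄F) s R = R) → R = 0
    swap
    · push Not at hno
      obtain ⟨R, h1, h2, h3⟩ := hno
      exact SSN.non_of_tors ((W⁄(𝓞 F))⁄F) p hp.prime K h1 h3 h2
    rcases eq_or_ne K M with rfl | hne
    · exact (h (wa3_self hp.prime K)).elim
    obtain ⟨N, hMN, hNK, hdeg, hnorm⟩ := H55P.chain_step p hp.prime M K L hL hMK hKL hne
    have hNf : FiniteDimensional F N := H55P.finDim_of_le hNK
    have hNn : NumberField N := H16C.FR_numberField N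
    have hNpos : 0 < Module.finrank F N := Module.finrank_pos
    have hlt : Module.finrank F N < n := by
      rw [← hn, hdeg]
      exact lt_mul_of_one_lt_right hNpos hp.prime.one_lt
    by_cases hN : D2F p M N
    · have hK : ¬ D2F p N K := fun h2 => h ((wa2 hp.prime M N K L hL hMN hNK hKL).2 ⟨hN, h2⟩)
      rw [wa3_g2 hp.prime N K hNK hnorm hdeg] at hK
      exact SSN.nonsel_g2 hH hp hin (wa3_pext hp.prime N K hNK hnorm hdeg) hK
    · exact H13Y.non_up ((W⁄(𝓞 F))⁄F) p hNK hnorm hno (ih _ hlt N hMN (hNK.trans hKL) hN rfl)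

open Classical in
/-- Nonzero Selmer classes. -/
theorem nonselW {F : Type} [Field F] [NumberField F] [IQ F] {W : WeierstrassCurve ℤ} {Om : ℂ} {m : Ideal (𝓞 F)} {ψ : Ideal (𝓞 F) →*₀ 𝓞 F}
    {p : ℕ} (hH : BaseH F (W⁄(𝓞 F)) Om m ψ) (hp : PrimeH F (W⁄(𝓞 F)) p) (hin : (Ideal.span {(p : 𝓞 F)}).IsPrime)
    {M L K : IntermediateField F (AlgebraicClosure F)} [NumberField M] [NumberField K] (hL : PExt p M L) (hMK : M ≤ K) (hKL : K ≤ L)
    (h : ¬ (NoRel p (W⁄(𝓞 F)) M K ∧ D2F p M K)) : H13Z.SelNon ((W⁄(𝓞 F))⁄F) p K := by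
  by_cases hN : NoRel p (W⁄(𝓞 F)) M K
  · exact wa4_nonD hH hp hin hL K hMK hKL fun h2 => h ⟨hN, h2⟩
  · exact SSN.nonsel_in hH hp hin hL hMK hKL hN

end SSW
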