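import Mathlib
import Pool.Agent.Lib.SSW.WA4
import Pool.Agent.Lib.SSU.SelO
import Pool.Agent.Lib.SSU.A5
import Pool.Agent.Lib.H55G.I4c

/-! # SSW, WA5: the Selmer group in p-extensions, p inert, without a condition on the ramification -/

open NumberField IsDedekindDomain WeierstrassCurve

namespace SSW

open H55P (IQ PExt SelG ac Pt Ram PsiP)
open H55K.TQ (BaseH PrimeH)
open H13R (NoRel)
open H55G (OkM)

section ram

variable {F : Type} [Field F] [NumberField F] {Ω : Type} [Field Ω] [Algebra F Ω] [IsAlgClosed Ω] [Algebra.IsAlgebraic F Ω] [CharZero Ω]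

/-- Ramification in one step. -/
theorem wa5_es (N K : IntermediateField F Ω) [NumberField N] [NumberField K] (hNK : N ≤ K)
    (hnorm : ∀ s ∈ N.fixingSubgroup, ∀ x ∈ K, s x ∈ K) (w : HeightOneSpectrum (𝓞 N)) (hw : Ram N K w.asIdeal) :
    letI : Algebra N K := (IntermediateField.inclusion hNK).toRingHom.toAlgebra
    H55R.es N K w ≠ 1 := by
  classical
  let _ : Algebra N K := (IntermediateField.inclusion hNK).toRingHom.toAlgebra
  rcases (H55P.ram_tower N N K le_rfl hNK hnorm w).1 hw with h | ⟨w', hw', h⟩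
  · exact (SSU.a4_self N w h).elim
  · have h2 : w' = w := HeightOneSpectrum.ext (by
      rw [← hw']
      rfl)
    rw [← h2]
    exact h

end ram

variable {F : Type} [Field F] [NumberField F] [IQ F] {W : WeierstrassCurve ℤ} {Om : ℂ} {m : Ideal (𝓞 F)} {ψ : Ideal (𝓞 F) →*₀ 𝓞 F}
    {p : ℕ}

/-- NoRel in a tower whose upper step is normal of degree p. -/
theorem wa5_norel (hH : BaseH F (W⁄(𝓞 F)) Om m ψ) (hp : PrimeH F (W⁄(𝓞 F)) p) (hin : (Ideal.span {(p : 𝓞 F)}).IsPrime)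
    {M N K L : IntermediateField F (AlgebraicClosure F)} [NumberField M] [NumberField N] [NumberField K] (hL : PExt p M L)
    (hMN : M ≤ N) (hNK : N ≤ K) (hKL : K ≤ L) (hnorm : ∀ s ∈ N.fixingSubgroup, ∀ x ∈ K, s x ∈ K)
    (h : NoRel p (W⁄(𝓞 F)) M K) : NoRel p (W⁄(𝓞 F)) M N ∧ NoRel p (W⁄(𝓞 F)) N K := by
  classical
  have hcz : CharZero (AlgebraicClosure F) := charZero_of_injective_algebraMap (FaithfulSMul.algebraMap_injective F _)
  letI iNK : Algebra N K := (IntermediateField.inclusion hNK).toRingHom.toAlgebra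
  letI iMN : Algebra M N := (IntermediateField.inclusion hMN).toRingHom.toAlgebra
  have hstM : IsScalarTower F M N := H55P.alg_tower M N hMN
  have hrt := fun v => H55P.ram_tower M N K hMN hNK hnorm v
  refine ⟨fun v hv hΔ => h v ((hrt v).2 (Or.inl hv)) hΔ, fun w hw => ?_⟩
  obtain ⟨V, hV⟩ := SSN.c1_V p hp.prime
  have hes := wa5_es N K hNK hnorm w hw
  obtain ⟨v, hv, -, hf⟩ := H55P.ram_down p hp.prime M N K L hL hMN hNK hKL hnorm w hes
  have h1 := (SSU.cnd_C hH hp hin hV M v).2 (h v ((hrt v).2 (Or.inr ⟨w, hv, hes⟩)))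
  exact (SSU.cnd_C hH hp hin hV N w).1 ((H55P.adm_iff M N p hp.prime V hV v w hv hf).1 h1)

open Classical in
/-- Selmer groups, from M to K. -/
theorem wa5_up (hH : BaseH F (W⁄(𝓞 F)) Om m ψ) (hp : PrimeH F (W⁄(𝓞 F)) p) (hin : (Ideal.span {(p : 𝓞 F)}).IsPrime)
    {M L : IntermediateField F (AlgebraicClosure F)} [NumberField M] (hL : PExt p M L) (hB : OkM p (W⁄(𝓞 F)) M)
    (hS : SelG p (W⁄(𝓞 F)) M) (K : IntermediateField F (AlgebraicClosure F)) [NumberField K] (hMK : M ≤ K) (hKL : K ≤ L)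
    (hN : NoRel p (W⁄(𝓞 F)) M K) (hD : D2F p M K) : SelG p (W⁄(𝓞 F)) K := by
  have hLf : FiniteDimensional F L := hL.fin
  obtain ⟨n, hn⟩ : ∃ n, Module.finrank F K = n := ⟨_, rfl⟩
  induction n using Nat.strong_induction_on generalizing K with
  | _ n ih =>
    have hKf : FiniteDimensional F K := H55P.finDim_of_le hKL
    rcases eq_or_ne K M with rfl | hne
    · exact hS
    obtain ⟨N, hMN, hNK, hdeg, hnorm⟩ := H55P.chain_step p hp.prime M K L hL hMK hKL hne
    have hNf : FiniteDimensional F N := H55P.finDim_of_le hNK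
    have hNn : NumberField N := H16C.FR_numberField N
    have hNpos : 0 < Module.finrank F N := Module.finrank_pos
    have hlt : Module.finrank F N < n := by
      rw [← hn, hdeg]
      exact lt_mul_of_one_lt_right hNpos hp.prime.one_lt
    obtain ⟨hD1, hD2⟩ := (wa2 hp.prime M N K L hL hMN hNK hKL).1 hD
    obtain ⟨hN1, hN2⟩ := wa5_norel hH hp hin hL hMN hNK hKL hnorm hN
    have hSN := ih _ hlt N hMN (hNK.trans hKL) hN1 hD1 rfl
    exact (SSU.selAO hH hp hin ⟨W, rfl⟩ (H55G.ok_up hH hp hL hMN (hNK.trans hKL) hB) (wa3_pext hp.prime N K hNK hnorm hdeg)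
      ((wa3_g2 hp.prime N K hNK hnorm hdeg).1 hD2) hNK le_rfl hN2 hSN).1

open Classical in
/-- Selmer groups. -/
theorem selW (hH : BaseH F (W⁄(𝓞 F)) Om m ψ) (hp : PrimeH F (W⁄(𝓞 F)) p) (hin : (Ideal.span {(p : 𝓞 F)}).IsPrime)
    {M L K : IntermediateField F (AlgebraicClosure F)} [NumberField M] [NumberField K] (hL : PExt p M L) (hMK : M ≤ K) (hKL : K ≤ L)
    (hB : OkM p (W⁄(𝓞 F)) M) :
    SelG p (W⁄(𝓞 F)) K ↔ SelG p (W⁄(𝓞 F)) M ∧ NoRel p (W⁄(𝓞 F)) M K ∧ D2F p M K := by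
  constructor
  · intro hS
    refine ⟨H19B.sel_downB hH hp hL hMK hKL hS, ?_⟩
    by_contra hc
    exact SSN.w16_non _ p K (nonselW hH hp hin hL hMK hKL hc) hS
  · rintro ⟨hS, hN, hD⟩
    exact wa5_up hH hp hin hL hB hS K hMK hKL hN hD

end SSW
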