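import Mathlib
import Pool.Agent.Lib.SSW.DD
import Pool.Agent.Lib.SSU.MainD
import Pool.Agent.Lib.SSN.W16

/-! # SSW: the statements of the tower theorems for p inert without a condition on the ramification (to be proved in SSW/WA, WB) -/

open NumberField IsDedekindDomain WeierstrassCurve

namespace SSW.Stm

open H55P (IQ PExt PsiP SelG ShaG PtsG)
open H55K.TQ (BaseH PrimeH)
open H13R (NoRel)
open H55G (OkM)
open H35M (LVO LVOi NoTor)

variable {F : Type} [Field F] [NumberField F] [IQ F] {W : WeierstrassCurve ℤ} {Om : ℂ}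
    {m : Ideal (𝓞 F)} {ψ : Ideal (𝓞 F) →*₀ 𝓞 F} {p : ℕ}

variable (hH : BaseH F (W⁄(𝓞 F)) Om m ψ) (hp : PrimeH F (W⁄(𝓞 F)) p) (hin : (Ideal.span {(p : 𝓞 F)}).IsPrime)
  {M L K : IntermediateField F (AlgebraicClosure F)} [NumberField M] [NumberField K] (hL : PExt p M L) (hMK : M ≤ K) (hKL : K ≤ L)

include hH hp hin hL hMK hKL

/-- L-values at a place above p (integrality is SSU.intC, without any condition). -/
theorem critW (hT : NoTor p (W⁄(𝓞 F)) M) {V : ValuationSubring ℂ} (hV : V.valuation (p : ℂ) < 1) :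
    LVO F V Om (PsiP K ψ) ↔ LVO F V Om (PsiP M ψ) ∧ NoRel p (W⁄(𝓞 F)) M K ∧ D2F p M K := by
  sorry

open Classical in
/-- Nonzero Selmer classes. -/
theorem nonselW (h : ¬ (NoRel p (W⁄(𝓞 F)) M K ∧ D2F p M K)) : H13Z.SelNon ((W⁄(𝓞 F))⁄F) p K := by
  sorry

open Classical in
/-- Selmer groups. -/
theorem selW (hB : OkM p (W⁄(𝓞 F)) M) :
    SelG p (W⁄(𝓞 F)) K ↔ SelG p (W⁄(𝓞 F)) M ∧ NoRel p (W⁄(𝓞 F)) M K ∧ D2F p M K := by
  sorry

end SSW.Stm
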