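import Mathlib
import Pool.Agent.Lib.SSW.DD
import Pool.Agent.Lib.SSU.A4

/-! # SSW: the statements of WA1 - WA3 (proved in WA1, WA2, WA3): exponents of the different in a p-extension -/

open NumberField IsDedekindDomain

namespace SSW.WAS

open H55P SSR SSU
open H55R (es)

variable {F : Type} [Field F] [NumberField F] {Ω : Type} [Field Ω] [Algebra F Ω] [IsAlgClosure F Ω] {p : ℕ}

/-- D2F in a tower. -/
theorem wa2 (hp : p.Prime) (M N K L : IntermediateField F Ω) [NumberField M] [NumberField N] [NumberField K] (hL : PExt p M L)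
    (hMN : M ≤ N) (hNK : N ≤ K) (hKL : K ≤ L) : D2F p M K ↔ D2F p M N ∧ D2F p N K := by
  sorry

/-- D2F in one step: all breaks are 1. -/
theorem wa3_tram (hp : p.Prime) (N K : IntermediateField F Ω) [NumberField N] [NumberField K] (hNK : N ≤ K)
    (hnorm : ∀ s ∈ N.fixingSubgroup, ∀ x ∈ K, s x ∈ K) (hdeg : Module.finrank F K = Module.finrank F N * p) :
    letI : Algebra N K := (IntermediateField.inclusion hNK).toRingHom.toAlgebra
    (D2F p N K ↔ ∀ v : HeightOneSpectrum (𝓞 N), es N K v ≠ 1 → (p : 𝓞 N) ∈ v.asIdeal → ∃ w : HeightOneSpectrum (𝓞 K), TRam p v w 1) := by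
  sorry

/-- D2F in one step: the second ramification groups. -/
theorem wa3_g2 (hp : p.Prime) (N K : IntermediateField F Ω) [NumberField N] [NumberField K] (hNK : N ≤ K)
    (hnorm : ∀ s ∈ N.fixingSubgroup, ∀ x ∈ K, s x ∈ K) (hdeg : Module.finrank F K = Module.finrank F N * p) :
    D2F p N K ↔ G2F p N K := by
  sorry

/-- The step as a p-extension. -/
theorem wa3_pext (hp : p.Prime) (N K : IntermediateField F Ω) [NumberField N] [NumberField K] (hNK : N ≤ K)
    (hnorm : ∀ s ∈ N.fixingSubgroup, ∀ x ∈ K, s x ∈ K) (hdeg : Module.finrank F K = Module.finrank F N * p) : PExt p N K := by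
  sorry

/-- D2F p M M. -/
theorem wa3_self (hp : p.Prime) (M : IntermediateField F Ω) [NumberField M] : D2F p M M := by
  sorry

end SSW.WAS
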